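import Mathlib
import Pool.Agent.TH881.RG.Defs
import Pool.Agent.H617R3.BT.Sieve

/-! Job 1235 (helper881, MP_629a14_nt), RG-D: moments of the local factors over the primes of a
residue class. -/

set_option autoImplicit false

namespace Pool.Agent.TH159.J1235

open Finset
open Pool.Agent.TH881
open Pool.Agent.H373R2.T7

/-- expansion of a product over prime divisors -/
lemma expand (s : Finset ℕ) (hs : ∀ p ∈ s, p.Prime) (c : ℕ → ℝ) (j : ℕ) :
    ∏ p ∈ s.filter (fun p => p ∣ j), (1 + c p) =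
      ∑ S ∈ s.powerset, if (∏ p ∈ S, p) ∣ j then ∏ p ∈ S, c p else 0 := by
  have h2 : ∏ p ∈ s.filter (fun p => p ∣ j), (1 + c p) = ∏ p ∈ s, (1 + if p ∣ j then c p else 0) := by
    rw [prod_filter]
    apply prod_congr rfl
    intro p _
    split_ifs <;> simp
  rw [h2, prod_one_add]
  apply sum_congr rfl
  intro S hS
  rw [mem_powerset] at hS
  have h3 := prod_dvd_iff S (fun p hp => hs p (hS hp)) j
  by_cases h4 : (∏ p ∈ S, p) ∣ j
  · rw [if_pos h4]
    apply prod_congr rfl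
    intro p hp
    rw [if_pos (h3.2 h4 p hp)]
  · rw [if_neg h4]
    have h5 : ¬ ∀ p ∈ S, p ∣ j := fun h => h4 (h3.1 h)
    push Not at h5
    obtain ⟨p, hp, h6⟩ := h5
    exact prod_eq_zero hp (if_neg h6)

lemma gw_le_mul (w L z h : ℕ) : gw w z h ≤ gw w L h * gw L z h := by
  unfold gw
  rw [← prod_filter_mul_prod_filter_not ((pT w z).filter (fun p => p ∣ h)) (fun p => p ≤ L)]
  have h1 : ∀ s : Finset ℕ, (∀ p ∈ s, p.Prime) → 0 ≤ ∏ p ∈ s, (1 - 1 / (p : ℝ))⁻¹ := fun s hs =>
    prod_nonneg fun p hp => inv_nonneg.2 (fac_pos (hs p hp)).le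
  apply mul_le_mul
  · apply prod_mono_sub
    · intro p hp
      rw [mem_filter, mem_filter, mem_pT] at hp
      rw [mem_filter, mem_pT]
      exact ⟨⟨hp.1.1.1, hp.2, hp.1.1.2.2⟩, hp.1.2⟩
    · intro p hp
      exact one_le_fac_inv (mem_pT.1 (mem_filter.1 hp).1).2.2
  · apply prod_mono_sub
    · intro p hp
      rw [mem_filter, mem_filter, mem_pT] at hp
      rw [mem_filter, mem_pT]
      exact ⟨⟨not_le.1 hp.2, hp.1.1.2.1, hp.1.1.2.2⟩, hp.1.2⟩
    · intro p hp
      exact one_le_fac_inv (mem_pT.1 (mem_filter.1 hp).1).2.2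
  · exact h1 _ fun p hp => (mem_pT.1 (mem_filter.1 (mem_filter.1 hp).1).1).2.2
  · exact h1 _ fun p hp => (mem_pT.1 (mem_filter.1 hp).1).2.2

lemma fac_inv_le_exp {p : ℕ} (hp : p.Prime) : (1 - 1 / (p : ℝ))⁻¹ ≤ Real.exp (1 / (p - 1)) := by
  have hp2 : (2 : ℝ) ≤ p := by exact_mod_cast hp.two_le
  have hp1 : (0 : ℝ) < p - 1 := by linarith
  have e1 : (1 - 1 / (p : ℝ))⁻¹ = 1 + 1 / (p - 1) := by
    have : (p : ℝ) ≠ 0 := by linarith
    have h5 : (p : ℝ) - 1 ≠ 0 := hp1.ne'
    have h6 : 1 - 1 / (p : ℝ) = (p - 1) / p := by field_simp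
    rw [h6, inv_div]
    field_simp
    ring
  rw [e1, add_comm]
  exact Real.add_one_le_exp _

/-- the large primes contribute little -/
lemma gw_tail (L z h N : ℕ) (hL : 2 ≤ L) (h0 : 0 < h) (hN : h ≤ N) :
    gw L z h ≤ Real.exp (Real.log N / Real.log L / L) := by
  have hL' : (2 : ℝ) ≤ L := by exact_mod_cast hL
  have hlog : 0 < Real.log L := Real.log_pos (by linarith)
  set T := (pT L z).filter (fun p => p ∣ h) with hT
  have hTp : ∀ p ∈ T, L < p ∧ p.Prime ∧ p ∣ h := by
    intro p hp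
    rw [hT, mem_filter, mem_pT] at hp
    exact ⟨hp.1.1, hp.1.2.2, hp.2⟩
  have h1 : (∏ p ∈ T, p) ∣ h :=
    (prod_dvd_iff T (fun p hp => (hTp p hp).2.1) h).1 fun p hp => (hTp p hp).2.2
  have h2 : L ^ T.card ≤ N := by
    calc L ^ T.card = ∏ _p ∈ T, L := by rw [prod_const]
      _ ≤ ∏ p ∈ T, p := prod_le_prod' fun p hp => (hTp p hp).1.le
      _ ≤ h := Nat.le_of_dvd h0 h1
      _ ≤ N := hN
  have h3 : (T.card : ℝ) ≤ Real.log N / Real.log L := by
    rw [le_div_iff₀ hlog, ← Real.log_pow]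
    apply Real.log_le_log (by positivity)
    exact_mod_cast h2
  unfold gw
  rw [← hT]
  calc ∏ p ∈ T, (1 - 1 / (p : ℝ))⁻¹ ≤ ∏ _p ∈ T, Real.exp (1 / L) := by
        apply prod_le_prod (fun p hp => inv_nonneg.2 (fac_pos (hTp p hp).2.1).le)
        intro p hp
        refine (fac_inv_le_exp (hTp p hp).2.1).trans (Real.exp_le_exp.2 ?_)
        apply one_div_le_one_div_of_le (by linarith)
        have : ((L + 1 : ℕ) : ℝ) ≤ p := by exact_mod_cast (hTp p hp).1
        push_cast at this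
        linarith
    _ = Real.exp (T.card / L) := by
        rw [prod_const, ← Real.exp_nat_mul]
        congr 1
        ring
    _ ≤ _ := by
        apply Real.exp_le_exp.2
        exact div_le_div_of_nonneg_right h3 (by linarith)

/-- two congruences give one class -/
lemma count_le (W d q M a b : ℕ) (hq : q = d * W) (hcop : Nat.Coprime d W) :
    ∃ r, (((Icc 1 M).filter (fun b' => b'.Prime ∧ b' ≡ a [MOD W])).filter
      (fun b' => d ∣ Nat.dist b b')).card ≤
      ((range (M / q + 1)).filter (fun t => (r + t * q).Prime)).card := by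
  set F := ((Icc 1 M).filter (fun b' => b'.Prime ∧ b' ≡ a [MOD W])).filter
      (fun b' => d ∣ Nat.dist b b') with hF
  have hmem : ∀ x ∈ F, x ≤ M ∧ x.Prime ∧ x ≡ a [MOD W] ∧ x ≡ b [MOD d] := by
    intro x hx
    rw [hF, mem_filter, mem_filter, mem_Icc] at hx
    refine ⟨hx.1.1.2, hx.1.2.1, hx.1.2.2, ?_⟩
    have h := hx.2
    rcases le_total b x with hbx | hbx
    · have e : Nat.dist b x = x - b := by simp only [Nat.dist]; omega
      rw [e] at h
      exact ((Nat.modEq_iff_dvd' hbx).2 h).symm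
    · have e : Nat.dist b x = b - x := by simp only [Nat.dist]; omega
      rw [e] at h
      exact (Nat.modEq_iff_dvd' hbx).2 h
  rcases F.eq_empty_or_nonempty with he | ⟨x₀, hx₀⟩
  · exact ⟨0, by rw [he, card_empty]; exact Nat.zero_le _⟩
  · refine ⟨x₀ % q, ?_⟩
    have hxq : ∀ x ∈ F, x₀ % q + x / q * q = x := by
      intro x hx
      have h1 : x ≡ x₀ [MOD q] := by
        rw [hq]
        exact (Nat.modEq_and_modEq_iff_modEq_mul hcop).1
          ⟨(hmem x hx).2.2.2.trans (hmem x₀ hx₀).2.2.2.symm,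
            (hmem x hx).2.2.1.trans (hmem x₀ hx₀).2.2.1.symm⟩
      have h2 : x % q = x₀ % q := h1
      rw [← h2, mul_comm]
      exact Nat.mod_add_div x q
    apply card_le_card_of_injOn (fun x => x / q)
    · intro x hx
      have hx' : x ∈ F := hx
      simp only [coe_filter, mem_range, Set.mem_ofPred_eq]
      refine ⟨Nat.lt_succ_of_le (Nat.div_le_div_right (hmem x hx').1), ?_⟩
      rw [hxq x hx']
      exact (hmem x hx').2.1
    · intro x hx y hy hxy
      simp only at hxy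
      rw [← hxq x hx, ← hxq y hy, hxy]

/-- the Euler product -/
lemma euler (J w L : ℕ) (hw : 4 * J ≤ w) (hw1 : 1 ≤ w) :
    ∏ p ∈ pT w L, (1 + ((1 - 1 / (p : ℝ))⁻¹ ^ J - 1) / (p - 1)) ≤ Real.exp 1 := by
  have hw0 : (0 : ℝ) < w := by exact_mod_cast hw1
  have hwJ : 4 * (J : ℝ) ≤ w := by exact_mod_cast hw
  have h3 : ∀ p ∈ pT w L, 1 + ((1 - 1 / (p : ℝ))⁻¹ ^ J - 1) / (p - 1) ≤
      Real.exp (4 * J * (1 / ((p : ℝ) * (p - 1)))) := by
    intro p hp
    have hp' := mem_pT.1 hp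
    have hp2 : (2 : ℝ) ≤ p := by exact_mod_cast hp'.2.2.two_le
    have hpy : (w : ℝ) + 1 ≤ p := by exact_mod_cast hp'.1
    have hp1 : (0 : ℝ) < p - 1 := by linarith
    have e3 : (1 - 1 / (p : ℝ))⁻¹ ^ J ≤ Real.exp (J / (p - 1)) := by
      calc (1 - 1 / (p : ℝ))⁻¹ ^ J ≤ Real.exp (1 / (p - 1)) ^ J :=
            pow_le_pow_left₀ (inv_nonneg.2 (fac_pos hp'.2.2).le) (fac_inv_le_exp hp'.2.2) J
        _ = _ := by
            rw [← Real.exp_nat_mul]
            congr 1
            ring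
    have hJ0 : (0 : ℝ) ≤ J := Nat.cast_nonneg J
    have e4 : (J : ℝ) / (p - 1) ≤ 1 := by
      rw [div_le_one hp1]
      linarith
    have e5 := exp_le_lin ((J : ℝ) / (p - 1)) (by positivity) e4
    have e7 : ((1 - 1 / (p : ℝ))⁻¹ ^ J - 1) / (p - 1) ≤ (2 * (J / (p - 1))) / (p - 1) := by
      apply div_le_div_of_nonneg_right _ hp1.le
      linarith
    have e8 : (2 * ((J : ℝ) / (p - 1))) / (p - 1) ≤ 4 * J * (1 / ((p : ℝ) * (p - 1))) := by
      have e9 : 4 * (J : ℝ) * (1 / ((p : ℝ) * (p - 1))) = (4 * J / p) / (p - 1) := by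
        field_simp
      rw [e9]
      apply div_le_div_of_nonneg_right _ hp1.le
      rw [← mul_div_assoc, div_le_div_iff₀ hp1 (by linarith)]
      nlinarith
    calc 1 + ((1 - 1 / (p : ℝ))⁻¹ ^ J - 1) / (p - 1) ≤
          4 * J * (1 / ((p : ℝ) * (p - 1))) + 1 := by linarith
      _ ≤ _ := Real.add_one_le_exp _
  calc ∏ p ∈ pT w L, (1 + ((1 - 1 / (p : ℝ))⁻¹ ^ J - 1) / (p - 1))
      ≤ ∏ p ∈ pT w L, Real.exp (4 * J * (1 / ((p : ℝ) * (p - 1)))) := by
        apply prod_le_prod _ h3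
        intro p hp
        have hp' := mem_pT.1 hp
        have hp2 : (2 : ℝ) ≤ p := by exact_mod_cast hp'.2.2.two_le
        have h4 := one_le_pow₀ (n := J) (one_le_fac_inv hp'.2.2)
        have h5 : 0 ≤ ((1 - 1 / (p : ℝ))⁻¹ ^ J - 1) / (p - 1) :=
          div_nonneg (by linarith) (by linarith)
        linarith
    _ = Real.exp (∑ p ∈ pT w L, 4 * J * (1 / ((p : ℝ) * (p - 1)))) := by rw [Real.exp_sum]
    _ ≤ Real.exp 1 := by
        apply Real.exp_le_exp.2
        rw [← mul_sum]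
        calc 4 * (J : ℝ) * ∑ p ∈ pT w L, 1 / ((p : ℝ) * (p - 1)) ≤ 4 * J * (1 / w) :=
              mul_le_mul_of_nonneg_left (sum_telescope w L hw1) (by positivity)
          _ ≤ 1 := by
            rw [mul_one_div, div_le_one hw0]
            exact hwJ

lemma prod_le_four_pow (w L : ℕ) (S : Finset ℕ) (hS : S ⊆ pT w L) : ∏ p ∈ S, p ≤ 4 ^ L := by
  refine le_trans ?_ (primorial_le_four_pow L)
  unfold primorial
  apply prod_le_prod_of_subset_of_one_le'
  · intro p hp
    have := mem_pT.1 (hS hp)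
    rw [mem_filter, mem_range]
    exact ⟨by omega, this.2.2⟩
  · intro p hp _
    rw [mem_filter] at hp
    exact hp.2.one_le

lemma totient_prod_primes (S : Finset ℕ) (hS : ∀ p ∈ S, p.Prime) :
    Nat.totient (∏ p ∈ S, p) = ∏ p ∈ S, (p - 1) := by
  induction S using Finset.induction_on with
  | empty => simp
  | insert p S hp ih =>
    rw [prod_insert hp, prod_insert hp, Nat.totient_mul, ih fun q hq => hS q (mem_insert_of_mem hq),
      Nat.totient_prime (hS p (mem_insert_self p S))]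
    apply Nat.Coprime.prod_right
    intro q hq
    rw [Nat.coprime_primes (hS p (mem_insert_self p S)) (hS q (mem_insert_of_mem hq))]
    rintro rfl
    exact hp hq

lemma coprime_W (w L : ℕ) (S : Finset ℕ) (hS : S ⊆ pT w L) : Nat.Coprime (∏ p ∈ S, p) (Wp w) := by
  apply Nat.Coprime.prod_left
  intro p hp
  have h := mem_pT.1 (hS hp)
  rw [h.2.2.coprime_iff_not_dvd, prime_dvd_Wp h.2.2]
  omega

/-- the number of primes of a class -/
lemma count_bound (N₀ : ℕ) (hbt : ∀ a q N : ℕ, 1 ≤ q → N₀ ≤ N →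
      (((range N).filter (fun t => (a + t * q).Prime)).card : ℝ) ≤
      3 * ((q : ℝ) / Nat.totient q) * N / Real.log N) (q M r : ℕ) (hq : 1 ≤ q) (hM : 1 < M)
    (h1 : (N₀ : ℝ) ≤ (M : ℝ) / q) (h2 : 3 / 5 * Real.log M ≤ Real.log ((M : ℝ) / q))
    (h3 : q ≤ M) :
    (((range (M / q + 1)).filter (fun t => (r + t * q).Prime)).card : ℝ) ≤
      10 * (M / (Nat.totient q * Real.log M)) := by
  have hq0 : (0 : ℝ) < q := by exact_mod_cast hq
  have hM0 : (1 : ℝ) < M := by exact_mod_cast hM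
  have hlog : 0 < Real.log M := Real.log_pos hM0
  have hφ : (0 : ℝ) < Nat.totient q := by exact_mod_cast Nat.totient_pos.2 hq
  have h4 : (M : ℝ) / q ≤ ((M / q + 1 : ℕ) : ℝ) := by
    rw [div_le_iff₀ hq0]
    have := (Nat.lt_div_mul_add (a := M) hq).le
    have h5 : M ≤ (M / q + 1) * q := by
      calc M ≤ M / q * q + q := this
        _ = _ := by ring
    exact_mod_cast h5
  have h5 : ((M / q + 1 : ℕ) : ℝ) ≤ 2 * (M / q) := by
    push_cast
    have h6 : ((M / q : ℕ) : ℝ) ≤ (M : ℝ) / q := Nat.cast_div_le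
    have h7 : 1 ≤ (M : ℝ) / q := by
      rw [le_div_iff₀ hq0, one_mul]
      exact_mod_cast h3
    linarith
  have h6 : N₀ ≤ M / q + 1 := by exact_mod_cast h1.trans h4
  have h7 : 3 / 5 * Real.log M ≤ Real.log ((M / q + 1 : ℕ) : ℝ) :=
    h2.trans (Real.log_le_log (by positivity) h4)
  refine (hbt r q (M / q + 1) hq h6).trans ?_
  calc 3 * ((q : ℝ) / Nat.totient q) * ((M / q + 1 : ℕ) : ℝ) / Real.log ((M / q + 1 : ℕ) : ℝ)
      ≤ 3 * ((q : ℝ) / Nat.totient q) * (2 * (M / q)) / (3 / 5 * Real.log M) := by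
        apply div_le_div₀ (by positivity) _ (by positivity) h7
        exact mul_le_mul_of_nonneg_left h5 (by positivity)
    _ = _ := by
        field_simp
        ring

/-- **Moments of the local factors over the primes of a class.** -/
theorem prime_moment (J E : ℕ) : ∃ w0 : ℕ, ∀ w : ℕ, w0 ≤ w → ∃ N0 : ℕ, ∀ N : ℕ, N0 ≤ N →
    ∀ z : ℕ, (z : ℝ) ≤ Real.log N ^ E → ∀ M : ℕ, M ≤ N → √(N : ℝ) ≤ M →
    ∀ a b : ℕ, b ≤ M → b.Prime → z < b →
    ∑ b' ∈ (Icc 1 M).filter (fun b' => b'.Prime ∧ z < b' ∧ b' ≡ a [MOD Wp w] ∧ b' ≠ b),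
      gw w z (Nat.dist b b') ^ J ≤ 100 * ((M : ℝ) / (Nat.totient (Wp w) * Real.log M)) := by
  obtain ⟨N₀, hN₀3, hbt'⟩ := Pool.Agent.H617R3.BT.bt2 1 one_pos
  have hbt : ∀ a q N : ℕ, 1 ≤ q → N₀ ≤ N →
      (((range N).filter (fun t => (a + t * q).Prime)).card : ℝ) ≤
      3 * ((q : ℝ) / Nat.totient q) * N / Real.log N := by
    intro a q N h1 h2
    have := hbt' a q N h1 h2
    norm_num at this ⊢
    exact this
  refine ⟨4 * J + 1, fun w hw => ?_⟩
  set W := Wp w with hWdef
  have hW : 0 < W := Wp_pos w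
  have hWr : (0 : ℝ) < W := by exact_mod_cast hW
  have hW1 : (1 : ℝ) ≤ W := by exact_mod_cast hW
  have hlW : 0 ≤ Real.log W := Real.log_nonneg hW1
  have hN₀r : (3 : ℝ) ≤ N₀ := by exact_mod_cast hN₀3
  have hlN₀ : 0 < Real.log N₀ := Real.log_pos (by linarith)
  refine ⟨⌈Real.exp (32 * Real.exp (32 * (J + 1)) + 64 + 14 * Real.log W +
    4 * Real.log N₀)⌉₊, ?_⟩
  intro N hN z _ M hMN hM a b hbM hb hzb
  have hN' := Nat.ceil_le.1 hN
  have hN0 : (0 : ℝ) < N := lt_of_lt_of_le (Real.exp_pos _) hN'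
  have hJ0 : (0 : ℝ) ≤ J := Nat.cast_nonneg J
  obtain ⟨x, hx⟩ : ∃ x : ℝ, x = Real.log N := ⟨_, rfl⟩
  have hxA : 32 * Real.exp (32 * (J + 1)) + 64 + 14 * Real.log W + 4 * Real.log N₀ ≤ x := by
    rw [hx, Real.le_log_iff_exp_le hN0]
    exact hN'
  have hexp0 := Real.exp_pos (32 * ((J : ℝ) + 1))
  have hx64 : 64 ≤ x := by linarith
  have hM0 : (0 : ℝ) < M := lt_of_lt_of_le (Real.sqrt_pos.2 hN0) hM
  obtain ⟨y, hy⟩ : ∃ y : ℝ, y = Real.log M := ⟨_, rfl⟩
  have hxy : x / 2 ≤ y := by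
    have h1 : Real.log (√(N : ℝ)) ≤ Real.log M := Real.log_le_log (Real.sqrt_pos.2 hN0) hM
    rw [Real.log_sqrt hN0.le, ← hx, ← hy] at h1
    exact h1
  have hM1 : 1 < M := by
    have h1 : (1 : ℝ) < M := by
      by_contra hcon
      have := Real.log_nonpos hM0.le (not_lt.1 hcon)
      linarith
    exact_mod_cast h1
  -- the level
  obtain ⟨L, hL⟩ : ∃ L : ℕ, L = ⌊x / 16⌋₊ := ⟨_, rfl⟩
  have hL2 : (L : ℝ) ≤ x / 16 := by
    rw [hL]
    exact Nat.floor_le (by linarith)
  have hL1 : x / 32 ≤ L := by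
    have := Nat.lt_floor_add_one (x / 16)
    rw [← hL] at this
    linarith
  have hL0 : (0 : ℝ) < L := by linarith
  have hLlog : 32 * ((J : ℝ) + 1) ≤ Real.log L := by
    rw [Real.le_log_iff_exp_le hL0]
    linarith
  have hLlog0 : 0 < Real.log L := by linarith
  have hL22 : 2 ≤ L := by
    have : (2 : ℝ) ≤ L := by linarith
    exact_mod_cast this
  -- the tail
  have htail : ∀ h : ℕ, 0 < h → h ≤ N → gw L z h ^ J ≤ Real.exp 1 := by
    intro h h0 hhN
    have h1 := gw_tail L z h N hL22 h0 hhN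
    calc gw L z h ^ J ≤ Real.exp (Real.log N / Real.log L / L) ^ J :=
          pow_le_pow_left₀ (zero_le_one.trans (one_le_gw L z h)) h1 J
      _ = Real.exp (J * (Real.log N / Real.log L / L)) := by rw [← Real.exp_nat_mul]
      _ ≤ Real.exp 1 := by
        apply Real.exp_le_exp.2
        rw [← hx, div_div, ← mul_div_assoc, div_le_one (by positivity)]
        calc (J : ℝ) * x ≤ (32 * (J + 1)) * (x / 32) := by nlinarith
          _ ≤ Real.log L * L := mul_le_mul hLlog hL1 (by linarith) hLlog0.le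
  -- the classes
  set F0 := (Icc 1 M).filter (fun b' => b'.Prime ∧ b' ≡ a [MOD W]) with hF0
  have hφW : (0 : ℝ) < Nat.totient W := by exact_mod_cast Nat.totient_pos.2 hW
  have hy0 : 0 < y := by linarith
  have hcount : ∀ S ∈ (pT w L).powerset,
      ((F0.filter (fun b' => (∏ p ∈ S, p) ∣ Nat.dist b b')).card : ℝ) ≤
      10 * (M / (Nat.totient W * Real.log M)) * ∏ p ∈ S, (1 / ((p : ℝ) - 1)) := by
    intro S hS
    rw [mem_powerset] at hS
    have hSp : ∀ p ∈ S, p.Prime := fun p hp => (mem_pT.1 (hS hp)).2.2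
    have hd0 : 0 < ∏ p ∈ S, p := prod_pos fun p hp => (hSp p hp).pos
    have hcop := coprime_W w L S hS
    rw [← hWdef] at hcop
    have hd4 := prod_le_four_pow w L S hS
    have hφd := totient_prod_primes S hSp
    set d := ∏ p ∈ S, p with hd
    have hdr : (0 : ℝ) < d := by exact_mod_cast hd0
    have hq0 : 0 < d * W := Nat.mul_pos hd0 hW
    have hq0r : (0 : ℝ) < ((d * W : ℕ) : ℝ) := by exact_mod_cast hq0
    obtain ⟨r, hr⟩ := count_le W d (d * W) M a b rfl hcop
    have hlogd : Real.log d ≤ y / 4 := by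
      have h1 : Real.log d ≤ Real.log ((4 : ℝ) ^ L) := by
        apply Real.log_le_log hdr
        exact_mod_cast hd4
      rw [Real.log_pow] at h1
      have h2 : Real.log 4 ≤ 2 := by
        have h3 : (4 : ℝ) = 2 ^ 2 := by norm_num
        rw [h3, Real.log_pow]
        have := Real.log_two_lt_d9
        push_cast
        linarith
      have h3 : (L : ℝ) * Real.log 4 ≤ L * 2 := mul_le_mul_of_nonneg_left h2 hL0.le
      linarith
    have hlogW : Real.log W ≤ y * (3 / 20) := by linarith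
    have hlogq : Real.log ((d * W : ℕ) : ℝ) ≤ 2 / 5 * y := by
      push_cast
      rw [Real.log_mul hdr.ne' hWr.ne']
      linarith
    have hlogMq : 3 / 5 * Real.log M ≤ Real.log ((M : ℝ) / ((d * W : ℕ) : ℝ)) := by
      rw [Real.log_div hM0.ne' hq0r.ne', ← hy]
      linarith
    have hN₀M : (N₀ : ℝ) ≤ (M : ℝ) / ((d * W : ℕ) : ℝ) := by
      have h1 : Real.log N₀ ≤ Real.log ((M : ℝ) / ((d * W : ℕ) : ℝ)) := by
        refine le_trans ?_ hlogMq
        rw [← hy]
        linarith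
      exact (Real.log_le_log_iff (by linarith) (by positivity)).1 h1
    have hqM : d * W ≤ M := by
      have h1 : Real.log ((d * W : ℕ) : ℝ) ≤ Real.log M := by
        rw [← hy]
        linarith
      have h2 := (Real.log_le_log_iff hq0r hM0).1 h1
      exact_mod_cast h2
    have h1 := count_bound N₀ hbt (d * W) M r hq0 hM1 hN₀M hlogMq hqM
    have h2 : ((F0.filter (fun b' => d ∣ Nat.dist b b')).card : ℝ) ≤
        (((range (M / (d * W) + 1)).filter (fun t => (r + t * (d * W)).Prime)).card : ℝ) := by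
      exact_mod_cast hr
    refine (h2.trans h1).trans (le_of_eq ?_)
    rw [Nat.totient_mul hcop, hφd]
    have h3 : ∏ p ∈ S, (1 / ((p : ℝ) - 1)) = 1 / ((∏ p ∈ S, (p - 1) : ℕ) : ℝ) := by
      rw [prod_div_distrib, prod_const_one]
      congr 1
      push_cast
      apply prod_congr rfl
      intro p hp
      rw [Nat.cast_sub (hSp p hp).one_le, Nat.cast_one]
    rw [h3]
    push_cast
    have h4 : (0 : ℝ) < ∏ p ∈ S, ((p - 1 : ℕ) : ℝ) := prod_pos fun p hp => by
      have := (hSp p hp).two_le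
      exact_mod_cast (by omega : 0 < p - 1)
    rw [← hy]
    field_simp
  -- the sum over the classes
  obtain ⟨c, hc⟩ : ∃ c : ℕ → ℝ, c = fun p : ℕ => (1 - 1 / (p : ℝ))⁻¹ ^ J - 1 := ⟨_, rfl⟩
  have hc0 : ∀ p ∈ pT w L, 0 ≤ c p := by
    intro p hp
    have := one_le_pow₀ (n := J) (one_le_fac_inv (mem_pT.1 hp).2.2)
    rw [hc]
    simp only
    linarith
  have hgwJ : ∀ h, gw w L h ^ J = ∏ p ∈ (pT w L).filter (fun p => p ∣ h), (1 + c p) := by
    intro h
    unfold gw
    rw [← prod_pow]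
    apply prod_congr rfl
    intro p _
    rw [hc]
    ring
  have hmain : ∑ b' ∈ F0, gw w L (Nat.dist b b') ^ J ≤
      10 * (M / (Nat.totient W * Real.log M)) * Real.exp 1 := by
    have hK : 0 ≤ 10 * ((M : ℝ) / (Nat.totient W * Real.log M)) := by
      rw [← hy]
      positivity
    calc ∑ b' ∈ F0, gw w L (Nat.dist b b') ^ J
        = ∑ b' ∈ F0, ∑ S ∈ (pT w L).powerset,
          if (∏ p ∈ S, p) ∣ Nat.dist b b' then ∏ p ∈ S, c p else 0 :=
          sum_congr rfl fun b' _ => by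
            rw [hgwJ, expand _ (fun p hp => (mem_pT.1 hp).2.2)]
      _ = ∑ S ∈ (pT w L).powerset, ∑ b' ∈ F0,
          if (∏ p ∈ S, p) ∣ Nat.dist b b' then ∏ p ∈ S, c p else 0 := sum_comm
      _ = ∑ S ∈ (pT w L).powerset, (∏ p ∈ S, c p) *
          ((F0.filter (fun b' => (∏ p ∈ S, p) ∣ Nat.dist b b')).card : ℝ) := by
          apply sum_congr rfl
          intro S _
          rw [← sum_filter, sum_const, nsmul_eq_mul, mul_comm]
      _ ≤ ∑ S ∈ (pT w L).powerset, (∏ p ∈ S, c p) *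
          (10 * (M / (Nat.totient W * Real.log M)) * ∏ p ∈ S, (1 / ((p : ℝ) - 1))) := by
          apply sum_le_sum
          intro S hS
          apply mul_le_mul_of_nonneg_left (hcount S hS)
          exact prod_nonneg fun p hp => hc0 p (mem_powerset.1 hS hp)
      _ = 10 * (M / (Nat.totient W * Real.log M)) *
          ∑ S ∈ (pT w L).powerset, ∏ p ∈ S, (c p / ((p : ℝ) - 1)) := by
          rw [mul_sum]
          apply sum_congr rfl
          intro S _
          have : ∏ p ∈ S, (c p / ((p : ℝ) - 1)) = (∏ p ∈ S, c p) * ∏ p ∈ S, (1 / ((p : ℝ) - 1)) := by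
            rw [← prod_mul_distrib]
            apply prod_congr rfl
            intro p _
            ring
          rw [this]
          ring
      _ = 10 * (M / (Nat.totient W * Real.log M)) *
          ∏ p ∈ pT w L, (1 + c p / ((p : ℝ) - 1)) := by rw [prod_one_add]
      _ ≤ _ := by
          apply mul_le_mul_of_nonneg_left _ hK
          rw [hc]
          exact euler J w L (by omega) (by omega)
  -- conclusion
  calc ∑ b' ∈ (Icc 1 M).filter (fun b' => b'.Prime ∧ z < b' ∧ b' ≡ a [MOD W] ∧ b' ≠ b),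
        gw w z (Nat.dist b b') ^ J
      ≤ ∑ b' ∈ (Icc 1 M).filter (fun b' => b'.Prime ∧ z < b' ∧ b' ≡ a [MOD W] ∧ b' ≠ b),
        gw w L (Nat.dist b b') ^ J * Real.exp 1 := by
        apply sum_le_sum
        intro b' hb'
        rw [mem_filter, mem_Icc] at hb'
        have hne := hb'.2.2.2.2
        have h0 : 0 < Nat.dist b b' := by
          simp only [Nat.dist]
          omega
        have hle : Nat.dist b b' ≤ N := by
          simp only [Nat.dist]
          omega
        calc gw w z (Nat.dist b b') ^ J ≤ (gw w L (Nat.dist b b') * gw L z (Nat.dist b b')) ^ J :=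
              pow_le_pow_left₀ (zero_le_one.trans (one_le_gw _ _ _)) (gw_le_mul _ _ _ _) J
          _ = gw w L (Nat.dist b b') ^ J * gw L z (Nat.dist b b') ^ J := mul_pow _ _ _
          _ ≤ _ := mul_le_mul_of_nonneg_left (htail _ h0 hle)
              (pow_nonneg (zero_le_one.trans (one_le_gw _ _ _)) J)
    _ ≤ ∑ b' ∈ F0, gw w L (Nat.dist b b') ^ J * Real.exp 1 := by
        apply sum_le_sum_of_subset_of_nonneg
        · intro b' hb'
          rw [mem_filter] at hb' ⊢
          exact ⟨hb'.1, hb'.2.1, hb'.2.2.2.1⟩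
        · intro b' _ _
          exact mul_nonneg (pow_nonneg (zero_le_one.trans (one_le_gw _ _ _)) J)
            (Real.exp_pos 1).le
    _ = (∑ b' ∈ F0, gw w L (Nat.dist b b') ^ J) * Real.exp 1 := by rw [sum_mul]
    _ ≤ (10 * (M / (Nat.totient W * Real.log M)) * Real.exp 1) * Real.exp 1 :=
        mul_le_mul_of_nonneg_right hmain (Real.exp_pos 1).le
    _ = (10 * (Real.exp 1 * Real.exp 1)) * (M / (Nat.totient W * Real.log M)) := by ring
    _ ≤ 100 * (M / (Nat.totient W * Real.log M)) := by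
        apply mul_le_mul_of_nonneg_right _ (by rw [← hy]; positivity)
        have h1 := Real.exp_one_lt_d9
        have h2 := Real.exp_pos 1
        nlinarith

end Pool.Agent.TH159.J1235
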