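import Mathlib
import Pool.Agent.TH881.RQ.Defs2

/-! Job 2919 (RQ-A1): an abstract moment inequality on product spaces
(generalises `Pool/Agent/TH703/J1232.lean`, by helper703). -/

set_option autoImplicit false

namespace Pool.Agent.TH159.J2919

open Finset

section loc

variable {X Y : Type} [Fintype X] [Fintype Y] [Nonempty Y] (bad : X → Y → Prop)

/-- `r` has the same nonempty bad set as `x` -/
def SN (x r : X) : Prop := (∃ y, bad r y) ∧ ∀ y, bad r y ↔ bad x y

open Classical in
/-- the local count -/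
noncomputable def Nl {K : ℕ} (τ : Fin K → X) : ℕ :=
  (univ.filter fun y : Y => ∀ j, ¬ bad (τ j) y).card

open Classical in
/-- the local correction -/
noncomputable def Gl (b : ℝ) : ∀ {K : ℕ}, (Fin K → X) → ℝ
  | 0, _ => 1
  | _ + 1, τ =>
    (if ∃ l, SN bad (τ (Fin.succ l)) (τ 0) then b else 1) * Gl b (fun l => τ (Fin.succ l))

omit [Fintype X] [Fintype Y] [Nonempty Y] in
lemma Gl_ge {b : ℝ} (hb : 1 ≤ b) : ∀ {K : ℕ} (τ : Fin K → X), 1 ≤ Gl bad b τ
  | 0, _ => le_rfl
  | K + 1, τ => by
    unfold Gl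
    have h1 := Gl_ge hb (fun l => τ (Fin.succ l))
    split_ifs
    · nlinarith
    · linarith

omit [Fintype X] [Nonempty Y] in
lemma Nl_le {K : ℕ} (τ : Fin K → X) : (Nl bad τ : ℝ) ≤ (Fintype.card Y : ℝ) := by
  unfold Nl
  exact_mod_cast card_le_univ _

lemma cardY_pos (Y : Type) [Fintype Y] [Nonempty Y] : (0 : ℝ) < (Fintype.card Y : ℝ) := by
  exact_mod_cast Fintype.card_pos

open Classical in
omit [Fintype X] in
lemma s_nonneg (s : X → ℝ)
    (hs : ∀ x, s x = 1 - ((univ.filter (fun y => bad x y)).card : ℝ) / Fintype.card Y) (x : X) :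
    0 ≤ s x := by
  have hY := cardY_pos Y
  rw [hs, sub_nonneg, div_le_one hY]
  exact_mod_cast card_le_univ _

open Classical in
omit [Fintype X] in
lemma s_le (s : X → ℝ)
    (hs : ∀ x, s x = 1 - ((univ.filter (fun y => bad x y)).card : ℝ) / Fintype.card Y) (x : X) :
    s x ≤ 1 := by
  have hY := cardY_pos Y
  rw [hs, sub_le_self_iff]
  positivity

open Classical in
omit [Fintype X] in
lemma local_bound
    (hbad : ∀ x x' : X, (∀ y, bad x y ↔ bad x' y) ∨ (∀ y, ¬ (bad x y ∧ bad x' y)))
    (s : X → ℝ)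
    (hs : ∀ x, s x = 1 - ((univ.filter (fun y => bad x y)).card : ℝ) / Fintype.card Y)
    {b : ℝ} (hb : 1 ≤ b) (hsb : ∀ x, s x = 0 ∨ 1 ≤ b * s x) :
    ∀ {K : ℕ} (τ : Fin K → X),
    (Nl bad τ : ℝ) / (Fintype.card Y : ℝ) ≤ (∏ j, s (τ j)) * Gl bad b τ
  | 0, τ => by
    have h1 := Nl_le bad τ
    have hY := cardY_pos Y
    simp only [univ_eq_empty, prod_empty, Gl, mul_one]
    rw [div_le_one hY]
    exact h1
  | K + 1, τ => by
    have ih := local_bound hbad s hs hb hsb (fun l => τ (Fin.succ l))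
    set τ' : Fin K → X := fun l => τ (Fin.succ l) with hτ'
    have hY := cardY_pos Y
    have hN := Nl_le bad τ'
    have hG := Gl_ge bad hb τ'
    have hprod : (∏ j, s (τ j)) = s (τ 0) * ∏ j, s (τ' j) := by
      rw [Fin.prod_univ_succ]
    have hP0 : 0 ≤ ∏ j, s (τ' j) := prod_nonneg fun j _ => s_nonneg bad s hs _
    have hB0 : 0 ≤ (∏ j, s (τ' j)) * Gl bad b τ' := mul_nonneg hP0 (by linarith)
    have hs0 := s_nonneg bad s hs (τ 0)
    have hmono : Nl bad τ ≤ Nl bad τ' := by
      unfold Nl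
      apply card_le_card
      intro a ha
      rw [mem_filter] at ha ⊢
      exact ⟨mem_univ _, fun j => ha.2 _⟩
    have hmono' : (Nl bad τ : ℝ) / (Fintype.card Y : ℝ) ≤ (Nl bad τ' : ℝ) / (Fintype.card Y : ℝ) := by
      apply div_le_div_of_nonneg_right _ hY.le
      exact_mod_cast hmono
    rw [hprod]
    by_cases h0 : ∃ y, bad (τ 0) y
    · by_cases hr : ∃ l, SN bad (τ (Fin.succ l)) (τ 0)
      · have hg : Gl bad b τ = b * Gl bad b τ' := by
          conv_lhs => unfold Gl
          rw [if_pos hr]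
        rw [hg]
        rcases hsb (τ 0) with hz | h1
        · -- the count is zero
          have hfull : (univ.filter (fun y => bad (τ 0) y)).card = Fintype.card Y := by
            have h2 := hs (τ 0)
            rw [hz] at h2
            have h3 : ((univ.filter (fun y => bad (τ 0) y)).card : ℝ) / Fintype.card Y = 1 := by
              linarith
            rw [div_eq_one_iff_eq hY.ne'] at h3
            exact_mod_cast h3
          have hall : ∀ y, bad (τ 0) y := by
            intro y
            have h4 := (card_eq_iff_eq_univ _).1 hfull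
            have h5 : y ∈ univ.filter (fun y => bad (τ 0) y) := by
              rw [h4]
              exact mem_univ _
            exact (mem_filter.1 h5).2
          have hN0 : Nl bad τ = 0 := by
            unfold Nl
            rw [card_eq_zero, filter_eq_empty_iff]
            intro y _ hy
            exact hy 0 (hall y)
          rw [hN0, Nat.cast_zero, zero_div]
          apply mul_nonneg
          · exact mul_nonneg hs0 hP0
          · exact mul_nonneg (by linarith) (by linarith)
        · calc (Nl bad τ : ℝ) / (Fintype.card Y : ℝ)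
              ≤ (Nl bad τ' : ℝ) / (Fintype.card Y : ℝ) := hmono'
            _ ≤ (∏ j, s (τ' j)) * Gl bad b τ' := ih
            _ ≤ (b * s (τ 0)) * ((∏ j, s (τ' j)) * Gl bad b τ') := by nlinarith
            _ = _ := by ring
      · have hg : Gl bad b τ = Gl bad b τ' := by
          conv_lhs => unfold Gl
          rw [if_neg hr, one_mul]
        rw [hg]
        have hdis : ∀ l y, ¬ (bad (τ 0) y ∧ bad (τ' l) y) := by
          intro l
          rcases hbad (τ 0) (τ' l) with h | h
          · exact absurd ⟨l, h0, h⟩ hr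
          · exact h
        have hcount : Nl bad τ + (univ.filter (fun y => bad (τ 0) y)).card ≤ Nl bad τ' := by
          unfold Nl
          rw [← card_union_of_disjoint]
          · apply card_le_card
            intro y hy
            rw [mem_union] at hy
            rcases hy with hy | hy
            · rw [mem_filter] at hy ⊢
              exact ⟨mem_univ _, fun j => hy.2 _⟩
            · rw [mem_filter] at hy ⊢
              exact ⟨mem_univ _, fun j hj => hdis j y ⟨hy.2, hj⟩⟩
          · rw [disjoint_left]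
            intro y hy hy'
            rw [mem_filter] at hy hy'
            exact hy.2 0 hy'.2
        have hcount' : (Nl bad τ : ℝ) + ((univ.filter (fun y => bad (τ 0) y)).card : ℝ)
            ≤ Nl bad τ' := by exact_mod_cast hcount
        have key : (Nl bad τ : ℝ) ≤ s (τ 0) * Nl bad τ' := by
          rw [hs (τ 0)]
          have hc0 : (0 : ℝ) ≤ ((univ.filter (fun y => bad (τ 0) y)).card : ℝ) / Fintype.card Y := by
            positivity
          have e1 : ((univ.filter (fun y => bad (τ 0) y)).card : ℝ) / Fintype.card Y * Nl bad τ'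
              ≤ (univ.filter (fun y => bad (τ 0) y)).card := by
            calc ((univ.filter (fun y => bad (τ 0) y)).card : ℝ) / Fintype.card Y * Nl bad τ'
                ≤ ((univ.filter (fun y => bad (τ 0) y)).card : ℝ) / Fintype.card Y *
                    Fintype.card Y := mul_le_mul_of_nonneg_left hN hc0
              _ = _ := div_mul_cancel₀ _ hY.ne'
          nlinarith
        calc (Nl bad τ : ℝ) / (Fintype.card Y : ℝ)
            ≤ (s (τ 0) * Nl bad τ') / (Fintype.card Y : ℝ) :=
              div_le_div_of_nonneg_right key hY.le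
          _ = s (τ 0) * ((Nl bad τ' : ℝ) / (Fintype.card Y : ℝ)) := by ring
          _ ≤ s (τ 0) * ((∏ j, s (τ' j)) * Gl bad b τ') := mul_le_mul_of_nonneg_left ih hs0
          _ = _ := by ring
    · have hw : s (τ 0) = 1 := by
        rw [hs]
        have : (univ.filter (fun y => bad (τ 0) y)) = ∅ := by
          rw [filter_eq_empty_iff]
          intro y _ hy
          exact h0 ⟨y, hy⟩
        rw [this]
        simp
      rw [hw, one_mul]
      have hg : Gl bad b τ' ≤ Gl bad b τ := by
        conv_rhs => unfold Gl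
        rw [← hτ']
        split_ifs
        · nlinarith
        · linarith
      calc (Nl bad τ : ℝ) / (Fintype.card Y : ℝ) ≤ (Nl bad τ' : ℝ) / (Fintype.card Y : ℝ) := hmono'
        _ ≤ (∏ j, s (τ' j)) * Gl bad b τ' := ih
        _ ≤ _ := mul_le_mul_of_nonneg_left hg hP0

open Classical in
omit [Nonempty Y] in
lemma local_sum (s : X → ℝ) (hs0 : ∀ x, 0 ≤ s x) (T : ℝ) (hT : T = ∑ x, s x) (hT0 : 0 < T)
    {b : ℝ} (hb : 1 ≤ b) {c : ℝ} (hc : 0 ≤ c)
    (hcol : ∀ x : X, (∃ y, bad x y) →
      ∑ x' ∈ univ.filter (fun x' => ∀ y, bad x' y ↔ bad x y), s x' ≤ c * T)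
    (K0 k : ℕ) : ∀ K : ℕ, K ≤ K0 →
    ∑ τ : Fin K → X, (∏ j, s (τ j)) * Gl bad b τ ^ k ≤
      T ^ K * (1 + (K0 : ℝ) * c * (b ^ k - 1)) ^ (K - 1) := by
  have hxk : 0 ≤ b ^ k - 1 := by
    have := one_le_pow₀ hb (n := k)
    linarith
  have hF1 : 1 ≤ 1 + (K0 : ℝ) * c * (b ^ k - 1) := by
    have : 0 ≤ (K0 : ℝ) * c * (b ^ k - 1) := by positivity
    linarith
  intro K
  induction K with
  | zero =>
    intro _
    simp [Gl]
  | succ K ih =>
    intro hK
    have ih' := ih (by omega)
    have hsplit : ∑ τ : Fin (K + 1) → X, (∏ j, s (τ j)) * Gl bad b τ ^ k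
        = ∑ τ' : Fin K → X, (∏ j, s (τ' j)) * Gl bad b τ' ^ k *
            ∑ r : X, s r * (if ∃ l, SN bad (τ' l) r then b else 1) ^ k := by
      rw [← (Fin.consEquiv (fun _ => X)).sum_comp, Fintype.sum_prod_type, sum_comm]
      apply sum_congr rfl
      intro τ' _
      rw [mul_sum]
      apply sum_congr rfl
      intro r _
      have e1 : (∏ j, s ((Fin.consEquiv fun _ => X) (r, τ') j))
          = s r * ∏ j, s (τ' j) := by
        rw [Fin.prod_univ_succ]
        simp [Fin.consEquiv]
      have e2 : Gl bad b ((Fin.consEquiv fun _ => X) (r, τ'))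
          = (if ∃ l, SN bad (τ' l) r then b else 1) * Gl bad b τ' := by
        conv_lhs => unfold Gl
        simp [Fin.consEquiv]
      rw [e1, e2, mul_pow]
      ring
    have hinner : ∀ τ' : Fin K → X,
        ∑ r : X, s r * (if ∃ l, SN bad (τ' l) r then b else 1) ^ k
          ≤ T + K * (c * T) * (b ^ k - 1) := by
      intro τ'
      have e1 : ∀ r : X, s r * (if ∃ l, SN bad (τ' l) r then b else 1) ^ k
          ≤ s r + ∑ l, (if SN bad (τ' l) r then s r * (b ^ k - 1) else 0) := by
        intro r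
        have hterm : ∀ l, 0 ≤ (if SN bad (τ' l) r then s r * (b ^ k - 1) else 0) := by
          intro l
          split_ifs
          · exact mul_nonneg (hs0 r) hxk
          · exact le_rfl
        by_cases h : ∃ l, SN bad (τ' l) r
        · rw [if_pos h]
          obtain ⟨l, hl⟩ := h
          have h1 := single_le_sum (s := univ)
            (f := fun l => (if SN bad (τ' l) r then s r * (b ^ k - 1) else 0))
            (fun l _ => hterm l) (mem_univ l)
          simp only [if_pos hl] at h1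
          linarith
        · rw [if_neg h]
          have h1 : 0 ≤ ∑ l, (if SN bad (τ' l) r then s r * (b ^ k - 1) else 0) :=
            sum_nonneg fun l _ => hterm l
          simp only [one_pow, mul_one]
          linarith
      have e2 : ∀ l, ∑ r : X, (if SN bad (τ' l) r then s r * (b ^ k - 1) else 0)
          ≤ c * T * (b ^ k - 1) := by
        intro l
        rw [← sum_filter, ← sum_mul]
        apply mul_le_mul_of_nonneg_right _ hxk
        by_cases h : ∃ y, bad (τ' l) y
        · refine le_trans ?_ (hcol (τ' l) h)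
          apply sum_le_sum_of_subset_of_nonneg
          · intro r hr
            rw [mem_filter] at hr ⊢
            exact ⟨mem_univ _, hr.2.2⟩
          · intro r _ _
            exact hs0 r
        · have hempty : (univ.filter fun r => SN bad (τ' l) r) = ∅ := by
            rw [filter_eq_empty_iff]
            rintro r - ⟨⟨y, hy⟩, h2⟩
            exact h ⟨y, (h2 y).1 hy⟩
          rw [hempty, sum_empty]
          positivity
      calc ∑ r : X, s r * (if ∃ l, SN bad (τ' l) r then b else 1) ^ k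
          ≤ ∑ r : X, (s r + ∑ l, (if SN bad (τ' l) r then s r * (b ^ k - 1) else 0)) :=
            sum_le_sum fun r _ => e1 r
        _ = T + ∑ l, ∑ r : X, (if SN bad (τ' l) r then s r * (b ^ k - 1) else 0) := by
            rw [sum_add_distrib, hT, sum_comm]
        _ ≤ T + ∑ _l : Fin K, c * T * (b ^ k - 1) := by
            have := sum_le_sum (s := univ) fun (l : Fin K) _ => e2 l
            linarith
        _ = _ := by
            rw [sum_const, card_univ, Fintype.card_fin, nsmul_eq_mul]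
            ring
    rw [hsplit]
    have hnn : ∀ τ' : Fin K → X, 0 ≤ (∏ j, s (τ' j)) * Gl bad b τ' ^ k := by
      intro τ'
      apply mul_nonneg (prod_nonneg fun j _ => hs0 _)
      have := Gl_ge bad hb τ'
      positivity
    have hstep : ∑ τ' : Fin K → X, (∏ j, s (τ' j)) * Gl bad b τ' ^ k *
            ∑ r : X, s r * (if ∃ l, SN bad (τ' l) r then b else 1) ^ k
        ≤ (∑ τ' : Fin K → X, (∏ j, s (τ' j)) * Gl bad b τ' ^ k) *
          (T + K * (c * T) * (b ^ k - 1)) := by
      rw [sum_mul]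
      exact sum_le_sum fun τ' _ => mul_le_mul_of_nonneg_left (hinner τ') (hnn τ')
    refine hstep.trans ?_
    rcases Nat.eq_zero_or_pos K with rfl | hKpos
    · simp [Gl]
    · have hlast : T + K * (c * T) * (b ^ k - 1)
          ≤ T * (1 + (K0 : ℝ) * c * (b ^ k - 1)) := by
        have e1 : T * (1 + (K0 : ℝ) * c * (b ^ k - 1))
            = T + K0 * ((c * T) * (b ^ k - 1)) := by
          ring
        rw [e1]
        have h1 : (K : ℝ) ≤ K0 := by exact_mod_cast (by omega : K ≤ K0)
        have h2 : 0 ≤ (c * T) * (b ^ k - 1) := by positivity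
        nlinarith
      have hlast0 : 0 ≤ T + K * (c * T) * (b ^ k - 1) := by positivity
      have hR0 : 0 ≤ T ^ K * (1 + (K0 : ℝ) * c * (b ^ k - 1)) ^ (K - 1) := by
        positivity
      calc (∑ τ' : Fin K → X, (∏ j, s (τ' j)) * Gl bad b τ' ^ k) *
          (T + K * (c * T) * (b ^ k - 1))
          ≤ (T ^ K * (1 + (K0 : ℝ) * c * (b ^ k - 1)) ^ (K - 1)) *
            (T * (1 + (K0 : ℝ) * c * (b ^ k - 1))) :=
            mul_le_mul ih' hlast hlast0 hR0
        _ = T ^ (K + 1) * (1 + (K0 : ℝ) * c * (b ^ k - 1)) ^ (K + 1 - 1) := by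
            have : K + 1 - 1 = (K - 1) + 1 := by omega
            rw [this, pow_succ, pow_succ]
            ring

end loc

section glob

variable {ι : Type} [Fintype ι] (X Y : ι → Type) [∀ i, Fintype (X i)] [∀ i, Fintype (Y i)]
  (bad : ∀ i, X i → Y i → Prop)

open Classical in
omit [∀ i, Fintype (X i)] in
lemma count_prod {K : ℕ} (T : Fin K → ∀ i, X i) :
    (univ.filter fun y : ∀ i, Y i => ∀ j, ∀ i, ¬ bad i (T j i) (y i)).card
      = ∏ i, Nl (bad i) (fun j => T j i) := by
  have h : (univ.filter fun y : ∀ i, Y i => ∀ j, ∀ i, ¬ bad i (T j i) (y i))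
      = Fintype.piFinset (fun i => univ.filter fun a : Y i => ∀ j, ¬ bad i (T j i) a) := by
    ext a
    rw [mem_filter, Fintype.mem_piFinset]
    constructor
    · rintro ⟨-, h2⟩ i
      rw [mem_filter]
      exact ⟨mem_univ _, fun j => h2 j i⟩
    · intro h
      refine ⟨mem_univ _, fun j i => ?_⟩
      exact (mem_filter.1 (h i)).2 j
  rw [h, Fintype.card_piFinset]
  rfl

end glob

open Classical in
theorem moment_abs {ι : Type} [Fintype ι] (X Y : ι → Type) [∀ i, Fintype (X i)] [∀ i, Fintype (Y i)]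
    [∀ i, Nonempty (Y i)] (bad : ∀ i, X i → Y i → Prop)
    (hbad : ∀ i, ∀ x x' : X i, (∀ y, bad i x y ↔ bad i x' y) ∨ (∀ y, ¬ (bad i x y ∧ bad i x' y)))
    (s : ∀ i, X i → ℝ)
    (hs : ∀ i x, s i x = 1 - ((univ.filter (fun y => bad i x y)).card : ℝ) / Fintype.card (Y i))
    (T : ι → ℝ) (hT : ∀ i, T i = ∑ x, s i x) (hT0 : ∀ i, 0 < T i)
    (c b : ι → ℝ) (hb : ∀ i, 1 ≤ b i) (hsb : ∀ i x, s i x = 0 ∨ 1 ≤ b i * s i x) (hc : ∀ i, 0 ≤ c i)
    (hcol : ∀ i, ∀ x : X i, (∃ y, bad i x y) →
      ∑ x' ∈ univ.filter (fun x' => ∀ y, bad i x' y ↔ bad i x y), s i x' ≤ c i * T i)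
    (K k : ℕ) (hK : 1 ≤ K) (hk : 1 ≤ k) (e : (∀ i, X i) → ℝ) (h0 : ∀ x, 0 ≤ e x) (h1 : ∀ x, e x ≤ 1)
    (S : ℝ) (hS : S = ∑ x, e x * ∏ i, s i (x i)) (hS0 : 0 < S) :
    (∑ y : (∀ i, Y i), (∑ x, if ∀ i, ¬ bad i (x i) (y i) then e x else 0) ^ K) /
        (Fintype.card (∀ i, Y i) : ℝ) ≤
      S ^ K * (((∏ i, T i) / S) ^ K * (∏ i, (1 + (K : ℝ) * c i * (b i ^ k - 1))) ^ (K - 1)) ^ (1 / (k : ℝ)) := by
  have hsn : ∀ i x, 0 ≤ s i x := fun i x => s_nonneg (bad i) (s i) (hs i) x
  have hPn : ∀ x : ∀ i, X i, 0 ≤ ∏ i, s i (x i) := fun x => prod_nonneg fun i _ => hsn i _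
  -- correction factor
  set G : (Fin K → ∀ i, X i) → ℝ := fun τ => ∏ i, Gl (bad i) (b i) (fun j => τ j i) with hG
  have hG1 : ∀ τ, 1 ≤ G τ := by
    intro τ
    rw [hG]
    calc (1 : ℝ) = ∏ _i : ι, (1 : ℝ) := by simp
      _ ≤ _ := prod_le_prod (fun _ _ => zero_le_one) (fun i _ => Gl_ge _ (hb i) _)
  set E : (Fin K → ∀ i, X i) → ℝ := fun τ => ∏ j, (e (τ j) * ∏ i, s i (τ j i)) with hE
  have hE0 : ∀ τ, 0 ≤ E τ := fun τ => prod_nonneg fun j _ => mul_nonneg (h0 _) (hPn _)
  -- step 1: expand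
  have h1' : (∑ y : (∀ i, Y i), (∑ x, if ∀ i, ¬ bad i (x i) (y i) then e x else 0) ^ K) /
        (Fintype.card (∀ i, Y i) : ℝ) ≤ ∑ τ, E τ * G τ := by
    have hexp : ∀ y : (∀ i, Y i), (∑ x, if ∀ i, ¬ bad i (x i) (y i) then e x else 0) ^ K
        = ∑ τ : Fin K → ∀ i, X i, ∏ j, (if ∀ i, ¬ bad i (τ j i) (y i) then e (τ j) else 0) := by
      intro y
      rw [Fintype.sum_pow]
    simp_rw [hexp]
    rw [sum_comm, sum_div]
    apply sum_le_sum
    intro τ _
    have h2 : ∀ y : (∀ i, Y i), (∏ j, (if ∀ i, ¬ bad i (τ j i) (y i) then e (τ j) else 0))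
        = if ∀ j, ∀ i, ¬ bad i (τ j i) (y i) then ∏ j, e (τ j) else 0 := by
      intro y
      by_cases h : ∀ j, ∀ i, ¬ bad i (τ j i) (y i)
      · rw [if_pos h]
        exact prod_congr rfl fun j _ => if_pos (h j)
      · rw [if_neg h]
        rw [not_forall] at h
        obtain ⟨j, hj⟩ := h
        exact prod_eq_zero (mem_univ j) (if_neg hj)
    simp_rw [h2]
    rw [← sum_filter, sum_const, nsmul_eq_mul, count_prod]
    have h3 : E τ * G τ = (∏ j, e (τ j)) *
        ∏ i, ((∏ j, s i (τ j i)) * Gl (bad i) (b i) (fun j => τ j i)) := by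
      rw [hE, hG]
      simp only
      rw [prod_mul_distrib, prod_mul_distrib]
      have : (∏ j, ∏ i, s i (τ j i)) = ∏ i, ∏ j, s i (τ j i) := prod_comm
      rw [this]
      ring
    rw [h3, Nat.cast_prod]
    have h4 : (∏ i, (Nl (bad i) (fun j => τ j i) : ℝ)) * (∏ j, e (τ j)) /
          (Fintype.card (∀ i, Y i) : ℝ)
        = (∏ j, e (τ j)) * ∏ i, ((Nl (bad i) (fun j => τ j i) : ℝ) / (Fintype.card (Y i) : ℝ)) := by
      rw [prod_div_distrib, Fintype.card_pi, Nat.cast_prod]
      ring
    rw [h4]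
    apply mul_le_mul_of_nonneg_left _ (prod_nonneg fun j _ => h0 _)
    apply prod_le_prod
    · intro i _
      positivity
    · intro i _
      exact local_bound (bad i) (hbad i) (s i) (hs i) (hb i) (hsb i) _
  -- step 2: total mass
  have h2 : ∑ τ, E τ = S ^ K := by
    rw [hS, hE, Fintype.sum_pow]
  -- step 3: the k-th moment of the correction
  have h3 : ∑ τ, E τ * G τ ^ k ≤ (∏ i, T i) ^ K *
        (∏ i, (1 + (K : ℝ) * c i * (b i ^ k - 1))) ^ (K - 1) := by
    have e1 : ∀ τ, E τ * G τ ^ k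
        ≤ ∏ i, ((∏ j, s i (τ j i)) * Gl (bad i) (b i) (fun j => τ j i) ^ k) := by
      intro τ
      rw [prod_mul_distrib, prod_pow]
      apply mul_le_mul_of_nonneg_right
      · rw [hE, prod_comm]
        apply prod_le_prod
        · intro j _
          exact mul_nonneg (h0 _) (hPn _)
        · intro j _
          have := hPn (τ j)
          nlinarith [h1 (τ j)]
      · exact pow_nonneg (zero_le_one.trans (hG1 τ)) _
    have e2 : ∑ τ : Fin K → ∀ i, X i,
        ∏ i, ((∏ j, s i (τ j i)) * Gl (bad i) (b i) (fun j => τ j i) ^ k)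
        = ∏ i, ∑ σ : Fin K → X i, ((∏ j, s i (σ j)) * Gl (bad i) (b i) σ ^ k) := by
      rw [Fintype.prod_sum]
      apply Fintype.sum_equiv (Equiv.piComm fun (_ : Fin K) (i : ι) => X i)
      intro τ
      rfl
    calc ∑ τ, E τ * G τ ^ k
        ≤ ∑ τ : Fin K → ∀ i, X i,
          ∏ i, ((∏ j, s i (τ j i)) * Gl (bad i) (b i) (fun j => τ j i) ^ k) :=
          sum_le_sum fun τ _ => e1 τ
      _ = ∏ i, ∑ σ : Fin K → X i, ((∏ j, s i (σ j)) * Gl (bad i) (b i) σ ^ k) := e2
      _ ≤ ∏ i, (T i ^ K * (1 + (K : ℝ) * c i * (b i ^ k - 1)) ^ (K - 1)) := by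
          apply prod_le_prod
          · intro i _
            apply sum_nonneg
            intro σ _
            apply mul_nonneg (prod_nonneg fun j _ => hsn i _)
            exact pow_nonneg (zero_le_one.trans (Gl_ge _ (hb i) _)) _
          · intro i _
            exact local_sum (bad i) (s i) (hsn i) (T i) (hT i) (hT0 i) (hb i) (hc i) (hcol i)
              K k K le_rfl
      _ = _ := by
          rw [prod_mul_distrib, prod_pow, prod_pow]
  -- step 4: power mean
  have hSK : 0 < S ^ K := pow_pos hS0 K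
  have h4 : (∑ τ, E τ * G τ / S ^ K) ^ k ≤ ∑ τ, E τ * G τ ^ k / S ^ K := by
    have := Real.pow_arith_mean_le_arith_mean_pow univ (fun τ => E τ / S ^ K) G
      (fun τ _ => div_nonneg (hE0 τ) hSK.le)
      (by rw [← sum_div, h2, div_self hSK.ne']) (fun τ _ => zero_le_one.trans (hG1 τ)) k
    calc (∑ τ, E τ * G τ / S ^ K) ^ k = (∑ τ, E τ / S ^ K * G τ) ^ k := by
          congr 1
          exact sum_congr rfl fun τ _ => by ring
      _ ≤ ∑ τ, E τ / S ^ K * G τ ^ k := this
      _ = _ := sum_congr rfl fun τ _ => by ring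
  have hL0 : 0 ≤ ∑ τ, E τ * G τ / S ^ K :=
    sum_nonneg fun τ _ => div_nonneg (mul_nonneg (hE0 τ) (zero_le_one.trans (hG1 τ))) hSK.le
  set M : ℝ := (∏ i, (1 + (K : ℝ) * c i * (b i ^ k - 1))) ^ (K - 1) with hM
  have h5 : (∑ τ, E τ * G τ / S ^ K) ^ k ≤ ((∏ i, T i) / S) ^ K * M := by
    refine h4.trans ?_
    rw [← sum_div, div_pow, div_mul_eq_mul_div]
    exact div_le_div_of_nonneg_right h3 hSK.le
  have h6 : ∑ τ, E τ * G τ / S ^ K ≤ (((∏ i, T i) / S) ^ K * M) ^ (1 / (k : ℝ)) := by
    have hk0 : (k : ℝ) ≠ 0 := by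
      have : 0 < k := hk
      positivity
    have hroot : ∀ L : ℝ, 0 ≤ L → L = (L ^ k) ^ (1 / (k : ℝ)) := by
      intro L hL
      rw [← Real.rpow_natCast, ← Real.rpow_mul hL, mul_one_div_cancel hk0, Real.rpow_one]
    calc ∑ τ, E τ * G τ / S ^ K = ((∑ τ, E τ * G τ / S ^ K) ^ k) ^ (1 / (k : ℝ)) := hroot _ hL0
      _ ≤ _ := Real.rpow_le_rpow (pow_nonneg hL0 k) h5 (by positivity)
  calc _ ≤ ∑ τ, E τ * G τ := h1'
    _ = S ^ K * ∑ τ, E τ * G τ / S ^ K := by
        rw [mul_sum]
        exact sum_congr rfl fun τ _ => by field_simp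
    _ ≤ _ := mul_le_mul_of_nonneg_left h6 hSK.le

end Pool.Agent.TH159.J2919
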