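import Pool.Agent.TH950.FC.GlueDefs

/-! Job 891 (helper950, MP_f40e16_al), FC-20: one stage of the construction. -/

set_option autoImplicit false

namespace Pool.Agent.TH159.J891

open Pool.Agent.TH950.FC Pool.Agent.TH950.FC.LG
open scoped symmDiff

section basics

variable {S V : Type} {X Y : LG S V} {D : Set V}

theorem hit_mono (h : ∀ {s x y}, X.E s x y → Y.E s x y) : ∀ {u : List S} {y b : V},
    X.Hit D y u b → Y.Hit D y u b
  | [], _, _, hu => hu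
  | _ :: _, _, _, ⟨hy, z, hz, hu⟩ => ⟨hy, z, h hz, hit_mono h hu⟩

theorem pathIn_mono' (h : ∀ {s x y}, X.E s x y → Y.E s x y) : ∀ {u : List S} {y b : V},
    X.PathIn D y u b → Y.PathIn D y u b
  | [], _, _, hu => hu
  | _ :: _, _, _, ⟨hy, z, hz, hu⟩ => ⟨hy, z, h hz, pathIn_mono' h hu⟩

theorem pathIn_full (h : ∀ {s x y}, X.E s x y → x ∈ D → y ∈ D → Y.E s x y) :
    ∀ {u : List S} {y b : V}, X.PathIn D y u b → Y.Path y u b
  | [], _, _, hu => hu.1
  | _ :: _, _, _, ⟨hy, z, hz, hu⟩ => ⟨z, h hz hy hu.mem_left, pathIn_full h hu⟩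

theorem hit_snoc {s : S} : ∀ {w : List S} {y b : V}, X.Hit D y (w ++ [s]) b →
    ∃ z, z ∉ D ∧ X.Path y w z ∧ X.E s z b
  | [], y, b, ⟨hy, z, hz, hu⟩ => by
      obtain ⟨rfl, _⟩ := hu
      exact ⟨y, hy, rfl, hz⟩
  | s' :: w, y, b, ⟨hy, z, hz, hu⟩ => by
      obtain ⟨z', h1, h2, h3⟩ := hit_snoc hu
      exact ⟨z', h1, ⟨z, hz, h2⟩, h3⟩

/-- the last vertex of a path in `D` -/
theorem last_in {x : V} (hx : x ∈ D) (w : List S) : ∀ {y : V}, X.Path x w y →
    ∃ w₁ v b, w = w₁ ++ v ∧ X.Path x w₁ b ∧ b ∈ D ∧ X.Hit D y v.reverse b := by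
  classical
  induction w using List.reverseRecOn with
  | nil =>
    intro y h
    obtain rfl : x = y := h
    exact ⟨[], [], x, rfl, rfl, hx, rfl, hx⟩
  | append_singleton w s ih =>
    intro y h
    by_cases hy : y ∈ D
    · exact ⟨w ++ [s], [], y, by simp, h, hy, rfl, hy⟩
    · obtain ⟨y', hy', hs⟩ := path_snoc.1 h
      obtain ⟨w₁, v, b, rfl, h1, h2, h3⟩ := ih hy'
      refine ⟨w₁, v ++ [s], b, by simp, h1, h2, ?_⟩
      rw [List.reverse_append, List.reverse_singleton, List.singleton_append]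
      exact ⟨hy, y', X.symm hs, h3⟩

end basics

section states

variable {S Q H : Type} [DecidableEq Q] {T : Theta S Q}

theorem ext_trans {st st' st'' : St S Q H} (h : Ext st st') (h' : Ext st' st'') :
    Ext st st'' where
  dom := h.dom.trans h'.dom
  E := fun e => h'.E (h.E e)
  β := fun hx => (h'.β (h.dom hx)).trans (h.β hx)
  ω := fun e => (h'.ω (h.E e)).trans (h.ω e)
  p := fun hx => (h'.p (h.dom hx)).trans (h.p hx)
  t := h.t.trans h'.t

theorem ext_refl (st : St S Q H) : Ext st st where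
  dom := subset_rfl
  E := fun e => e
  β := fun _ => rfl
  ω := fun _ => rfl
  p := fun _ => rfl
  t := le_rfl

theorem path_dom {st : St S Q H} (hb : ∀ {s x y}, st.X.E s x y → x ∈ st.dom) :
    ∀ {w : List S} {x y : Vt Q}, x ∈ st.dom → st.X.Path x w y → y ∈ st.dom
  | [], _, _, hx, h => (show _ = _ from h) ▸ hx
  | _ :: _, _, _, _, ⟨_, hz, h⟩ => path_dom hb (hb (st.X.symm hz)) h

/-- charts persist -/
theorem ch_mono {st st' : St S Q H} (hb : ∀ {s x y}, st.X.E s x y → x ∈ st.dom)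
    (he : Ext st st') {x : Vt Q} {q : Q} (hx : x ∈ st.dom) (h : st.Ch T x q) :
    st'.Ch T x q := by
  obtain ⟨ι, j, ψ, hj, h0, hc⟩ := h
  have hdom : ∀ w c c', T.cov.Reach (q, ∅) c → ι c ∈ st.dom → T.cov.Path c w c' →
      ι c' ∈ st.dom := by
    intro w
    induction w with
    | nil =>
      intro c c' _ hd hp
      obtain rfl : c = c' := hp
      exact hd
    | cons s w ih =>
      rintro c c' hr hd ⟨c₁, h1, h2⟩
      exact ih c₁ c' (hr.step h1) (hb (st.X.symm ((hc c hr).2 s c₁ h1).1)) h2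
  have hdom' : ∀ c, T.cov.Reach (q, ∅) c → ι c ∈ st.dom := by
    rintro c ⟨w, hw⟩
    exact hdom w _ _ (Reach.refl _) (h0 ▸ hx) hw
  refine ⟨ι, j, ψ, hj, h0, fun c hr => ⟨?_, fun s c' hE => ?_⟩⟩
  · rw [he.β (hdom' c hr), he.β hx]
    exact (hc c hr).1
  · obtain ⟨h1, h2⟩ := (hc c hr).2 s c' hE
    exact ⟨he.E h1, by rw [he.ω h1]; exact h2⟩

/-- unchartedness moves along common words -/
theorem nc_path {st : St S Q H} {x y : Vt Q} {q q' : Q} {w : List S}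
    (h : ¬ st.Ch T x q) (hp : T.Path q w q') (hx : st.X.Path x w y) : ¬ st.Ch T y q' :=
  fun h' => h (Charted.path' h' hp.rev hx.rev)

theorem N_path {V : Type} {X : LG S V} {N : V → Q → Prop}
    (h : ∀ {s x q q'}, N x q → T.E s q q' → ∃ y, X.E s x y ∧ N y q') :
    ∀ {w : List S} {x : V} {q q' : Q}, N x q → T.Path q w q' → ∃ y, X.Path x w y ∧ N y q'
  | [], x, q, q', hN, hp => ⟨x, rfl, (show q = q' from hp) ▸ hN⟩
  | s :: w, x, q, q', hN, ⟨q1, h1, hp⟩ => by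
      obtain ⟨z, hz, hN1⟩ := h hN h1
      obtain ⟨y, hy, hN2⟩ := N_path (w := w) h hN1 hp
      exact ⟨y, ⟨z, hz, hy⟩, hN2⟩

theorem N_path' {V : Type} {X : LG S V} {N : V → Q → Prop}
    (h : ∀ {s x q q'}, N x q → T.E s q q' → ∃ y, X.E s x y ∧ N y q')
    {w : List S} {x y : V} {q q' : Q} (hN : N x q) (hp : T.Path q w q') (hx : X.Path x w y) :
    N y q' := by
  obtain ⟨y', hy', h'⟩ := N_path h hN hp
  rwa [hx.func hy']

/-- a common word of an uncharted pair between two points of `D` stays in `D` -/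
theorem stays {V : Type} (hrel : RelLemmas S Q V) {X : LG S V} {D : Set V}
    {N nc : V → Q → Prop} (hR : RelSetup T X D N nc) : ∀ {z : List S} {b b' : V} {q : Q},
    nc b q → b ∈ D → b' ∈ D → Red z → T.Readable q z → X.Path b z b' → X.PathIn D b z b'
  | [], b, b', q, _, hb, _, _, _, hp => ⟨hp, hb⟩
  | s :: z, b, b', q, hn, hb, hb', hr, hq, ⟨y, hy, hp⟩ => by
      by_cases hyD : y ∈ D
      · obtain ⟨q', q1, hq1, hq'⟩ := hq
        exact ⟨hb, y, hy, stays hrel hR (hR.nc_step hn hy hq1) hyD hb' hr.tail ⟨q', hq'⟩ hp⟩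
      · exact absurd hb' (hrel.leave T X D N nc hR b y b' q s z hn hb hr hy hyD hp hq).1

/-- an intermediate stage -/
structure Stage (T : Theta S Q) [Group H] (a : S → H) (st cur : St S Q H)
    (N : Vt Q → Q → Prop) : Prop where
  ext : Ext st cur
  good : Good T a 6 cur
  N_ch : ∀ {y q}, N y q → cur.Ch T y q ∧ y ∈ cur.dom
  rel : RelSetup T cur.X st.dom N (fun x q => x ∈ cur.dom ∧ ¬ cur.Ch T x q)
  full : ∀ {s x y}, cur.X.E s x y → x ∈ st.dom → y ∈ st.dom → st.X.E s x y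

variable [Group H] {a : S → H}

theorem stage_init {st : St S Q H} (hst : Good T a 4 st) :
    Stage T a st st (fun _ _ => False) where
  ext := ext_refl st
  good := { toBasic := hst.toBasic, bg := hst.bg, q2 := hst.q2, inv := by
              intro x hx q hq w y hw
              have := hst.inv x hx q hq w y hw
              exact ⟨by omega, this.2⟩ }
  N_ch := fun h => h.elim
  full := fun h _ _ => h
  rel :=
    { N_step := fun h => h.elim
      cover := fun h h' => absurd ⟨hst.edge_dom h, hst.edge_dom (st.X.symm h)⟩ h'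
      meet := fun h => h.elim
      short := fun h => h.elim
      nc_step := fun h h1 h2 => ⟨hst.edge_dom (st.X.symm h1),
        nc_path h.2 (path_singleton.2 h2) (path_singleton.2 h1)⟩
      nc_N := fun _ h => h }

/-- the length bound: the middle part lies in `D` -/
theorem stage_length {st cur : St S Q H} {N : Vt Q → Q → Prop} (hrel : RelLemmas S Q (Vt Q))
    (hR : RelSetup T cur.X st.dom N (fun x q => x ∈ cur.dom ∧ ¬ cur.Ch T x q))
    (hfull : ∀ {s x y}, cur.X.E s x y → x ∈ st.dom → y ∈ st.dom → st.X.E s x y) (κ : ℕ)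
    (hκ : ∀ x ∈ st.dom, ∀ q, ¬ cur.Ch T x q → ∀ w y, st.Common T x q w y →
      100 * w.length ≤ κ * T.g q)
    {x : Vt Q} (hx : x ∈ cur.dom) {q : Q} (hq : ¬ cur.Ch T x q) {w : List S} {y : Vt Q}
    (hw : cur.Common T x q w y) : 100 * w.length ≤ (κ + 2) * T.g q := by
  obtain ⟨hr, hp, hq'⟩ := hw
  rcases hrel.gen T cur.X st.dom N _ hR x y q w ⟨hx, hq⟩ hr hp hq' with h |
    ⟨w₁, w₂, w₃, b, b', rfl, h1, h2, h3, h4⟩
  · have : (κ + 2) * T.g q = κ * T.g q + 2 * T.g q := by ring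
    omega
  · obtain ⟨q₁, hq₁, hq₂⟩ := readable_append.1 hq'
    have h5 : 100 * w₂.length ≤ κ * T.g q₁ := by
      refine hκ b h2.mem_left q₁ (nc_path hq hq₁ h1) w₂ b' ⟨hr.right.left, ?_, hq₂.left⟩
      exact pathIn_full hfull h2
    rw [g_path hq₁] at h5
    simp only [List.length_append]
    have : (κ + 2) * T.g q = κ * T.g q + 2 * T.g q := by ring
    omega

/-- paths in the glued block -/
theorem glue_path {st st' : St S Q H} {x₀ : Vt Q} {q₀ : Q} {ι : Q × Finset (Sym2 Q) → Vt Q}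
    {j : Sym2 Q → Wt Q} (hG : Glue T st st' x₀ q₀ ι j) :
    ∀ {w : List S} {c c' : Q × Finset (Sym2 Q)}, T.cov.Reach (q₀, ∅) c → T.cov.Path c w c' →
      st'.X.Path (ι c) w (ι c')
  | [], _, _, _, hp => congrArg ι hp
  | _ :: _, c, _, hr, ⟨c₁, h1, h2⟩ =>
    ⟨ι c₁, (hG.E_iff _ _ _).2 (Or.inr ⟨c, c₁, hr, h1, rfl, rfl⟩), glue_path hG (hr.step h1) h2⟩

section gluing

variable {st cur cur' : St S Q H} {N : Vt Q → Q → Prop} {x₀ : Vt Q} {q₀ : Q}
  {ι : Q × Finset (Sym2 Q) → Vt Q} {j : Sym2 Q → Wt Q}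

theorem meet_aux (hrel : RelLemmas S Q (Vt Q)) (hS : Stage T a st cur N) (hx₀ : x₀ ∈ st.dom)
    (hG : Glue T cur cur' x₀ q₀ ι j) {q : Q} {c : Q × Finset (Sym2 Q)} (hN : N (ι c) q)
    (hr : T.cov.Reach (q₀, ∅) c) : ∃ u b, Red u ∧ cur'.X.Hit st.dom (ι c) u b ∧
      T.Readable q u ∧ T.Readable c.1 u := by
  have hdom := (hS.N_ch hN).2
  obtain ⟨w, z, ⟨hw1, hw2, hw3⟩, hw4⟩ := (hG.old_iff c hr).1 hdom
  have hz : ι c = z := hG.D0_path w c z hw4 hw2
  rw [← hz] at hw2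
  obtain ⟨w₁, v, b, rfl, h1, h2, h3⟩ := last_in hx₀ w hw2
  obtain ⟨c1, hc1, hc2⟩ := path_append.1 hw4
  have hbv : cur.X.Path b v (ι c) := by
    obtain ⟨b', hb', hv⟩ := path_append.1 hw2
    rwa [h1.func hb']
  have hnb : ¬ cur.Ch T b c1.1 := nc_path hG.notCh hc1.proj h1
  rcases v with _ | ⟨s, v⟩
  · exact ⟨[], ι c, red_nil, ⟨rfl, by rw [← (show b = ι c from hbv)]; exact h2⟩,
      ⟨q, rfl⟩, ⟨c.1, rfl⟩⟩
  · have h3' := h3
    rw [List.reverse_cons] at h3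
    obtain ⟨y1, hy1, hy2, hy3⟩ := hit_snoc h3
    have hrv : Red (s :: v) := hw1.right
    have hread : T.Readable c1.1 (s :: v) := ⟨c.1, hc2.proj⟩
    have hdb : b ∈ cur.dom := hS.ext.dom h2
    obtain ⟨_, _, q1, hq1, r, hr'⟩ := hrel.leave T cur.X st.dom N _ hS.rel b y1 (ι c) c1.1 s v
      ⟨hdb, hnb⟩ h2 hrv (cur.X.symm hy3) hy1 (path_rev_iff.1 hy2) hread
    have hNr : N (ι c) r := N_path' hS.rel.N_step hq1 hr' hbv
    by_cases hrq : r = q
    · subst hrq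
      exact ⟨(s :: v).reverse, b, hrv.rev, hit_mono hG.ext.E h3', ⟨q1, hr'.rev⟩,
        ⟨c1.1, hc2.proj.rev⟩⟩
    · obtain ⟨u', b', hu1, hu2, hu3, hu4⟩ := hS.rel.meet hNr hN hrq
      have hl1 : 100 * u'.length ≤ T.g r := T.piece hrq hu1 hu3 hu4
      have hne1 : q1 ≠ c1.1 := by
        rintro rfl
        exact hnb (hS.N_ch hq1).1
      have hl2 : 100 * (s :: v).length ≤ T.g q1 := T.piece hne1 hrv ⟨r, hr'⟩ hread
      have hg : T.g r = T.g q1 := g_path hr'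
      have heq := hrel.unique T cur.X st.dom N _ hS.rel (ι c) r u' (s :: v).reverse b' b hNr
        hu1 hrv.rev hu3 ⟨q1, hr'.rev⟩ hu2 h3' (by omega) (by rw [List.length_reverse]; omega)
      exact ⟨(s :: v).reverse, b, hrv.rev, hit_mono hG.ext.E h3', heq ▸ hu4,
        ⟨c1.1, hc2.proj.rev⟩⟩

theorem short_aux (hrel : RelLemmas S Q (Vt Q)) (hst : Good T a 4 st)
    (hS : Stage T a st cur N) (hG : Glue T cur cur' x₀ q₀ ι j) {c : Q × Finset (Sym2 Q)}
    (hr : T.cov.Reach (q₀, ∅) c) (hb : ι c ∈ st.dom) {u : List S} {q' : Q} {b' : Vt Q}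
    (hu : T.Path c.1 u q') (hp : cur'.X.Path (ι c) u b') (hb' : b' ∈ st.dom) :
    ∃ z, Red z ∧ cur'.X.PathIn st.dom (ι c) z b' ∧ T.Path c.1 z q' ∧
      100 * z.length ≤ 4 * T.g c.1 := by
  obtain ⟨c'', hc1, hc2⟩ := Path.lift' hu
  have hb2 : ι c'' = b' := (glue_path hG hr hc1).func hp
  obtain ⟨w1, z1, ⟨a1, a2, a3⟩, a4⟩ := (hG.old_iff c hr).1 (hS.ext.dom hb)
  obtain ⟨w2, z2, ⟨b1, b2, b3⟩, b4⟩ := (hG.old_iff c'' (hr.path hc1)).1
    (hS.ext.dom (hb2 ▸ hb'))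
  have e1 : ι c = z1 := hG.D0_path w1 c z1 a4 a2
  have e2 : ι c'' = z2 := hG.D0_path w2 c'' z2 b4 b2
  rw [← e1] at a2
  rw [← e2, hb2] at b2
  obtain ⟨z, hz1, _, _, hz2⟩ := exists_red (w1.reverse ++ w2)
  have p1 : cur.X.Path (ι c) z b' := hz2 _ _ _ (a2.rev.append b2)
  have p2 : T.cov.Path c z c'' := hz2 _ _ _ (a4.rev.append b4)
  have hn : ¬ cur.Ch T (ι c) c.1 := nc_path hG.notCh a4.proj a2
  have p3 : T.Path c.1 z q' := hc2 ▸ p2.proj
  have p4 : cur.X.PathIn st.dom (ι c) z b' :=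
    stays hrel hS.rel ⟨hS.ext.dom hb, hn⟩ hb hb' hz1 ⟨q', p3⟩ p1
  refine ⟨z, hz1, pathIn_mono' hG.ext.E p4, p3, ?_⟩
  exact (hst.inv (ι c) hb c.1 (fun h => hn (ch_mono hst.edge_dom hS.ext hb h)) z b'
    ⟨hz1, pathIn_full hS.full p4, ⟨q', p3⟩⟩).1

theorem stage_glue (hrel : RelLemmas S Q (Vt Q)) (hst : Good T a 4 st)
    (hS : Stage T a st cur N) (hx₀ : x₀ ∈ st.dom) (hG : Glue T cur cur' x₀ q₀ ι j)
    (hb : Basic T a cur') (hI : Inv T 8 cur') (hBg : Bg T cur') (hQ : Q2 T cur') :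
    Stage T a st cur'
      (fun y q => N y q ∨ ∃ c, T.cov.Reach (q₀, ∅) c ∧ y = ι c ∧ q = c.1) := by
  have hN_ch : ∀ {y q}, (N y q ∨ ∃ c, T.cov.Reach (q₀, ∅) c ∧ y = ι c ∧ q = c.1) →
      cur'.Ch T y q ∧ y ∈ cur'.dom := by
    rintro y q (h | ⟨c, hr, rfl, rfl⟩)
    · obtain ⟨h1, h2⟩ := hS.N_ch h
      exact ⟨ch_mono hS.good.edge_dom hG.ext h2 h1, hG.ext.dom h2⟩
    · exact ⟨hG.chart c hr, (hG.dom_iff _).2 (Or.inr ⟨c, hr, rfl⟩)⟩
  have hfull : ∀ {s x y}, cur'.X.E s x y → x ∈ st.dom → y ∈ st.dom → st.X.E s x y :=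
    fun h hx hy => hS.full (hG.full _ _ _ h (hS.ext.dom hx) (hS.ext.dom hy)) hx hy
  have hR : RelSetup T cur'.X st.dom
      (fun y q => N y q ∨ ∃ c, T.cov.Reach (q₀, ∅) c ∧ y = ι c ∧ q = c.1)
      (fun x q => x ∈ cur'.dom ∧ ¬ cur'.Ch T x q) := by
    refine ⟨?_, ?_, ?_, ?_, ?_, ?_⟩
    · rintro s x q q' (h | ⟨c, hr, rfl, rfl⟩) hE
      · obtain ⟨y, hy, hN⟩ := hS.rel.N_step h hE
        exact ⟨y, hG.ext.E hy, Or.inl hN⟩
      · have h1 : T.cov.E s c (q', c.2 ∆ {s(c.1, q')}) := ⟨hE, rfl⟩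
        exact ⟨ι (q', c.2 ∆ {s(c.1, q')}), (hG.E_iff _ _ _).2 (Or.inr ⟨c, _, hr, h1, rfl, rfl⟩),
          Or.inr ⟨_, hr.step h1, rfl, rfl⟩⟩
    · intro s x y hE hD
      rcases (hG.E_iff _ _ _).1 hE with h | ⟨c, c', hr, h1, rfl, rfl⟩
      · obtain ⟨q, q', hN, hT⟩ := hS.rel.cover h hD
        exact ⟨q, q', Or.inl hN, hT⟩
      · exact ⟨c.1, c'.1, Or.inr ⟨c, hr, rfl, rfl⟩, h1.1⟩
    · rintro y q q' (h | ⟨c, hr, rfl, rfl⟩) (h' | ⟨c', hr', h'', rfl⟩) hne
      · obtain ⟨u, b, h1, h2, h3, h4⟩ := hS.rel.meet h h' hne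
        exact ⟨u, b, h1, hit_mono hG.ext.E h2, h3, h4⟩
      · subst h''
        exact meet_aux hrel hS hx₀ hG h hr'
      · obtain ⟨u, b, h1, h2, h3, h4⟩ := meet_aux hrel hS hx₀ hG h' hr
        exact ⟨u, b, h1, h2, h4, h3⟩
      · exact absurd (congrArg Prod.fst (hG.inj c c' hr hr' h'')) hne
    · rintro b b' q q' u (h | ⟨c, hr, rfl, rfl⟩) hbD hu hp hb'
      · obtain ⟨b'', h1, _⟩ := N_path hS.rel.N_step h hu
        have h2 : b'' = b' := (Path.mono (fun _ _ _ => hG.ext.E) h1).func hp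
        subst h2
        obtain ⟨z, z1, z2, z3, z4⟩ := hS.rel.short h hbD hu h1 hb'
        exact ⟨z, z1, pathIn_mono' hG.ext.E z2, z3, z4⟩
      · exact short_aux hrel hst hS hG hr hbD hu hp hb'
    · intro s x y q q' h h1 h2
      exact ⟨hb.edge_dom (cur'.X.symm h1), nc_path h.2 (path_singleton.2 h2)
        (path_singleton.2 h1)⟩
    · intro x q h h'
      exact h.2 (hN_ch h').1
  refine ⟨ext_trans hS.ext hG.ext, ⟨hb, ?_, hBg, hQ⟩, hN_ch, hR, hfull⟩
  intro x hx q hq w y hw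
  refine ⟨?_, (hI x hx q hq w y hw).2⟩
  refine stage_length hrel hR hfull 4 ?_ hx hq hw
  intro x' hx' q' hq' w' y' hw'
  exact (hst.inv x' hx' q' (fun h => hq' (ch_mono hst.edge_dom (ext_trans hS.ext hG.ext) hx' h))
    w' y' hw').1

end gluing

/-- the pairs that have to be charted -/
def bad (T : Theta S Q) (st cur : St S Q H) : Set (Vt Q × Q) :=
  {p | p.1 ∈ st.dom ∧ ¬ cur.Ch T p.1 p.2 ∧ (T.g p.2 = 100 ∨
    ∃ w y, st.Common T p.1 p.2 w y ∧ 2 * T.g p.2 < 100 * w.length)}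

theorem bad_finite {st cur : St S Q H} (hst : Good T a 4 st) (hE : Ext st cur) :
    (bad T st cur).Finite := by
  obtain ⟨M, hM⟩ := (hst.fin.image fun x => (st.β x).card).bddAbove
  have hM' : ∀ x ∈ st.dom, (st.β x).card ≤ M := fun x hx => hM ⟨x, hx, rfl⟩
  refine (hst.fin.prod (T.fin (100 + 100 * M))).subset ?_
  rintro ⟨x, q⟩ ⟨hx, hq, h⟩
  refine ⟨hx, ?_⟩
  change T.g q ≤ 100 + 100 * M
  rcases h with h | ⟨w, y, hw, hl⟩
  · change T.g q = 100 at h
    omega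
  · have h1 := (hst.inv x hx q (fun h => hq (ch_mono hst.edge_dom hE hx h)) w y hw).2
    have hy : y ∈ st.dom := path_dom hst.edge_dom hx hw.2.1
    have h2 : (st.β x ∆ st.β y).card ≤ (st.β x).card + (st.β y).card := by
      refine (Finset.card_le_card (fun z hz => ?_)).trans (Finset.card_union_le _ _)
      rw [Finset.mem_symmDiff] at hz
      rw [Finset.mem_union]
      tauto
    have h3 := hM' x hx
    have h4 := hM' y hy
    change 2 * T.g q < 100 * w.length at hl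
    omega

theorem stage_loop (hrel : RelLemmas S Q (Vt Q))
    (hglue : ∀ st : St S Q H, Good T a 6 st → ∀ x₀ ∈ st.dom, ∀ q₀, ¬ st.Ch T x₀ q₀ →
      ∃ st' ι j, Glue T st st' x₀ q₀ ι j ∧ Basic T a st' ∧ Inv T 8 st' ∧ Bg T st' ∧ Q2 T st')
    {st : St S Q H} (hst : Good T a 4 st) : ∀ (n : ℕ) (cur : St S Q H) (N : Vt Q → Q → Prop),
      Stage T a st cur N → (bad T st cur).ncard ≤ n →
      ∃ cur' N', Stage T a st cur' N' ∧ bad T st cur' = ∅ := by
  intro n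
  induction n with
  | zero =>
    intro cur N hS hn
    exact ⟨cur, N, hS, (Set.ncard_eq_zero (bad_finite hst hS.ext)).1 (by omega)⟩
  | succ n ih =>
    intro cur N hS hn
    by_cases hbad : bad T st cur = ∅
    · exact ⟨cur, N, hS, hbad⟩
    · obtain ⟨⟨x₀, q₀⟩, hx, hq, h⟩ := Set.nonempty_iff_ne_empty.2 hbad
      obtain ⟨cur', ι, j, hG, h1, h2, h3, h4⟩ := hglue cur hS.good x₀ (hS.ext.dom hx) q₀ hq
      have hS' := stage_glue hrel hst hS hx hG h1 h2 h3 h4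
      refine ih cur' _ hS' ?_
      have hlt : (bad T st cur').ncard < (bad T st cur).ncard := by
        refine Set.ncard_lt_ncard ?_ (bad_finite hst hS.ext)
        refine (Set.ssubset_iff_of_subset ?_).2 ⟨(x₀, q₀), ⟨hx, hq, h⟩, ?_⟩
        · rintro ⟨x, q⟩ ⟨hx', hq', h'⟩
          exact ⟨hx', fun hc => hq' (ch_mono hS.good.edge_dom hG.ext (hS.ext.dom hx') hc), h'⟩
        · rintro ⟨_, h', _⟩
          apply h'
          have := hG.chart (q₀, ∅) (Reach.refl _)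
          rwa [hG.base] at this
      omega

end states

/-- One stage of the construction: all pairs with a long overlap get charted. -/
theorem stage_of_glue {S Q H : Type} [DecidableEq Q] [Group H] (T : Theta S Q) (a : S → H)
    (hrel : RelLemmas S Q (Vt Q))
    (hglue : ∀ st : St S Q H, Good T a 6 st → ∀ x₀ ∈ st.dom, ∀ q₀, ¬ st.Ch T x₀ q₀ →
      ∃ st' ι j, Glue T st st' x₀ q₀ ι j ∧ Basic T a st' ∧ Inv T 8 st' ∧ Bg T st' ∧ Q2 T st')
    (st : St S Q H) (hst : Good T a 4 st) :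
    ∃ st' : St S Q H, Ext st st' ∧ Good T a 4 st' ∧
      ∀ x ∈ st.dom, ∀ q, (T.g q = 100 ∨ ∃ w y, st.Common T x q w y ∧ 2 * T.g q < 100 * w.length) →
        st'.Ch T x q := by
  obtain ⟨cur, N, hS, hbad⟩ := stage_loop hrel hglue hst _ st _ (stage_init hst) le_rfl
  refine ⟨cur, hS.ext, ⟨hS.good.toBasic, ?_, hS.good.bg, hS.good.q2⟩, ?_⟩
  · intro x hx q hq w y hw
    refine ⟨?_, (hS.good.inv x hx q hq w y hw).2⟩
    refine stage_length hrel hS.rel hS.full 2 ?_ hx hq hw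
    intro x' hx' q' hq' w' y' hw'
    by_contra hlt
    have hlt' : 2 * T.g q' < 100 * w'.length := by omega
    have : (x', q') ∈ bad T st cur := ⟨hx', hq', Or.inr ⟨w', y', hw', hlt'⟩⟩
    rw [hbad] at this
    exact this
  · intro x hx q h
    by_contra hc
    have : (x, q) ∈ bad T st cur := ⟨hx, hc, h⟩
    rw [hbad] at this
    exact this

end Pool.Agent.TH159.J891
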