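import Pool.Agent.TH144.AE.Var

/-! Job 850 (helper144, MP_879098_ag): regular functions on the Fermat quartic are constant
(maximum modulus principle). -/

set_option autoImplicit false

open MvPolynomial Filter Topology

namespace Pool.Agent.TH159.J850

open Pool.Agent.TH144.AE

/-- the fourth power of the coordinate `j` on the cone in terms of the other two coordinates -/
def Q (j : Fin 3) (z : Fin 3 → ℂ) : ℂ :=
  z j ^ 4 - (![1, -1, -1] : Fin 3 → ℂ) j * (z 0 ^ 4 - z 1 ^ 4 - z 2 ^ 4)

lemma Q_cone {j : Fin 3} {z : Fin 3 → ℂ} (hz : z ∈ Cone) : Q j z = z j ^ 4 := by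
  unfold Q
  rw [hz.2]
  ring

lemma update_cone {j : Fin 3} {z : Fin 3 → ℂ} {w : ℂ} (hw : w ^ 4 = Q j z) :
    (Function.update z j w) 0 ^ 4 = (Function.update z j w) 1 ^ 4 +
      (Function.update z j w) 2 ^ 4 := by
  fin_cases j
  · simp [Q] at hw ⊢
    linear_combination hw
  · simp [Q] at hw ⊢
    linear_combination -hw
  · simp [Q] at hw ⊢
    linear_combination -hw

lemma differentiable_Q (j : Fin 3) : Differentiable ℂ (Q j) := by
  unfold Q
  fun_prop

/-- the cone is locally the image of a holomorphic retraction -/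
lemma local_section {b : Fin 3 → ℂ} (hb : b ∈ Cone) : ∃ p : (Fin 3 → ℂ) → (Fin 3 → ℂ),
    (∀ᶠ z in 𝓝 b, DifferentiableAt ℂ p z) ∧ (∀ᶠ z in 𝓝 b, p z ∈ Cone) ∧ p b = b ∧
    (∀ᶠ z in 𝓝 b, z ∈ Cone → p z = z) := by
  obtain ⟨j, hj⟩ : ∃ j, b j ≠ 0 := by
    by_contra h
    push Not at h
    exact hb.1 (funext h)
  let W : (Fin 3 → ℂ) → ℂ := fun z => b j * (Q j z / b j ^ 4) ^ ((4 : ℕ) : ℂ)⁻¹
  let p : (Fin 3 → ℂ) → (Fin 3 → ℂ) := fun z => Function.update z j (W z)
  have hQb : Q j b / b j ^ 4 = 1 := by
    rw [Q_cone hb, div_self (pow_ne_zero 4 hj)]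
  have hWb : W b = b j := by
    simp only [W, hQb, Complex.one_cpow, mul_one]
  have hpb : p b = b := by
    simp only [p, hWb, Function.update_eq_self]
  have hQc : ContinuousAt (fun z => Q j z / b j ^ 4) b :=
    ((differentiable_Q j).continuous.div_const _).continuousAt
  have hslit : ∀ᶠ z in 𝓝 b, Q j z / b j ^ 4 ∈ Complex.slitPlane := by
    apply hQc.eventually_mem
    rw [hQb]
    exact Complex.isOpen_slitPlane.mem_nhds Complex.one_mem_slitPlane
  have hdiff : ∀ᶠ z in 𝓝 b, DifferentiableAt ℂ p z := by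
    filter_upwards [hslit] with z hz
    rw [differentiableAt_pi]
    intro i
    by_cases hij : i = j
    · subst hij
      have h1 : (fun z => p z i) = W := by
        funext z
        simp [p]
      rw [h1]
      refine DifferentiableAt.const_mul ?_ _
      have h2 : DifferentiableAt ℂ (fun z => Q i z / b i ^ 4) z := by
        simp only [div_eq_mul_inv]
        exact ((differentiable_Q i) z).mul_const _
      exact h2.cpow (differentiableAt_const _) hz
    · have h1 : (fun z => p z i) = fun z => z i := by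
        funext z
        simp [p, Function.update_of_ne hij]
      rw [h1]
      exact differentiableAt_apply i z
  have hcont : ContinuousAt p b := hdiff.self_of_nhds.continuousAt
  refine ⟨p, hdiff, ?_, hpb, ?_⟩
  · have h0 : ∀ᶠ z in 𝓝 b, p z ≠ 0 := by
      apply hcont.eventually_ne
      rw [hpb]
      exact hb.1
    filter_upwards [h0] with z hz
    refine ⟨hz, update_cone ?_⟩
    simp only [W]
    rw [mul_pow, Complex.cpow_nat_inv_pow _ (by norm_num)]
    field_simp
  · have harg : ∀ᶠ z in 𝓝 b, z j / b j ∈ {u : ℂ | |u.arg| < Real.pi / 4} := by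
      have h1 : ContinuousAt (fun z : Fin 3 → ℂ => z j / b j) b :=
        ((continuous_apply j).div_const _).continuousAt
      have h2 : ContinuousAt (fun z : Fin 3 → ℂ => |(z j / b j).arg|) b := by
        refine ContinuousAt.abs (ContinuousAt.comp (g := Complex.arg) ?_ h1)
        apply Complex.continuousAt_arg
        rw [div_self hj]
        exact Complex.one_mem_slitPlane
      apply h2.eventually_lt continuousAt_const
      rw [div_self hj, Complex.arg_one, abs_zero]
      positivity
    filter_upwards [harg] with z hz hzC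
    have hz' : |(z j / b j).arg| < Real.pi / 4 := hz
    obtain ⟨hl, hr⟩ := abs_lt.1 hz'
    have hWz : W z = z j := by
      simp only [W]
      rw [Q_cone hzC, ← div_pow, Complex.pow_cpow_nat_inv (by norm_num)
        (by push_cast; linarith) (by push_cast; linarith)]
      field_simp
    simp only [p, hWz, Function.update_eq_self]

theorem regular_const (hconn : IsPreconnected Cone) {f : (Fin 3 → ℂ) → ℂ}
    (hf : ∀ b ∈ Cone, ∃ G H : MvPolynomial (Fin 3) ℂ, eval b H ≠ 0 ∧
      ∀ b' ∈ Cone, eval b' H ≠ 0 → f b' = eval b' G / eval b' H)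
    (hs : ∀ b ∈ Cone, ∀ a : ℂ, a ≠ 0 → f (a • b) = f b) :
    ∀ b ∈ Cone, ∀ b' ∈ Cone, f b = f b' := by
  intro b₀ hb₀ b₁ hb₁
  have hpoly : ∀ G : MvPolynomial (Fin 3) ℂ, Differentiable ℂ fun b => eval b G := by
    intro G
    induction G using MvPolynomial.induction_on with
    | C a => simp
    | add p q hp hq =>
      have h1 : (fun b : Fin 3 → ℂ => eval b (p + q)) = fun b => eval b p + eval b q := by
        funext b
        simp
      rw [h1]
      exact Differentiable.fun_add hp hq
    | mul_X p i hp =>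
      have h1 : (fun b : Fin 3 → ℂ => eval b (p * X i)) = fun b => eval b p * b i := by
        funext b
        simp
      rw [h1]
      exact Differentiable.fun_mul hp (differentiable_apply i)
  -- continuity
  have hcont : ContinuousOn f Cone := by
    intro b hb
    obtain ⟨G, H, hH, h⟩ := hf b hb
    have h1 : ContinuousWithinAt (fun b' => eval b' G / eval b' H) Cone b :=
      (((hpoly G).continuous.continuousAt).div ((hpoly H).continuous.continuousAt)
        hH).continuousWithinAt
    refine h1.congr_of_eventuallyEq ?_ (h b hb hH)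
    have h2 : ∀ᶠ b' in 𝓝[Cone] b, eval b' H ≠ 0 :=
      ((hpoly H).continuous.continuousAt.eventually_ne hH).filter_mono nhdsWithin_le_nhds
    filter_upwards [h2, self_mem_nhdsWithin] with b' hb' hC
    exact h b' hC hb'
  -- the maximum
  have hKsub : Cone ∩ Metric.sphere (0 : Fin 3 → ℂ) 1 ⊆ Cone := Set.inter_subset_left
  have hK : IsCompact (Cone ∩ Metric.sphere (0 : Fin 3 → ℂ) 1) := by
    have h1 : Cone ∩ Metric.sphere (0 : Fin 3 → ℂ) 1 =
        {b | b 0 ^ 4 = b 1 ^ 4 + b 2 ^ 4} ∩ Metric.sphere (0 : Fin 3 → ℂ) 1 := by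
      ext b
      constructor
      · rintro ⟨h, h'⟩
        exact ⟨h.2, h'⟩
      · rintro ⟨h, h'⟩
        refine ⟨⟨?_, h⟩, h'⟩
        rintro rfl
        simp at h'
    rw [h1]
    refine (isCompact_sphere _ _).inter_left ?_
    exact isClosed_eq (by fun_prop) (by fun_prop)
  have hnorm : ∀ b ∈ Cone, ((‖b‖ : ℂ)⁻¹) • b ∈ Cone ∩ Metric.sphere (0 : Fin 3 → ℂ) 1 := by
    intro b hb
    have hn : ‖b‖ ≠ 0 := norm_ne_zero_iff.2 hb.1
    have hn' : ((‖b‖ : ℂ)⁻¹) ≠ 0 := inv_ne_zero (by exact_mod_cast hn)
    refine ⟨⟨smul_ne_zero hn' hb.1, ?_⟩, ?_⟩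
    · simp only [Pi.smul_apply, smul_eq_mul]
      linear_combination ((‖b‖ : ℂ)⁻¹) ^ 4 * hb.2
    · rw [mem_sphere_zero_iff_norm, norm_smul, norm_inv, Complex.norm_real, norm_norm,
        inv_mul_cancel₀ hn]
  obtain ⟨m, hm, hmax⟩ := hK.exists_isMaxOn ⟨_, hnorm b₀ hb₀⟩ (hcont.mono hKsub).norm
  have hmax' : ∀ b ∈ Cone, ‖f b‖ ≤ ‖f m‖ := by
    intro b hb
    have hn' : ((‖b‖ : ℂ)⁻¹) ≠ 0 := inv_ne_zero (by exact_mod_cast norm_ne_zero_iff.2 hb.1)
    have := hmax (hnorm b hb)
    change ‖f (((‖b‖ : ℂ)⁻¹) • b)‖ ≤ ‖f m‖ at this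
    rwa [hs b hb _ hn'] at this
  -- local constancy
  have hloc : ∀ b ∈ Cone, f b = f m → ∀ᶠ z in 𝓝 b, z ∈ Cone → f z = f m := by
    intro b hb hbm
    obtain ⟨p, hpd, hpC, hpb, hpi⟩ := local_section hb
    obtain ⟨G, H, hH, h⟩ := hf b hb
    have hcp : ContinuousAt p b := hpd.self_of_nhds.continuousAt
    have hHp : ∀ᶠ z in 𝓝 b, eval (p z) H ≠ 0 := by
      have h1 : ContinuousAt (fun z => eval (p z) H) b :=
        ContinuousAt.comp (g := fun z => eval z H) (hpoly H).continuous.continuousAt hcp
      apply h1.eventually_ne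
      rw [hpb]
      exact hH
    have hfp : ∀ᶠ z in 𝓝 b, f (p z) = eval (p z) G / eval (p z) H := by
      filter_upwards [hHp, hpC] with z hz hzC
      exact h _ hzC hz
    have hd : ∀ᶠ z in 𝓝 b, DifferentiableAt ℂ (fun z => f (p z)) z := by
      filter_upwards [hfp.eventually_nhds, hHp, hpd] with z hz hzH hzd
      have h2 : DifferentiableAt ℂ (fun z => eval (p z) G) z :=
        DifferentiableAt.comp (g := fun b => eval b G) z ((hpoly G) _) hzd
      have h3 : DifferentiableAt ℂ (fun z => eval (p z) H) z :=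
        DifferentiableAt.comp (g := fun b => eval b H) z ((hpoly H) _) hzd
      have h1 : DifferentiableAt ℂ (fun z => eval (p z) G / eval (p z) H) z :=
        by
          simp only [div_eq_mul_inv]
          exact h2.fun_mul (h3.fun_inv hzH)
      exact h1.congr_of_eventuallyEq hz
    have hlm : IsLocalMax (norm ∘ fun z => f (p z)) b := by
      filter_upwards [hpC] with z hz
      simp only [Function.comp_apply]
      rw [hpb, hbm]
      exact hmax' _ hz
    have hev := Complex.eventually_eq_of_isLocalMax_norm hd hlm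
    filter_upwards [hev, hpi] with z hz hz' hzC
    rw [hpb, hz' hzC, hbm] at hz
    exact hz
  -- connectedness
  have : PreconnectedSpace Cone := isPreconnected_iff_preconnectedSpace.1 hconn
  have hcl : IsClopen {z : Cone | f z = f m} := by
    constructor
    · exact isClosed_eq (hcont.domRestrict) continuous_const
    · rw [isOpen_iff_mem_nhds]
      rintro ⟨z, hz⟩ hzm
      have h1 := hloc z hz hzm
      have h2 : ∀ᶠ y : Cone in 𝓝 ⟨z, hz⟩, f y = f m := by
        have h3 := (continuous_subtype_val (p := fun z => z ∈ Cone)).continuousAt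
          (x := (⟨z, hz⟩ : Cone))
        filter_upwards [h3.eventually h1] with y hy
        exact hy y.2
      exact h2
  have huniv := hcl.eq_univ ⟨⟨m, hm.1⟩, rfl⟩
  have hall : ∀ b ∈ Cone, f b = f m := by
    intro b hb
    have : (⟨b, hb⟩ : Cone) ∈ {z : Cone | f z = f m} := by
      rw [huniv]
      trivial
    exact this
  rw [hall b₀ hb₀, hall b₁ hb₁]

end Pool.Agent.TH159.J850
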