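import Pool.Agent.TH144.AE.Form
import Pool.Agent.TH159.J850
import Pool.Agent.TH817.J849

/-! Job 1083 (helper144, MP_879098_ag), AE-8: a morphism of the pinched threefold which contracts
one conic is constant. -/

set_option autoImplicit false

open MvPolynomial Filter Topology

namespace Pool.Agent.TH159.J1083

open Pool.Agent.TH144.AE

/-- maximum principle on the cone, for holomorphic functions -/
theorem hol_const (hconn : IsPreconnected Cone) {f : (Fin 3 → ℂ) → ℂ}
    (hf : ∀ b ∈ Cone, ∃ g : (Fin 3 → ℂ) → ℂ, (∀ᶠ z in 𝓝 b, DifferentiableAt ℂ g z) ∧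
      ∀ᶠ z in 𝓝 b, z ∈ Cone → f z = g z)
    (hs : ∀ b ∈ Cone, ∀ a : ℂ, a ≠ 0 → f (a • b) = f b) :
    ∀ b ∈ Cone, ∀ b' ∈ Cone, f b = f b' := by
  intro b₀ hb₀ b₁ hb₁
  -- continuity
  have hcont : ContinuousOn f Cone := by
    intro b hb
    obtain ⟨g, hg, h⟩ := hf b hb
    have h1 : ContinuousWithinAt g Cone b :=
      hg.self_of_nhds.continuousAt.continuousWithinAt
    refine h1.congr_of_eventuallyEq ?_ (h.self_of_nhds hb)
    filter_upwards [h.filter_mono nhdsWithin_le_nhds, self_mem_nhdsWithin] with b' hb' hC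
    exact hb' hC
  -- the maximum
  have hKsub : Cone ∩ Metric.sphere (0 : Fin 3 → ℂ) 1 ⊆ Cone := Set.inter_subset_left
  have hK : IsCompact (Cone ∩ Metric.sphere (0 : Fin 3 → ℂ) 1) := by
    have h1 : Cone ∩ Metric.sphere (0 : Fin 3 → ℂ) 1 =
        {b | b 0 ^ 4 = b 1 ^ 4 + b 2 ^ 4} ∩ Metric.sphere (0 : Fin 3 → ℂ) 1 := by
      ext b
      constructor
      · rintro ⟨h, h'⟩
        exact ⟨h.2, h'⟩
      · rintro ⟨h, h'⟩
        refine ⟨⟨?_, h⟩, h'⟩
        rintro rfl
        simp at h'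
    rw [h1]
    refine (isCompact_sphere _ _).inter_left ?_
    exact isClosed_eq (by fun_prop) (by fun_prop)
  have hnorm : ∀ b ∈ Cone, ((‖b‖ : ℂ)⁻¹) • b ∈ Cone ∩ Metric.sphere (0 : Fin 3 → ℂ) 1 := by
    intro b hb
    have hn : ‖b‖ ≠ 0 := norm_ne_zero_iff.2 hb.1
    have hn' : ((‖b‖ : ℂ)⁻¹) ≠ 0 := inv_ne_zero (by exact_mod_cast hn)
    refine ⟨⟨smul_ne_zero hn' hb.1, ?_⟩, ?_⟩
    · simp only [Pi.smul_apply, smul_eq_mul]
      linear_combination ((‖b‖ : ℂ)⁻¹) ^ 4 * hb.2
    · rw [mem_sphere_zero_iff_norm, norm_smul, norm_inv, Complex.norm_real, norm_norm,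
        inv_mul_cancel₀ hn]
  obtain ⟨m, hm, hmax⟩ := hK.exists_isMaxOn ⟨_, hnorm b₀ hb₀⟩ (hcont.mono hKsub).norm
  have hmax' : ∀ b ∈ Cone, ‖f b‖ ≤ ‖f m‖ := by
    intro b hb
    have hn' : ((‖b‖ : ℂ)⁻¹) ≠ 0 := inv_ne_zero (by exact_mod_cast norm_ne_zero_iff.2 hb.1)
    have := hmax (hnorm b hb)
    change ‖f (((‖b‖ : ℂ)⁻¹) • b)‖ ≤ ‖f m‖ at this
    rwa [hs b hb _ hn'] at this
  -- local constancy
  have hloc : ∀ b ∈ Cone, f b = f m → ∀ᶠ z in 𝓝 b, z ∈ Cone → f z = f m := by
    intro b hb hbm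
    obtain ⟨p, hpd, hpC, hpb, hpi⟩ := J850.local_section hb
    obtain ⟨g, hg, h⟩ := hf b hb
    have hcp : ContinuousAt p b := hpd.self_of_nhds.continuousAt
    have hcp' : Tendsto p (𝓝 b) (𝓝 b) := by
      have := hcp.tendsto
      rwa [hpb] at this
    have hfp : ∀ᶠ z in 𝓝 b, f (p z) = g (p z) := by
      filter_upwards [hcp'.eventually h, hpC] with z hz hzC
      exact hz hzC
    have hd : ∀ᶠ z in 𝓝 b, DifferentiableAt ℂ (fun z => f (p z)) z := by
      filter_upwards [hfp.eventually_nhds, hcp'.eventually hg, hpd] with z hz hzg hzd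
      have h2 : DifferentiableAt ℂ (fun z => g (p z)) z :=
        DifferentiableAt.comp (g := g) z hzg hzd
      exact h2.congr_of_eventuallyEq hz
    have hlm : IsLocalMax (norm ∘ fun z => f (p z)) b := by
      filter_upwards [hpC] with z hz
      simp only [Function.comp_apply]
      rw [hpb, hbm]
      exact hmax' _ hz
    have hev := Complex.eventually_eq_of_isLocalMax_norm hd hlm
    filter_upwards [hev, hpi] with z hz hz' hzC
    rw [hpb, hz' hzC, hbm] at hz
    exact hz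
  -- connectedness
  have : PreconnectedSpace Cone := isPreconnected_iff_preconnectedSpace.1 hconn
  have hcl : IsClopen {z : Cone | f z = f m} := by
    constructor
    · exact isClosed_eq (hcont.domRestrict) continuous_const
    · rw [isOpen_iff_mem_nhds]
      rintro ⟨z, hz⟩ hzm
      have h1 := hloc z hz hzm
      have h2 : ∀ᶠ y : Cone in 𝓝 ⟨z, hz⟩, f y = f m := by
        have h3 := (continuous_subtype_val (p := fun z => z ∈ Cone)).continuousAt
          (x := (⟨z, hz⟩ : Cone))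
        filter_upwards [h3.eventually h1] with y hy
        exact hy y.2
      exact h2
  have huniv := hcl.eq_univ ⟨⟨m, hm.1⟩, rfl⟩
  have hall : ∀ b ∈ Cone, f b = f m := by
    intro b hb
    have : (⟨b, hb⟩ : Cone) ∈ {z : Cone | f z = f m} := by
      rw [huniv]
      trivial
    exact this
  rw [hall b₀ hb₀, hall b₁ hb₁]

section coord

variable {κ : Type}

/-- normalized coordinates -/
noncomputable def nrm (k0 : κ) (x : PS κ) : κ → ℂ := fun k => x.rep k / x.rep k0

lemma nrm_eq {k0 : κ} {x : PS κ} {v : κ → ℂ} (hv : IsCoord x v) (k : κ) :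
    nrm k0 x k = v k / v k0 := by
  obtain ⟨a, ha, h⟩ := hv.exists_smul (isCoord_rep x)
  unfold nrm
  rw [h]
  simp only [Pi.smul_apply, smul_eq_mul]
  rw [mul_div_mul_left _ _ ha]

lemma rep_ne {k0 : κ} {x : PS κ} {v : κ → ℂ} (hv : IsCoord x v) : x.rep k0 ≠ 0 ↔ v k0 ≠ 0 := by
  obtain ⟨a, ha, h⟩ := hv.exists_smul (isCoord_rep x)
  rw [h]
  simp [ha]

lemma isCoord_nrm {k0 : κ} {x : PS κ} (h : x.rep k0 ≠ 0) : IsCoord x (nrm k0 x) := by
  have h1 : nrm k0 x = (x.rep k0)⁻¹ • x.rep := by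
    funext k
    unfold nrm
    simp only [Pi.smul_apply, smul_eq_mul]
    rw [div_eq_inv_mul]
  rw [h1]
  exact (isCoord_rep x).smul (inv_ne_zero h)

/-- different points have coordinates which are not proportional -/
lemma exists_cross {x y : PS κ} {v w : κ → ℂ} (hv : IsCoord x v) (hw : IsCoord y w)
    (hne : x ≠ y) : ∃ i j, v i * w j ≠ v j * w i := by
  by_contra hcon
  push Not at hcon
  obtain ⟨i, hi⟩ : ∃ i, v i ≠ 0 := by
    by_contra h
    push Not at h
    exact hv.ne_zero (funext h)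
  apply hne
  have hwi : w = (w i / v i) • v := by
    funext j
    simp only [Pi.smul_apply, smul_eq_mul]
    have := hcon i j
    field_simp
    linear_combination this
  exact hv.eq_of_smul hw hwi

lemma ne_of_cross {x y : PS κ} {v w : κ → ℂ} (hv : IsCoord x v) (hw : IsCoord y w) {i j : κ}
    (h : v i * w j ≠ v j * w i) : x ≠ y := by
  rintro rfl
  obtain ⟨a, _, rfl⟩ := hv.exists_smul hw
  apply h
  simp only [Pi.smul_apply, smul_eq_mul]
  ring

end coord

/-- a family of morphisms on the curve, one of which is constant -/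
theorem family_const {κ : Type} {E : Type} [TopologicalSpace E] {S : Set E}
    (hconn : IsPreconnected Cone) (hS : IsPreconnected S) {φ : E → (Fin 3 → ℂ) → PS κ}
    (hlift : ∀ x ∈ S, ∀ e ∈ Cone, ∃ L : E → (Fin 3 → ℂ) → κ → ℂ,
      (∀ k, ContinuousAt (fun p : E × (Fin 3 → ℂ) => L p.1 p.2 k) (x, e)) ∧ L x e ≠ 0 ∧
      (∀ x k, Differentiable ℂ fun e => L x e k) ∧
      ∀ x' ∈ S, ∀ e' ∈ Cone, L x' e' ≠ 0 → IsCoord (φ x' e') (L x' e'))
    (hscale : ∀ x ∈ S, ∀ e ∈ Cone, ∀ a : ℂ, a ≠ 0 → φ x (a • e) = φ x e)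
    {x₀ : E} (hx₀ : x₀ ∈ S) (hc : ∀ e ∈ Cone, ∀ e' ∈ Cone, φ x₀ e = φ x₀ e') :
    ∀ x ∈ S, ∀ e ∈ Cone, ∀ e' ∈ Cone, φ x e = φ x e' := by
  -- the affine chart
  have hchart : ∀ x ∈ S, ∀ k0, (∀ e ∈ Cone, (φ x e).rep k0 ≠ 0) →
      ∀ e ∈ Cone, ∀ e' ∈ Cone, φ x e = φ x e' := by
    intro x hx k0 hk e he e' he'
    have hr : ∀ k, nrm k0 (φ x e) k = nrm k0 (φ x e') k := by
      intro k
      refine hol_const hconn (f := fun e => nrm k0 (φ x e) k) ?_ ?_ e he e' he'
      · intro b hb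
        obtain ⟨L, hL1, hL2, hL3, hL4⟩ := hlift x hx b hb
        have hk0 : L x b k0 ≠ 0 := (rep_ne (hL4 x hx b hb hL2)).1 (hk b hb)
        have hev : ∀ᶠ z in 𝓝 b, L x z k0 ≠ 0 :=
          (hL3 x k0).continuous.continuousAt.eventually_ne hk0
        refine ⟨fun z => L x z k / L x z k0, ?_, ?_⟩
        · filter_upwards [hev] with z hz
          simp only [div_eq_mul_inv]
          exact DifferentiableAt.fun_mul (hL3 x k z) (DifferentiableAt.fun_inv (hL3 x k0 z) hz)
        · filter_upwards [hev] with z hz hzC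
          exact nrm_eq (hL4 x hx z hzC fun h => hz (congrFun h k0)) k
      · intro b hb a ha
        rw [hscale x hx b hb a ha]
    have h1 := isCoord_nrm (hk e he)
    have h2 := isCoord_nrm (hk e' he')
    rw [show nrm k0 (φ x e) = nrm k0 (φ x e') from funext hr] at h1
    exact h1.eq h2
  have hK : IsCompact (Cone ∩ Metric.sphere (0 : Fin 3 → ℂ) 1) := by
    have h1 : Cone ∩ Metric.sphere (0 : Fin 3 → ℂ) 1 =
        {b | b 0 ^ 4 = b 1 ^ 4 + b 2 ^ 4} ∩ Metric.sphere (0 : Fin 3 → ℂ) 1 := by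
      ext b
      constructor
      · rintro ⟨h, h'⟩
        exact ⟨h.2, h'⟩
      · rintro ⟨h, h'⟩
        refine ⟨⟨?_, h⟩, h'⟩
        rintro rfl
        simp at h'
    rw [h1]
    refine (isCompact_sphere _ _).inter_left ?_
    exact isClosed_eq (by fun_prop) (by fun_prop)
  intro x₁ hx₁ e₁ he₁ e₁' he₁'
  have : PreconnectedSpace S := isPreconnected_iff_preconnectedSpace.1 hS
  have hclop : IsClopen {x : S | ∀ e ∈ Cone, ∀ e' ∈ Cone, φ x e = φ x e'} := by
    constructor
    · rw [← isOpen_compl_iff, isOpen_iff_mem_nhds]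
      rintro ⟨x, hx⟩ hxn
      simp only [Set.mem_compl_iff, Set.mem_ofPred_eq] at hxn
      push Not at hxn
      obtain ⟨e, he, e', he', hne⟩ := hxn
      obtain ⟨L, hL1, hL2, hL3, hL4⟩ := hlift x hx e he
      obtain ⟨L', hL1', hL2', hL3', hL4'⟩ := hlift x hx e' he'
      obtain ⟨i, j, hij⟩ := exists_cross (hL4 x hx e he hL2) (hL4' x hx e' he' hL2') hne
      have hcL : ∀ k, ContinuousAt (fun y : S => L y e k) ⟨x, hx⟩ := by
        intro k
        exact ContinuousAt.comp (f := fun y : S => ((y : E), e))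
          (g := fun p : E × (Fin 3 → ℂ) => L p.1 p.2 k) (hL1 k)
          (continuous_subtype_val.prodMk continuous_const).continuousAt
      have hcL' : ∀ k, ContinuousAt (fun y : S => L' y e' k) ⟨x, hx⟩ := by
        intro k
        exact ContinuousAt.comp (f := fun y : S => ((y : E), e'))
          (g := fun p : E × (Fin 3 → ℂ) => L' p.1 p.2 k) (hL1' k)
          (continuous_subtype_val.prodMk continuous_const).continuousAt
      have hd : ContinuousAt (fun y : S => L y e i * L' y e' j - L y e j * L' y e' i) ⟨x, hx⟩ :=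
        ((hcL i).mul (hcL' j)).sub ((hcL j).mul (hcL' i))
      filter_upwards [hd.eventually_ne (sub_ne_zero.2 hij)] with y hy hyc
      have hy' := sub_ne_zero.1 hy
      have hn : L y e ≠ 0 := by
        intro h
        apply hy'
        rw [h]
        simp
      have hn' : L' y e' ≠ 0 := by
        intro h
        apply hy'
        rw [h]
        simp
      exact ne_of_cross (hL4 y y.2 e he hn) (hL4' y y.2 e' he' hn') hy' (hyc e he e' he')
    · rw [isOpen_iff_mem_nhds]
      rintro ⟨x, hx⟩ hxc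
      have hxc' : ∀ e ∈ Cone, ∀ e' ∈ Cone, φ x e = φ x e' := hxc
      obtain ⟨L0, _, hL02, _, hL04⟩ := hlift x hx e₁ he₁
      obtain ⟨k0, hk0⟩ : ∃ k, L0 x e₁ k ≠ 0 := by
        by_contra h
        push Not at h
        exact hL02 (funext h)
      have hrep : ∀ e ∈ Cone, (φ x e).rep k0 ≠ 0 := by
        intro e he
        rw [hxc' e he e₁ he₁]
        exact (rep_ne (hL04 x hx e₁ he₁ hL02)).2 hk0
      have hev : ∀ᶠ x' in 𝓝 x, ∀ e ∈ Cone ∩ Metric.sphere (0 : Fin 3 → ℂ) 1,
          x' ∈ S → e ∈ Cone → (φ x' e).rep k0 ≠ 0 := by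
        refine hK.eventually_forall_of_forall_eventually ?_
        intro e he
        obtain ⟨L, hL1, hL2, hL3, hL4⟩ := hlift x hx e he.1
        have h1 : L x e k0 ≠ 0 := (rep_ne (hL4 x hx e he.1 hL2)).1 (hrep e he.1)
        filter_upwards [(hL1 k0).eventually_ne h1] with z hz hzS hzC
        exact (rep_ne (hL4 z.1 hzS z.2 hzC fun h => hz (congrFun h k0))).2 hz
      have h3 := (continuous_subtype_val (p := fun z => z ∈ S)).continuousAt
          (x := (⟨x, hx⟩ : S))
      filter_upwards [h3.eventually hev] with y hy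
      refine hchart y y.2 k0 ?_
      intro e he
      have hn : ‖e‖ ≠ 0 := norm_ne_zero_iff.2 he.1
      have hn' : ((‖e‖ : ℂ)⁻¹) ≠ 0 := inv_ne_zero (by exact_mod_cast hn)
      have he' : ((‖e‖ : ℂ)⁻¹) • e ∈ Cone := by
        refine ⟨smul_ne_zero hn' he.1, ?_⟩
        simp only [Pi.smul_apply, smul_eq_mul]
        linear_combination ((‖e‖ : ℂ)⁻¹) ^ 4 * he.2
      have h4 := hy (((‖e‖ : ℂ)⁻¹) • e) ⟨he', by
        rw [mem_sphere_zero_iff_norm, norm_smul, norm_inv, Complex.norm_real, norm_norm,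
          inv_mul_cancel₀ hn]⟩ y.2 he'
      rwa [hscale y y.2 e he _ hn'] at h4
  have huniv := hclop.eq_univ ⟨⟨x₀, hx₀⟩, hc⟩
  have h5 : (⟨x₁, hx₁⟩ : S) ∈ {x : S | ∀ e ∈ Cone, ∀ e' ∈ Cone, φ x e = φ x e'} := by
    rw [huniv]
    trivial
  exact h5 e₁ he₁ e₁' he₁'

open Classical in
/-- the point with the coordinates `v` -/
noncomputable def pt (v : Idx → ℂ) : PS Idx :=
  if h : v ≠ 0 then Projectivization.mk ℂ v h else
    Projectivization.mk ℂ (fun _ => (1 : ℂ)) (fun h => by simpa using congrFun h (Sum.inl (0, 0)))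

lemma isCoord_pt {v : Idx → ℂ} (h : v ≠ 0) : IsCoord (pt v) v := by
  unfold pt
  rw [dif_pos h]
  exact isCoord_mk h

lemma eq_pt {x : PS Idx} {v : Idx → ℂ} (h : IsCoord x v) : x = pt v :=
  h.eq (isCoord_pt h.ne_zero)

lemma pt_smul {v : Idx → ℂ} (hv : v ≠ 0) {a : ℂ} (ha : a ≠ 0) : pt (a • v) = pt v :=
  (eq_pt ((isCoord_pt hv).smul ha)).symm

lemma Phi_smul_left (a : ℂ) (b c : Fin 3 → ℂ) (s : Fin 2 → ℂ) :
    Phi (a • b) c s = (a ^ 2) • Phi b c s := by
  have h : ∀ i, Psi (a • b) c s i = a * Psi b c s i := by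
    intro i
    fin_cases i <;> simp [Psi] <;> ring
  funext p
  rcases p with ⟨i, j⟩ | ⟨k, l, m, n⟩
  · simp only [Phi, Sum.elim_inl, Pi.smul_apply, smul_eq_mul, h]
    ring
  · simp only [Phi, Sum.elim_inr, Pi.smul_apply, smul_eq_mul, lam]
    ring

lemma Phi_smul_right (a : ℂ) (b c : Fin 3 → ℂ) (s : Fin 2 → ℂ) :
    Phi b c (a • s) = (a ^ 2) • Phi b c s := by
  have h : ∀ i, Psi b c (a • s) i = a * Psi b c s i := by
    intro i
    fin_cases i <;> simp [Psi] <;> ring
  funext p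
  rcases p with ⟨i, j⟩ | ⟨k, l, m, n⟩
  · simp only [Phi, Sum.elim_inl, Pi.smul_apply, smul_eq_mul, h]
    ring
  · simp only [Phi, Sum.elim_inr, Pi.smul_apply, smul_eq_mul, lam]
    ring

/-- the total flex -/
def fl : Fin 3 → ℂ := ![1, 1, 0]

lemma fl_cone : fl ∈ Cone := by
  constructor
  · intro h
    have := congrFun h 0
    simp [fl] at this
  · simp [fl]

/-- the first two coordinates -/
def two (e : Fin 3 → ℂ) : Fin 2 → ℂ := ![e 0, e 1]

lemma two_ne {e : Fin 3 → ℂ} (he : e ∈ Cone) : two e ≠ 0 := by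
  intro h
  have h0 : e 0 = 0 := congrFun h 0
  have h1 : e 1 = 0 := congrFun h 1
  rcases cone_pair he with h' | h'
  · exact h' h0
  · exact h' h1

lemma exists_two {s : Fin 2 → ℂ} (hs : s ≠ 0) : ∃ e ∈ Cone, two e = s := by
  obtain ⟨z, hz⟩ := IsAlgClosed.exists_pow_nat_eq (s 0 ^ 4 - s 1 ^ 4) (n := 4) (by norm_num)
  have h2 : two ![s 0, s 1, z] = s := by
    funext i
    fin_cases i <;> simp [two]
  refine ⟨![s 0, s 1, z], ⟨?_, ?_⟩, h2⟩
  · intro h
    apply hs
    rw [← h2, h]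
    funext i
    fin_cases i <;> simp [two]
  · simp
    linear_combination -hz

lemma two_smul' (a : ℂ) (e : Fin 3 → ℂ) : two (a • e) = a • two e := by
  funext i
  fin_cases i <;> simp [two]

/-- symmetry -/
lemma Phi_swap1 (e e' : Fin 3 → ℂ) : Phi e fl (two e') = Phi e' fl (two e) := by
  have h : ∀ i, Psi e fl (two e') i = Psi e' fl (two e) i := by
    intro i
    fin_cases i <;> simp [Psi, fl, two] <;> ring
  funext p
  rcases p with ⟨i, j⟩ | ⟨k, l, m, n⟩
  · simp only [Phi, Sum.elim_inl, h]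
  · simp [Phi, lam, fl]

lemma Phi_swap2 (c : Fin 3 → ℂ) (s : Fin 2 → ℂ) : Phi fl c s = Phi c fl s := by
  have h : ∀ i, Psi fl c s i = Psi c fl s i := by
    intro i
    fin_cases i <;> simp [Psi, fl] <;> ring
  funext p
  rcases p with ⟨i, j⟩ | ⟨k, l, m, n⟩
  · simp only [Phi, Sum.elim_inl, h]
  · simp [Phi, lam, fl]

lemma differentiable_poly {ι : Type} [Fintype ι] (G : MvPolynomial ι ℂ) :
    Differentiable ℂ fun v : ι → ℂ => eval v G := by
  induction G using MvPolynomial.induction_on with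
  | C a => simp
  | add p q hp hq =>
    have h1 : (fun b : ι → ℂ => eval b (p + q)) = fun b => eval b p + eval b q := by
      funext b
      simp
    rw [h1]
    exact Differentiable.fun_add hp hq
  | mul_X p i hp =>
    have h1 : (fun b : ι → ℂ => eval b (p * X i)) = fun b => eval b p * b i := by
      funext b
      simp
    rw [h1]
    exact Differentiable.fun_mul hp (differentiable_apply i)

lemma continuous_Phi : Continuous fun q : (Fin 3 → ℂ) × (Fin 3 → ℂ) × (Fin 2 → ℂ) =>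
    Phi q.1 q.2.1 q.2.2 := by
  refine continuous_pi fun p => ?_
  rcases p with ⟨i, j⟩ | ⟨k, l, m, n⟩
  · have h : ∀ i, Continuous fun q : (Fin 3 → ℂ) × (Fin 3 → ℂ) × (Fin 2 → ℂ) =>
        Psi q.1 q.2.1 q.2.2 i := by
      intro i
      fin_cases i <;> simp only [Psi] <;> simp <;> fun_prop
    simp only [Phi, Sum.elim_inl]
    exact (h i).mul (h j)
  · simp only [Phi, Sum.elim_inr, lam]
    fun_prop

theorem morphism_const {κ : Type} [Finite κ] {f : PS Idx → PS κ} (hf : IsMorphism XX f)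
    {b c : Fin 3 → ℂ} (hb : b ∈ Cone) (hc : c ∈ Cone)
    (h : ∀ x ∈ XX, ∀ y ∈ XX, ∀ s t : Fin 2 → ℂ, IsCoord x (Phi b c s) → IsCoord y (Phi b c t) →
      f x = f y) :
    ∀ x ∈ XX, ∀ y ∈ XX, f x = f y := by
  have hconn := Pool.Agent.TH144.AE.cone_connected.isPreconnected
  have hmem : ∀ b ∈ Cone, ∀ c ∈ Cone, ∀ s : Fin 2 → ℂ, s ≠ 0 → pt (Phi b c s) ∈ XX :=
    fun b hb c hc s hs => ⟨b, hb, c, hc, s, hs, isCoord_pt (Phi_ne_zero hb hc hs)⟩
  -- step A
  have hA : ∀ x ∈ Cone ×ˢ Cone, ∀ e ∈ Cone, ∀ e' ∈ Cone,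
      f (pt (Phi x.1 x.2 (two e))) = f (pt (Phi x.1 x.2 (two e'))) := by
    refine family_const (S := Cone ×ˢ Cone) (x₀ := (b, c))
      (φ := fun x e => f (pt (Phi x.1 x.2 (two e)))) hconn (hconn.prod hconn) ?_ ?_ ⟨hb, hc⟩ ?_
    · rintro ⟨b, c⟩ ⟨hb, hc⟩ e he
      have hne := Phi_ne_zero hb hc (two_ne he)
      obtain ⟨d, G, hG1, hG2, hG3⟩ := hf _ (hmem b hb c hc _ (two_ne he))
      refine ⟨fun x e => evalT (Phi x.1 x.2 (two e)) G, ?_, hG2 _ (isCoord_pt hne), ?_, ?_⟩
      · intro k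
        have h1 : Continuous fun p : ((Fin 3 → ℂ) × (Fin 3 → ℂ)) × (Fin 3 → ℂ) =>
            (p.1.1, p.1.2, two p.2) := by
          unfold two
          refine (continuous_fst.comp continuous_fst).prodMk
            ((continuous_snd.comp continuous_fst).prodMk (continuous_pi fun i => ?_))
          fin_cases i
          · change Continuous fun p : ((Fin 3 → ℂ) × (Fin 3 → ℂ)) × (Fin 3 → ℂ) => p.2 0
            fun_prop
          · change Continuous fun p : ((Fin 3 → ℂ) × (Fin 3 → ℂ)) × (Fin 3 → ℂ) => p.2 1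
            fun_prop
        exact ((differentiable_poly (G k)).continuous.comp (continuous_Phi.comp h1)).continuousAt
      · intro x k
        refine (differentiable_poly (G k)).comp ?_
        refine differentiable_pi.2 fun p => ?_
        rcases p with ⟨i, j⟩ | ⟨k, l, m, n⟩
        · have hP : ∀ i, Differentiable ℂ fun e : Fin 3 → ℂ => Psi x.1 x.2 (two e) i := by
            intro i
            fin_cases i <;> simp only [Psi, two] <;> simp <;> fun_prop
          simp only [Phi, Sum.elim_inl]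
          exact Differentiable.fun_mul (hP i) (hP j)
        · simp only [Phi, Sum.elim_inr]
          have hT : ∀ i, Differentiable ℂ fun e : Fin 3 → ℂ => two e i := by
            intro i
            fin_cases i <;> simp only [two] <;> simp <;> fun_prop
          exact Differentiable.fun_mul ((differentiable_const _).fun_mul (hT m)) (hT n)
      · rintro ⟨b', c'⟩ ⟨hb', hc'⟩ e' he' hL
        exact hG3 _ (hmem b' hb' c' hc' _ (two_ne he')) _
          (isCoord_pt (Phi_ne_zero hb' hc' (two_ne he'))) hL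
    · rintro ⟨b, c⟩ ⟨hb, hc⟩ e he a ha
      simp only
      rw [two_smul', Phi_smul_right, pt_smul (Phi_ne_zero hb hc (two_ne he)) (pow_ne_zero 2 ha)]
    · intro e he e' he'
      exact h _ (hmem b hb c hc _ (two_ne he)) _ (hmem b hb c hc _ (two_ne he')) _ _
        (isCoord_pt (Phi_ne_zero hb hc (two_ne he))) (isCoord_pt (Phi_ne_zero hb hc (two_ne he')))
  have hA' : ∀ b ∈ Cone, ∀ c ∈ Cone, ∀ s t : Fin 2 → ℂ, s ≠ 0 → t ≠ 0 →
      f (pt (Phi b c s)) = f (pt (Phi b c t)) := by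
    intro b hb c hc s t hs ht
    obtain ⟨e, he, rfl⟩ := exists_two hs
    obtain ⟨e', he', rfl⟩ := exists_two ht
    exact hA (b, c) ⟨hb, hc⟩ e he e' he'
  have hs0 : (two fl) ≠ 0 := two_ne fl_cone
  have hflex : ∀ e ∈ Cone, ∀ e' ∈ Cone, f (pt (Phi e fl (two fl))) = f (pt (Phi e' fl (two fl))) := by
    intro e he e' he'
    rw [hA' e he fl fl_cone (two fl) (two e') hs0 (two_ne he'), Phi_swap1,
      hA' e' he' fl fl_cone (two e) (two fl) (two_ne he) hs0]
  -- step B
  have hB : ∀ c ∈ Cone, ∀ e ∈ Cone, ∀ e' ∈ Cone,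
      f (pt (Phi e c (two fl))) = f (pt (Phi e' c (two fl))) := by
    refine family_const (S := Cone) (x₀ := fl)
      (φ := fun c e => f (pt (Phi e c (two fl)))) hconn hconn ?_ ?_ fl_cone hflex
    · intro c hc e he
      have hne := Phi_ne_zero he hc hs0
      obtain ⟨d, G, hG1, hG2, hG3⟩ := hf _ (hmem e he c hc _ hs0)
      refine ⟨fun c e => evalT (Phi e c (two fl)) G, ?_, hG2 _ (isCoord_pt hne), ?_, ?_⟩
      · intro k
        have h1 : Continuous fun p : (Fin 3 → ℂ) × (Fin 3 → ℂ) => (p.2, p.1, two fl) :=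
          continuous_snd.prodMk (continuous_fst.prodMk continuous_const)
        exact ((differentiable_poly (G k)).continuous.comp (continuous_Phi.comp h1)).continuousAt
      · intro x k
        refine (differentiable_poly (G k)).comp ?_
        refine differentiable_pi.2 fun p => ?_
        rcases p with ⟨i, j⟩ | ⟨k, l, m, n⟩
        · have hP : ∀ i, Differentiable ℂ fun e : Fin 3 → ℂ => Psi e x (two fl) i := by
            intro i
            fin_cases i <;> simp only [Psi] <;> simp <;> fun_prop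
          simp only [Phi, Sum.elim_inl]
          exact Differentiable.fun_mul (hP i) (hP j)
        · simp only [Phi, Sum.elim_inr, lam]
          fun_prop
      · intro c' hc' e' he' hL
        exact hG3 _ (hmem e' he' c' hc' _ hs0) _ (isCoord_pt (Phi_ne_zero he' hc' hs0)) hL
    · intro c hc e he a ha
      rw [Phi_smul_left, pt_smul (Phi_ne_zero he hc hs0) (pow_ne_zero 2 ha)]
  -- conclusion
  have hfin : ∀ b ∈ Cone, ∀ c ∈ Cone, ∀ s : Fin 2 → ℂ, s ≠ 0 →
      f (pt (Phi b c s)) = f (pt (Phi fl fl (two fl))) := by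
    intro b hb c hc s hs
    rw [hA' b hb c hc s (two fl) hs hs0, hB c hc b hb fl fl_cone, Phi_swap2,
      hflex c hc fl fl_cone]
  rintro x ⟨b, hb, c, hc, s, hs, hx⟩ y ⟨b', hb', c', hc', s', hs', hy⟩
  rw [eq_pt hx, eq_pt hy, hfin b hb c hc s hs, hfin b' hb' c' hc' s' hs']

end Pool.Agent.TH159.J1083
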