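import Pool.Agent.TH144.AE.Var

/-! Job 847 (helper144, MP_879098_ag): the pinched threefold is Zariski closed. -/

set_option autoImplicit false

open MvPolynomial

namespace Pool.Agent.TH159.J847

open Pool.Agent.TH144.AE

lemma eval_smul_hom {ι : Type} {G : MvPolynomial ι ℂ} {d : ℕ} (hG : G.IsHomogeneous d)
    (a : ℂ) (v : ι → ℂ) : eval (a • v) G = a ^ d * eval v G := by
  rw [eval_eq, eval_eq, Finset.mul_sum]
  refine Finset.sum_congr rfl fun m hm => ?_
  have hm' : m.degree = d := by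
    have := hG (mem_support_iff.1 hm)
    rw [Finsupp.degree_eq_weight_one]
    exact this
  have h1 : ∏ i ∈ m.support, (a • v) i ^ m i = a ^ d * ∏ i ∈ m.support, v i ^ m i := by
    rw [← hm', Finsupp.degree_apply, ← Finset.prod_pow_eq_pow_sum, ← Finset.prod_mul_distrib]
    refine Finset.prod_congr rfl fun i _ => ?_
    rw [Pi.smul_apply, smul_eq_mul, mul_pow]
  rw [h1]
  ring

/-- the coordinates of the first block -/
noncomputable def PA (i j : Fin 4) : MvPolynomial Idx ℂ := X (Sum.inl (i, j))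
/-- the coordinates of the second block -/
noncomputable def PW (k l : Fin 3) (m n : Fin 2) : MvPolynomial Idx ℂ := X (Sum.inr (k, l, m, n))

/-- the polynomials that are `lam b * lam c * Psi i * s m` -/
noncomputable def PT (m : Fin 2) : Fin 4 → MvPolynomial Idx ℂ :=
  ![PW 0 0 0 m, PW 0 0 1 m + PW 0 1 0 m + PW 1 0 0 m, PW 0 1 1 m + PW 1 0 1 m + PW 1 1 0 m,
    PW 1 1 1 m]

lemma PA_hom (i j : Fin 4) : (PA i j).IsHomogeneous 1 := isHomogeneous_X _ _
lemma PW_hom (k l : Fin 3) (m n : Fin 2) : (PW k l m n).IsHomogeneous 1 := isHomogeneous_X _ _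

lemma PT_hom (m : Fin 2) (i : Fin 4) : (PT m i).IsHomogeneous 1 := by
  fin_cases i
  · exact PW_hom _ _ _ _
  · exact ((PW_hom _ _ _ _).add (PW_hom _ _ _ _)).add (PW_hom _ _ _ _)
  · exact ((PW_hom _ _ _ _).add (PW_hom _ _ _ _)).add (PW_hom _ _ _ _)
  · exact PW_hom _ _ _ _

/-- the coefficient vector of the evaluation at `(-1, 1)` -/
def ee : Fin 4 → ℂ := ![-1, 1, -1, 1]

/-- the homogeneous polynomials vanishing on the image of the parametrization -/
def SS : Set (MvPolynomial Idx ℂ) := {G | (∃ d, G.IsHomogeneous d) ∧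
  ∀ b ∈ Cone, ∀ c ∈ Cone, ∀ s : Fin 2 → ℂ, s ≠ 0 → eval (Phi b c s) G = 0}

lemma eval_PA (v : Idx → ℂ) (i j : Fin 4) : eval v (PA i j) = v (Sum.inl (i, j)) := by
  simp [PA]

lemma eval_PW (v : Idx → ℂ) (k l : Fin 3) (m n : Fin 2) :
    eval v (PW k l m n) = v (Sum.inr (k, l, m, n)) := by
  simp [PW]

lemma Phi_inl (b c : Fin 3 → ℂ) (s : Fin 2 → ℂ) (i j : Fin 4) :
    Phi b c s (Sum.inl (i, j)) = Psi b c s i * Psi b c s j := rfl

lemma Phi_inr (b c : Fin 3 → ℂ) (s : Fin 2 → ℂ) (k l : Fin 3) (m n : Fin 2) :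
    Phi b c s (Sum.inr (k, l, m, n)) = lam b * lam c * b k * c l * s m * s n := rfl

lemma eval_PT_Phi (b c : Fin 3 → ℂ) (s : Fin 2 → ℂ) (m : Fin 2) (i : Fin 4) :
    eval (Phi b c s) (PT m i) = lam b * lam c * Psi b c s i * s m := by
  fin_cases i
  · change eval (Phi b c s) (PW 0 0 0 m) = lam b * lam c * (b 0 * c 0 * s 0) * s m
    rw [eval_PW, Phi_inr]
    ring
  · change eval (Phi b c s) (PW 0 0 1 m + PW 0 1 0 m + PW 1 0 0 m) =
      lam b * lam c * (b 0 * c 0 * s 1 + b 0 * c 1 * s 0 + b 1 * c 0 * s 0) * s m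
    simp only [map_add, eval_PW, Phi_inr]
    ring
  · change eval (Phi b c s) (PW 0 1 1 m + PW 1 0 1 m + PW 1 1 0 m) =
      lam b * lam c * (b 0 * c 1 * s 1 + b 1 * c 0 * s 1 + b 1 * c 1 * s 0) * s m
    simp only [map_add, eval_PW, Phi_inr]
    ring
  · change eval (Phi b c s) (PW 1 1 1 m) = lam b * lam c * (b 1 * c 1 * s 1) * s m
    rw [eval_PW, Phi_inr]
    ring

/-- if the second block is a product, so are the `PT` -/
lemma eval_PT {v : Idx → ℂ} {b c : Fin 3 → ℂ} {s : Fin 2 → ℂ} {w : ℂ}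
    (h : ∀ k l m n, v (Sum.inr (k, l, m, n)) = b k * c l * s m * s n / w) (m : Fin 2)
    (i : Fin 4) : eval v (PT m i) = Psi b c s i * s m / w := by
  fin_cases i
  · change eval v (PW 0 0 0 m) = (b 0 * c 0 * s 0) * s m / w
    rw [eval_PW, h]
  · change eval v (PW 0 0 1 m + PW 0 1 0 m + PW 1 0 0 m) =
      (b 0 * c 0 * s 1 + b 0 * c 1 * s 0 + b 1 * c 0 * s 0) * s m / w
    simp only [map_add, eval_PW, h]
    ring
  · change eval v (PW 0 1 1 m + PW 1 0 1 m + PW 1 1 0 m) =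
      (b 0 * c 1 * s 1 + b 1 * c 0 * s 1 + b 1 * c 1 * s 0) * s m / w
    simp only [map_add, eval_PW, h]
    ring
  · change eval v (PW 1 1 1 m) = (b 1 * c 1 * s 1) * s m / w
    rw [eval_PW, h]

lemma eval_PT_zero {v : Idx → ℂ} (h : ∀ k l m n, v (Sum.inr (k, l, m, n)) = 0) (m : Fin 2)
    (i : Fin 4) : eval v (PT m i) = 0 := by
  have := eval_PT (v := v) (b := 0) (c := 0) (s := 0) (w := 1) (fun k l m n => by simp [h]) m i
  simpa using this

section relations

variable {v : Idx → ℂ} (hv : ∀ G ∈ SS, eval v G = 0)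

include hv

lemma relA (i j : Fin 4) : v (Sum.inl (i, j)) = v (Sum.inl (j, i)) := by
  have := hv (PA i j - PA j i) ⟨⟨1, (PA_hom _ _).sub (PA_hom _ _)⟩, fun b _ c _ s _ => by
    rw [map_sub, eval_PA, eval_PA, Phi_inl, Phi_inl]; ring⟩
  rw [map_sub, eval_PA, eval_PA] at this
  exact sub_eq_zero.1 this

lemma relAA (i j k l : Fin 4) : v (Sum.inl (i, j)) * v (Sum.inl (k, l)) =
    v (Sum.inl (k, j)) * v (Sum.inl (i, l)) := by
  have := hv (PA i j * PA k l - PA k j * PA i l) ⟨⟨2, ((PA_hom _ _).mul (PA_hom _ _)).sub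
      ((PA_hom _ _).mul (PA_hom _ _))⟩, fun b _ c _ s _ => by
    simp only [map_sub, map_mul, eval_PA, Phi_inl]; ring⟩
  simp only [map_sub, map_mul, eval_PA] at this
  exact sub_eq_zero.1 this

lemma relW (k l : Fin 3) (m n : Fin 2) :
    v (Sum.inr (k, l, m, n)) = v (Sum.inr (k, l, n, m)) := by
  have := hv (PW k l m n - PW k l n m) ⟨⟨1, (PW_hom _ _ _ _).sub (PW_hom _ _ _ _)⟩,
    fun b _ c _ s _ => by simp only [map_sub, eval_PW, Phi_inr]; ring⟩
  simp only [map_sub, eval_PW] at this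
  exact sub_eq_zero.1 this

lemma relW1 (k l : Fin 3) (m n : Fin 2) (k' l' : Fin 3) (m' n' : Fin 2) :
    v (Sum.inr (k, l, m, n)) * v (Sum.inr (k', l', m', n')) =
    v (Sum.inr (k', l, m, n)) * v (Sum.inr (k, l', m', n')) := by
  have := hv (PW k l m n * PW k' l' m' n' - PW k' l m n * PW k l' m' n')
    ⟨⟨2, ((PW_hom _ _ _ _).mul (PW_hom _ _ _ _)).sub ((PW_hom _ _ _ _).mul (PW_hom _ _ _ _))⟩,
    fun b _ c _ s _ => by simp only [map_sub, map_mul, eval_PW, Phi_inr]; ring⟩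
  simp only [map_sub, map_mul, eval_PW] at this
  exact sub_eq_zero.1 this

lemma relW2 (k l : Fin 3) (m n : Fin 2) (k' l' : Fin 3) (m' n' : Fin 2) :
    v (Sum.inr (k, l, m, n)) * v (Sum.inr (k', l', m', n')) =
    v (Sum.inr (k, l', m, n)) * v (Sum.inr (k', l, m', n')) := by
  have := hv (PW k l m n * PW k' l' m' n' - PW k l' m n * PW k' l m' n')
    ⟨⟨2, ((PW_hom _ _ _ _).mul (PW_hom _ _ _ _)).sub ((PW_hom _ _ _ _).mul (PW_hom _ _ _ _))⟩,
    fun b _ c _ s _ => by simp only [map_sub, map_mul, eval_PW, Phi_inr]; ring⟩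
  simp only [map_sub, map_mul, eval_PW] at this
  exact sub_eq_zero.1 this

lemma relW3 (k l : Fin 3) (m n : Fin 2) (k' l' : Fin 3) (m' n' : Fin 2) :
    v (Sum.inr (k, l, m, n)) * v (Sum.inr (k', l', m', n')) =
    v (Sum.inr (k, l, m', n)) * v (Sum.inr (k', l', m, n')) := by
  have := hv (PW k l m n * PW k' l' m' n' - PW k l m' n * PW k' l' m n')
    ⟨⟨2, ((PW_hom _ _ _ _).mul (PW_hom _ _ _ _)).sub ((PW_hom _ _ _ _).mul (PW_hom _ _ _ _))⟩,
    fun b _ c _ s _ => by simp only [map_sub, map_mul, eval_PW, Phi_inr]; ring⟩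
  simp only [map_sub, map_mul, eval_PW] at this
  exact sub_eq_zero.1 this

lemma relB (l : Fin 3) (m n : Fin 2) : v (Sum.inr (0, l, m, n)) ^ 4 =
    v (Sum.inr (1, l, m, n)) ^ 4 + v (Sum.inr (2, l, m, n)) ^ 4 := by
  have := hv (PW 0 l m n ^ 4 - PW 1 l m n ^ 4 - PW 2 l m n ^ 4)
    ⟨⟨4, (((PW_hom _ _ _ _).pow 4).sub ((PW_hom _ _ _ _).pow 4)).sub ((PW_hom _ _ _ _).pow 4)⟩,
    fun b hb c _ s _ => by
      simp only [map_sub, map_pow, eval_PW, Phi_inr]
      linear_combination (lam b * lam c * c l * s m * s n) ^ 4 * hb.2⟩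
  simp only [map_sub, map_pow, eval_PW] at this
  linear_combination this

lemma relC (k : Fin 3) (m n : Fin 2) : v (Sum.inr (k, 0, m, n)) ^ 4 =
    v (Sum.inr (k, 1, m, n)) ^ 4 + v (Sum.inr (k, 2, m, n)) ^ 4 := by
  have := hv (PW k 0 m n ^ 4 - PW k 1 m n ^ 4 - PW k 2 m n ^ 4)
    ⟨⟨4, (((PW_hom _ _ _ _).pow 4).sub ((PW_hom _ _ _ _).pow 4)).sub ((PW_hom _ _ _ _).pow 4)⟩,
    fun b _ c hc s _ => by
      simp only [map_sub, map_pow, eval_PW, Phi_inr]
      linear_combination (lam b * lam c * b k * s m * s n) ^ 4 * hc.2⟩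
  simp only [map_sub, map_pow, eval_PW] at this
  linear_combination this

lemma relT (i j : Fin 4) (m n : Fin 2) : v (Sum.inl (i, j)) *
    (v (Sum.inr (0, 0, m, n)) - v (Sum.inr (1, 0, m, n)) - v (Sum.inr (0, 1, m, n)) +
      v (Sum.inr (1, 1, m, n))) = eval v (PT m i) * eval v (PT n j) := by
  have := hv (PA i j * (PW 0 0 m n - PW 1 0 m n - PW 0 1 m n + PW 1 1 m n) - PT m i * PT n j)
    ⟨⟨2, ((PA_hom _ _).mul ((((PW_hom _ _ _ _).sub (PW_hom _ _ _ _)).sub (PW_hom _ _ _ _)).add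
      (PW_hom _ _ _ _))).sub ((PT_hom _ _).mul (PT_hom _ _))⟩,
    fun b _ c _ s _ => by
      simp only [map_sub, map_mul, map_add, eval_PW, eval_PA, Phi_inr, Phi_inl, eval_PT_Phi]
      unfold lam
      ring⟩
  simp only [map_sub, map_mul, map_add, eval_PW, eval_PA] at this
  exact sub_eq_zero.1 this

lemma relE (j : Fin 4) : -v (Sum.inl (0, j)) + v (Sum.inl (1, j)) - v (Sum.inl (2, j)) +
    v (Sum.inl (3, j)) = - (eval v (PT 0 j) - eval v (PT 1 j)) := by
  have := hv (-PA 0 j + PA 1 j - PA 2 j + PA 3 j + (PT 0 j - PT 1 j))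
    ⟨⟨1, ((((PA_hom _ _).neg.add (PA_hom _ _)).sub (PA_hom _ _)).add (PA_hom _ _)).add
      ((PT_hom _ _).sub (PT_hom _ _))⟩,
    fun b _ c _ s _ => by
      simp only [map_sub, map_neg, map_add, eval_PA, Phi_inl, eval_PT_Phi]
      have h0 : Psi b c s 0 = b 0 * c 0 * s 0 := rfl
      have h1 : Psi b c s 1 = b 0 * c 0 * s 1 + b 0 * c 1 * s 0 + b 1 * c 0 * s 0 := rfl
      have h2 : Psi b c s 2 = b 0 * c 1 * s 1 + b 1 * c 0 * s 1 + b 1 * c 1 * s 0 := rfl
      have h3 : Psi b c s 3 = b 1 * c 1 * s 1 := rfl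
      unfold lam
      linear_combination Psi b c s j * (-h0 + h1 - h2 + h3)⟩
  simp only [map_sub, map_neg, map_add, eval_PA] at this
  linear_combination this

end relations

/-- a binary cubic form divisible by `X + Y` is `Psi b (1, 1, 0) s` -/
lemma exists_factor {a : Fin 4 → ℂ} (ha : a ≠ 0) (he : -a 0 + a 1 - a 2 + a 3 = 0) :
    ∃ (b : Fin 3 → ℂ) (s : Fin 2 → ℂ), b ∈ Cone ∧ s ≠ 0 ∧ Psi b ![1, 1, 0] s = a := by
  obtain ⟨β0, β1, σ0, σ1, h0, h1, h2⟩ : ∃ β0 β1 σ0 σ1 : ℂ, β0 * σ0 = a 0 ∧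
      β0 * σ1 + β1 * σ0 = a 1 - a 0 ∧ β1 * σ1 = a 3 := by
    by_cases h : a 0 = 0
    · exact ⟨0, 1, a 1 - a 0, a 3, by simp [h], by ring, by ring⟩
    · obtain ⟨δ, hδ⟩ := IsAlgClosed.exists_pow_nat_eq
        ((a 1 - a 0) ^ 2 - 4 * a 0 * a 3) (n := 2) (by norm_num)
      set r : ℂ := (-(a 1 - a 0) + δ) / (2 * a 0) with hr
      have hr' : r * (2 * a 0) = -(a 1 - a 0) + δ := by rw [hr]; field_simp
      have hroot : a 0 * r ^ 2 + (a 1 - a 0) * r + a 3 = 0 := by
        have h4 : 4 * a 0 * (a 0 * r ^ 2 + (a 1 - a 0) * r + a 3) = 0 := by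
          linear_combination (r * (2 * a 0) + (a 1 - a 0) + δ) * hr' + hδ
        rcases mul_eq_zero.1 h4 with h5 | h5
        · exact absurd h5 (mul_ne_zero (by norm_num) h)
        · exact h5
      refine ⟨1, -r, a 0, a 1 - a 0 + a 0 * r, by ring, by ring, ?_⟩
      linear_combination -hroot
  obtain ⟨β2, hβ2⟩ := IsAlgClosed.exists_pow_nat_eq (β0 ^ 4 - β1 ^ 4) (n := 4) (by norm_num)
  have hPsi : Psi ![β0, β1, β2] ![1, 1, 0] ![σ0, σ1] = a := by
    funext i
    fin_cases i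
    · simp [Psi]; exact h0
    · simp [Psi]; linear_combination h0 + h1
    · simp [Psi]; linear_combination h1 + h2 + he
    · simp [Psi]; exact h2
  have hne : Psi ![β0, β1, β2] ![1, 1, 0] ![σ0, σ1] ≠ 0 := hPsi ▸ ha
  refine ⟨![β0, β1, β2], ![σ0, σ1], ⟨?_, ?_⟩, ?_, hPsi⟩
  · intro h
    apply hne
    rw [h]
    funext i
    fin_cases i <;> simp [Psi]
  · simp
    linear_combination -hβ2
  · intro h
    apply hne
    rw [h]
    funext i
    fin_cases i <;> simp [Psi]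

lemma cone_110 : (![1, 1, 0] : Fin 3 → ℂ) ∈ Cone := by
  constructor
  · intro h
    have := congrFun h 0
    simp at this
  · simp

theorem mem_of_rel {x : PS Idx} {v : Idx → ℂ} (hx : IsCoord x v)
    (hv : ∀ G ∈ SS, eval v G = 0) : x ∈ XX := by
  by_cases hW : ∃ k l m n, v (Sum.inr (k, l, m, n)) ≠ 0
  · obtain ⟨k0, l0, m0, n0, h0⟩ := hW
    have hw : v (Sum.inr (k0, l0, m0, m0)) ≠ 0 := by
      intro h
      have h1 := relW3 hv k0 l0 m0 n0 k0 l0 n0 m0
      rw [← relW hv k0 l0 m0 n0] at h1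
      have h2 : v (Sum.inr (k0, l0, m0, n0)) * v (Sum.inr (k0, l0, m0, n0)) = 0 := by
        rw [h1, h, mul_zero]
      exact h0 (mul_self_eq_zero.1 h2)
    set w := v (Sum.inr (k0, l0, m0, m0)) with hwdef
    let b : Fin 3 → ℂ := fun k => v (Sum.inr (k, l0, m0, m0))
    let c : Fin 3 → ℂ := fun l => v (Sum.inr (k0, l, m0, m0))
    let s : Fin 2 → ℂ := fun m => v (Sum.inr (k0, l0, m, m0))
    have hbC : b ∈ Cone := ⟨fun h => hw (congrFun h k0), relB hv l0 m0 m0⟩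
    have hcC : c ∈ Cone := ⟨fun h => hw (congrFun h l0), relC hv k0 m0 m0⟩
    have hs : s ≠ 0 := fun h => hw (congrFun h m0)
    have hprod : ∀ k l m n, v (Sum.inr (k, l, m, n)) = b k * c l * s m * s n / w ^ 3 := by
      intro k l m n
      have e1 := relW1 hv k l m n k0 l0 m0 m0
      have e2 := relW2 hv k0 l m n k0 l0 m0 m0
      have e3 := relW3 hv k0 l0 m n k0 l0 m0 m0
      have e4 := relW hv k0 l0 m0 n
      rw [← hwdef] at e1 e2 e3
      rw [e4] at e3
      rw [eq_div_iff (pow_ne_zero 3 hw)]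
      simp only [b, c, s]
      linear_combination w ^ 2 * e1 + v (Sum.inr (k, l0, m0, m0)) * w * e2 +
        v (Sum.inr (k, l0, m0, m0)) * v (Sum.inr (k0, l, m0, m0)) * e3
    have hsm : s m0 = w := rfl
    have hA : ∀ i j, v (Sum.inl (i, j)) * (lam b * lam c) * w ^ 3 =
        Psi b c s i * Psi b c s j := by
      intro i j
      have h1 := relT hv i j m0 m0
      rw [eval_PT hprod, eval_PT hprod, hprod, hprod, hprod, hprod, hsm] at h1
      unfold lam
      have hw' := hw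
      field_simp at h1
      linear_combination h1
    have hPsi := Psi_ne_zero (cone_pair hbC) (cone_pair hcC) hs
    have hll : lam b * lam c ≠ 0 := by
      intro h
      apply hPsi
      funext i
      have := hA i i
      rw [h, mul_zero, zero_mul] at this
      exact mul_self_eq_zero.1 this.symm
    refine ⟨b, hbC, c, hcC, s, hs, ?_⟩
    have hPhi : Phi b c s = (lam b * lam c * w ^ 3) • v := by
      funext p
      rcases p with ⟨i, j⟩ | ⟨k, l, m, n⟩
      · rw [Phi_inl, ← hA i j, Pi.smul_apply, smul_eq_mul]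
        ring
      · rw [Phi_inr, Pi.smul_apply, smul_eq_mul, hprod]
        field_simp
    rw [hPhi]
    exact hx.smul (mul_ne_zero hll (pow_ne_zero 3 hw))
  · push Not at hW
    obtain ⟨i0, hi0⟩ : ∃ i, v (Sum.inl (i, i)) ≠ 0 := by
      by_contra h
      push Not at h
      apply hx.ne_zero
      funext p
      rcases p with ⟨i, j⟩ | ⟨k, l, m, n⟩
      · have h1 := relAA hv i j j i
        rw [← relA hv i j, h j, zero_mul] at h1
        exact mul_self_eq_zero.1 h1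
      · exact hW k l m n
    let a : Fin 4 → ℂ := fun i => v (Sum.inl (i, i0))
    have ha : a ≠ 0 := fun h => hi0 (congrFun h i0)
    have he : -a 0 + a 1 - a 2 + a 3 = 0 := by
      have := relE hv i0
      rw [eval_PT_zero hW, eval_PT_zero hW, sub_zero, neg_zero] at this
      exact this
    obtain ⟨b, s, hb, hs, hP⟩ := exists_factor ha he
    refine ⟨b, hb, ![1, 1, 0], cone_110, s, hs, ?_⟩
    have hPhi : Phi b ![1, 1, 0] s = (v (Sum.inl (i0, i0))) • v := by
      funext p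
      rcases p with ⟨i, j⟩ | ⟨k, l, m, n⟩
      · rw [Phi_inl, hP, Pi.smul_apply, smul_eq_mul]
        have h1 := relAA hv i0 i0 i j
        rw [relA hv i0 j] at h1
        exact h1.symm
      · rw [Phi_inr, Pi.smul_apply, smul_eq_mul, hW]
        simp [lam]
    rw [hPhi]
    exact hx.smul hi0

theorem XX_closed : ∃ S : Set (MvPolynomial Idx ℂ), (∀ G ∈ S, ∃ d, G.IsHomogeneous d) ∧
    ∀ x v, IsCoord x v → (x ∈ XX ↔ ∀ G ∈ S, eval v G = 0) := by
  refine ⟨SS, fun G hG => hG.1, fun x v hx => ⟨?_, mem_of_rel hx⟩⟩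
  rintro ⟨b, hb, c, hc, s, hs, h⟩ G ⟨⟨d, hd⟩, hG⟩
  obtain ⟨a, _, rfl⟩ := h.exists_smul hx
  rw [eval_smul_hom hd, hG b hb c hc s hs, mul_zero]

end Pool.Agent.TH159.J847
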