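import Pool.Agent.TH716.TW.Defs

/-! Job 1406 (helper716, MP_817449_lc), TW2: valuations of the coordinates and of the differences of
the abscissas. -/

set_option autoImplicit false

namespace Pool.Agent.TH159.J1406

open Pool.Agent.TH716.TW

section nrm

variable {s : ℕ} [hs : Fact s.Prime]

lemma nadd_le {a b c : ℚ} (ha : padicNorm s a ≤ c) (hb : padicNorm s b ≤ c) :
    padicNorm s (a + b) ≤ c := (padicNorm.nonarchimedean).trans (max_le ha hb)

lemma nadd_lt {a b c : ℚ} (ha : padicNorm s a < c) (hb : padicNorm s b < c) :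
    padicNorm s (a + b) < c := (padicNorm.nonarchimedean).trans_lt (max_lt ha hb)

lemma nsub_le {a b c : ℚ} (ha : padicNorm s a ≤ c) (hb : padicNorm s b ≤ c) :
    padicNorm s (a - b) ≤ c := (padicNorm.sub).trans (max_le ha hb)

lemma nsub_lt {a b c : ℚ} (ha : padicNorm s a < c) (hb : padicNorm s b < c) :
    padicNorm s (a - b) < c := (padicNorm.sub).trans_lt (max_lt ha hb)

lemma nadd_eq {a b : ℚ} (h : padicNorm s b < padicNorm s a) :
    padicNorm s (a + b) = padicNorm s a := by
  rw [padicNorm.add_eq_max_of_ne h.ne', max_eq_left h.le]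

lemma nsub_eq {a b : ℚ} (h : padicNorm s b < padicNorm s a) :
    padicNorm s (a - b) = padicNorm s a := by
  rw [sub_eq_add_neg]
  exact nadd_eq (by rwa [padicNorm.neg])

lemma nsq (a : ℚ) : padicNorm s (a ^ 2) = padicNorm s a ^ 2 := by
  rw [sq, sq, padicNorm.mul]

lemma ncb (a : ℚ) : padicNorm s (a ^ 3) = padicNorm s a ^ 3 := by
  rw [pow_succ, padicNorm.mul, nsq]
  ring

lemma nint (m : ℤ) : padicNorm s (m : ℚ) ≤ 1 := padicNorm.of_int m

lemma nmul_le {a b : ℚ} (ha : padicNorm s a ≤ 1) (hb : padicNorm s b ≤ 1) :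
    padicNorm s (a * b) ≤ 1 := by
  rw [padicNorm.mul]
  exact mul_le_one₀ ha (padicNorm.nonneg b) hb

lemma nmul_lt {a b : ℚ} (ha : padicNorm s a < 1) (hb : padicNorm s b ≤ 1) :
    padicNorm s (a * b) < 1 := by
  rw [padicNorm.mul]
  calc padicNorm s a * padicNorm s b ≤ padicNorm s a * 1 :=
        mul_le_mul_of_nonneg_left hb (padicNorm.nonneg a)
    _ < 1 := by rwa [mul_one]

/-- Gauss' lemma -/
lemma gauss (a b : ℚ) : max 1 (padicNorm s a) * max 1 (padicNorm s b) =
    max 1 (max (padicNorm s (a + b)) (padicNorm s (a * b))) := by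
  have ha := padicNorm.nonneg (p := s) a
  have hb := padicNorm.nonneg (p := s) b
  rcases le_or_gt (padicNorm s a) 1 with h1 | h1
  · rcases le_or_gt (padicNorm s b) 1 with h2 | h2
    · rw [max_eq_left h1, max_eq_left h2, max_eq_left (max_le (nadd_le h1 h2) (nmul_le h1 h2)),
        one_mul]
    · rw [max_eq_left h1, max_eq_right h2.le, one_mul, add_comm, nadd_eq (h1.trans_lt h2),
        padicNorm.mul, max_eq_left (mul_le_of_le_one_left hb h1), max_eq_right h2.le]
  · rcases le_or_gt (padicNorm s b) 1 with h2 | h2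
    · rw [max_eq_left h2, max_eq_right h1.le, mul_one, nadd_eq (h2.trans_lt h1),
        padicNorm.mul, max_eq_left (mul_le_of_le_one_right ha h2), max_eq_right h1.le]
    · rw [max_eq_right h2.le, max_eq_right h1.le, padicNorm.mul, max_eq_right (a := padicNorm s (a + b)),
        max_eq_right]
      · nlinarith
      · refine nadd_le ?_ ?_ <;> nlinarith

lemma both_lt {a b : ℚ} (h1 : padicNorm s (a + b) < 1) (h2 : padicNorm s (a * b) < 1) :
    padicNorm s a < 1 ∧ padicNorm s b < 1 := by
  rw [padicNorm.mul] at h2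
  have key : ∀ a b : ℚ, padicNorm s (a + b) < 1 → padicNorm s a * padicNorm s b < 1 →
      padicNorm s a < 1 := by
    intro a b h1 h2
    by_contra hcon
    push Not at hcon
    have hb := padicNorm.nonneg (p := s) b
    have h3 : padicNorm s b < 1 := by nlinarith
    rw [nadd_eq (h3.trans_le hcon)] at h1
    linarith
  exact ⟨key a b h1 h2, key b a (by rwa [add_comm]) (by rwa [mul_comm])⟩

lemma both_gt {a b : ℚ} (h1 : padicNorm s (a + b) < padicNorm s (a * b))
    (h2 : 1 < padicNorm s (a * b)) : 1 < padicNorm s a ∧ 1 < padicNorm s b := by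
  rw [padicNorm.mul] at h1 h2
  have key : ∀ a b : ℚ, padicNorm s (a + b) < padicNorm s a * padicNorm s b →
      1 < padicNorm s a * padicNorm s b → 1 < padicNorm s b := by
    intro a b h1 h2
    by_contra hcon
    push Not at hcon
    have ha := padicNorm.nonneg (p := s) a
    have hb := padicNorm.nonneg (p := s) b
    have h3 : 1 < padicNorm s a := by nlinarith
    rw [nadd_eq (hcon.trans_lt h3)] at h1
    nlinarith
  exact ⟨key b a (by rwa [add_comm, mul_comm]) (by rwa [mul_comm]), key a b h1 h2⟩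

lemma split {a b : ℚ} (h1 : 1 < padicNorm s (a + b))
    (h2 : padicNorm s (a * b) < padicNorm s (a + b)) :
    (padicNorm s a < 1 ∧ 1 < padicNorm s b) ∨ (1 < padicNorm s a ∧ padicNorm s b < 1) := by
  rw [padicNorm.mul] at h2
  have ha := padicNorm.nonneg (p := s) a
  have hb := padicNorm.nonneg (p := s) b
  rcases lt_trichotomy (padicNorm s a) (padicNorm s b) with h | h | h
  · rw [add_comm, nadd_eq h] at h1 h2
    left
    refine ⟨?_, h1⟩
    by_contra hcon
    push Not at hcon
    nlinarith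
  · exfalso
    have h3 : padicNorm s (a + b) ≤ padicNorm s b := nadd_le h.le le_rfl
    rw [h] at h2
    nlinarith
  · rw [nadd_eq h] at h1 h2
    right
    refine ⟨h1, ?_⟩
    by_contra hcon
    push Not at hcon
    nlinarith

lemma nint_one {m : ℤ} (h : ¬ (s : ℤ) ∣ m) : padicNorm s (m : ℚ) = 1 :=
  (padicNorm.int_eq_one_iff m).2 h

lemma nint_lt {m : ℤ} (h : (s : ℤ) ∣ m) : padicNorm s (m : ℚ) < 1 :=
  (padicNorm.int_lt_one_iff m).2 h

/-- `9 x`-free identities modulo the difference of the abscissas -/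
lemma key_int {x X y : ℚ} (h : y ^ 2 = x ^ 3 - 3 * x + 1) (hx : padicNorm s x ≤ 1)
    (hgood : s = 2 ∨ s = 3 → padicNorm s x ≠ 1)
    (h1 : padicNorm s (x - X) < 1)
    (h2 : padicNorm s (2 * (x + X) * (x * X - 3) + 4) < 1) :
    ¬ padicNorm s ((x * X + 3) ^ 2 - 4 * (x + X)) < 1 := by
  intro h3
  obtain ⟨t, ht⟩ : ∃ t, t = x - X := ⟨_, rfl⟩
  have hXt : X = x - t := by rw [ht]; ring
  rw [← ht] at h1
  have i2 := nint (s := s) 2
  have i3 := nint (s := s) 3
  have i4 := nint (s := s) 4
  have i6 := nint (s := s) 6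
  have i8 := nint (s := s) 8
  have i9 := nint (s := s) 9
  have i1 := nint (s := s) 1
  push_cast at i1 i2 i3 i4 i6 i8 i9
  have hx2 : padicNorm s (x ^ 2) ≤ 1 := by rw [nsq]; exact pow_le_one₀ (padicNorm.nonneg x) hx
  -- the second number is `4 f(x)`
  have e2 : 4 * y ^ 2 = (2 * (x + X) * (x * X - 3) + 4) - t * (6 + 2 * (t * x) - 6 * x ^ 2) := by
    rw [hXt, h]
    ring
  have g2 : padicNorm s (4 * y ^ 2) < 1 := by
    rw [e2]
    refine nsub_lt h2 (nmul_lt h1 ?_)
    exact nsub_le (nadd_le i6 (nmul_le i2 (nmul_le h1.le hx))) (nmul_le i6 hx2)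
  have e3 : x ^ 2 * x ^ 2 + 6 * x ^ 2 - 8 * x + 9 = ((x * X + 3) ^ 2 - 4 * (x + X)) -
      t * (4 + t * x ^ 2 - 2 * (x * (x ^ 2 + 3))) := by
    rw [hXt]
    ring
  have g3 : padicNorm s (x ^ 2 * x ^ 2 + 6 * x ^ 2 - 8 * x + 9) < 1 := by
    rw [e3]
    refine nsub_lt h3 (nmul_lt h1 ?_)
    exact nsub_le (nadd_le i4 (nmul_le h1.le hx2)) (nmul_le i2 (nmul_le hx (nadd_le hx2 i3)))
  by_cases hs2 : s = 2
  · have hx1 : padicNorm s x < 1 := lt_of_le_of_ne hx (hgood (Or.inl hs2))
    have g9 : padicNorm s ((9 : ℤ) : ℚ) = 1 := nint_one (by rw [hs2]; norm_num)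
    push_cast at g9
    have hx2' : padicNorm s (x ^ 2) < 1 := by
      rw [sq]; exact nmul_lt hx1 hx
    have e4 : (9 : ℚ) = (x ^ 2 * x ^ 2 + 6 * x ^ 2 - 8 * x + 9) -
        (x ^ 2 * x ^ 2 + x ^ 2 * 6 - x * 8) := by ring
    rw [e4] at g9
    have : padicNorm s ((x ^ 2 * x ^ 2 + 6 * x ^ 2 - 8 * x + 9) -
        (x ^ 2 * x ^ 2 + x ^ 2 * 6 - x * 8)) < 1 :=
      nsub_lt g3 (nsub_lt (nadd_lt (nmul_lt hx2' hx2) (nmul_lt hx2' i6)) (nmul_lt hx1 i8))
    linarith
  · have hsp : s.Prime := hs.out
    have g4 : padicNorm s ((4 : ℤ) : ℚ) = 1 := by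
      refine nint_one fun hd => hs2 ?_
      have h5 : s ∣ 2 ^ 2 := by
        have : (s : ℤ) ∣ ((2 ^ 2 : ℕ) : ℤ) := by exact_mod_cast hd
        exact_mod_cast this
      exact (Nat.prime_dvd_prime_iff_eq hsp Nat.prime_two).1 (hsp.dvd_of_dvd_pow h5)
    push_cast at g4
    have gf : padicNorm s (x ^ 3 - 3 * x + 1) < 1 := by
      rw [← h]
      rw [padicNorm.mul, g4, one_mul] at g2
      exact g2
    by_cases hs3 : s = 3
    · have hx1 : padicNorm s x < 1 := lt_of_le_of_ne hx (hgood (Or.inr hs3))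
      have g1 : padicNorm s (1 : ℚ) = 1 := padicNorm.one
      have e4 : (1 : ℚ) = (x ^ 3 - 3 * x + 1) - (x * x ^ 2 - x * 3) := by ring
      rw [e4] at g1
      have : padicNorm s ((x ^ 3 - 3 * x + 1) - (x * x ^ 2 - x * 3)) < 1 :=
        nsub_lt gf (nsub_lt (nmul_lt hx1 hx2) (nmul_lt hx1 i3))
      have g1' : padicNorm s ((x ^ 3 - 3 * x + 1) - (x * x ^ 2 - x * 3)) = 1 := by
        rw [← e4]
        exact padicNorm.one
      linarith
    · have g33 : padicNorm s ((3 : ℤ) : ℚ) = 1 := by
        refine nint_one fun hd => hs3 ?_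
        have h5 : s ∣ 3 := by exact_mod_cast hd
        exact (Nat.prime_dvd_prime_iff_eq hsp Nat.prime_three).1 h5
      push_cast at g33
      have e5 : (3 * (x ^ 2 - 1)) ^ 2 = (x ^ 2 * x ^ 2 + 6 * x ^ 2 - 8 * x + 9) +
          (x ^ 3 - 3 * x + 1) * (8 * x) := by ring
      have g5 : padicNorm s ((3 * (x ^ 2 - 1)) ^ 2) < 1 := by
        rw [e5]
        exact nadd_lt g3 (nmul_lt gf (nmul_le i8 hx))
      rw [nsq, padicNorm.mul, g33, one_mul] at g5
      have g6 : padicNorm s (x ^ 2 - 1) < 1 := by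
        by_contra hcon
        push Not at hcon
        nlinarith
      have e6 : (3 : ℚ) = (x ^ 2 - 1) * (2 * x ^ 2 + x - 4) -
          (x ^ 3 - 3 * x + 1) * (1 + 2 * x) := by ring
      have g7 : padicNorm s ((x ^ 2 - 1) * (2 * x ^ 2 + x - 4) -
          (x ^ 3 - 3 * x + 1) * (1 + 2 * x)) < 1 :=
        nsub_lt (nmul_lt g6 (nsub_le (nadd_le (nmul_le i2 hx2) hx) i4))
          (nmul_lt gf (nadd_le i1 (nmul_le i2 hx)))
      rw [← e6, g33] at g7
      linarith

/-- the maximum of the three numbers -/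
lemma key {x X y : ℚ} (h : y ^ 2 = x ^ 3 - 3 * x + 1)
    (hgood : s = 2 ∨ s = 3 → padicNorm s x ≠ 1) :
    max (padicNorm s (x - X) ^ 2) (max (padicNorm s (2 * (x + X) * (x * X - 3) + 4))
      (padicNorm s ((x * X + 3) ^ 2 - 4 * (x + X)))) =
      max 1 (padicNorm s x) ^ 2 * max 1 (padicNorm s X) ^ 2 := by
  have i2 := nint (s := s) 2
  have i3 := nint (s := s) 3
  have i4 := nint (s := s) 4
  push_cast at i2 i3 i4
  have nx := padicNorm.nonneg (p := s) x
  have nX := padicNorm.nonneg (p := s) X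
  rcases le_or_gt (padicNorm s x) 1 with hx | hx
  · rcases le_or_gt (padicNorm s X) 1 with hX | hX
    · rw [max_eq_left hx, max_eq_left hX]
      have b1 : padicNorm s (x - X) ≤ 1 := nsub_le hx hX
      have b2 : padicNorm s (2 * (x + X) * (x * X - 3) + 4) ≤ 1 :=
        nadd_le (nmul_le (nmul_le i2 (nadd_le hx hX)) (nsub_le (nmul_le hx hX) i3)) i4
      have b3 : padicNorm s ((x * X + 3) ^ 2 - 4 * (x + X)) ≤ 1 := by
        refine nsub_le ?_ (nmul_le i4 (nadd_le hx hX))
        rw [nsq]
        exact pow_le_one₀ (padicNorm.nonneg _) (nadd_le (nmul_le hx hX) i3)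
      have b1' : padicNorm s (x - X) ^ 2 ≤ 1 := pow_le_one₀ (padicNorm.nonneg _) b1
      norm_num
      refine le_antisymm (max_le b1' (max_le b2 b3)) ?_
      rcases b1.lt_or_eq with c1 | c1
      · rcases b2.lt_or_eq with c2 | c2
        · have c3 := not_lt.1 (key_int h hx hgood c1 c2)
          exact le_max_of_le_right (le_max_of_le_right c3)
        · exact le_max_of_le_right (le_max_of_le_left c2.ge)
      · rw [c1, one_pow]
        exact le_max_left _ _
    · rw [max_eq_left hx, max_eq_right hX.le, one_pow, one_mul]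
      have a1 : padicNorm s (x - X) = padicNorm s X := by
        rw [← padicNorm.neg, neg_sub]
        exact nsub_eq (hx.trans_lt hX)
      rw [a1]
      apply max_eq_left
      have b1 : padicNorm s (x + X) ≤ padicNorm s X := nadd_le (hx.trans hX.le) le_rfl
      have b2 : padicNorm s (x * X) ≤ padicNorm s X := by
        rw [padicNorm.mul]
        exact mul_le_of_le_one_left nX hx
      have b0 : (1 : ℚ) ≤ padicNorm s X ^ 2 := one_le_pow₀ hX.le
      refine max_le ?_ ?_
      · refine nadd_le ?_ (i4.trans b0)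
        rw [padicNorm.mul, padicNorm.mul, sq]
        have b3 : padicNorm s (x * X - 3) ≤ padicNorm s X := nsub_le b2 (i3.trans hX.le)
        have b4 : padicNorm s 2 * padicNorm s (x + X) ≤ padicNorm s X := by
          calc padicNorm s 2 * padicNorm s (x + X) ≤ 1 * padicNorm s X :=
                mul_le_mul i2 b1 (padicNorm.nonneg _) zero_le_one
            _ = _ := one_mul _
        exact mul_le_mul b4 b3 (padicNorm.nonneg _) nX
      · refine nsub_le ?_ ?_
        · rw [nsq]
          exact pow_le_pow_left₀ (padicNorm.nonneg _) (nadd_le b2 (i3.trans hX.le)) 2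
        · rw [padicNorm.mul]
          have b5 := padicNorm.nonneg (p := s) (x + X)
          have b6 := padicNorm.nonneg (p := s) 4
          nlinarith
  · rcases le_or_gt (padicNorm s X) 1 with hX | hX
    · rw [max_eq_right hx.le, max_eq_left hX, one_pow, mul_one]
      have a1 : padicNorm s (x - X) = padicNorm s x := nsub_eq (hX.trans_lt hx)
      rw [a1]
      apply max_eq_left
      have b1 : padicNorm s (x + X) ≤ padicNorm s x := nadd_le le_rfl (hX.trans hx.le)
      have b2 : padicNorm s (x * X) ≤ padicNorm s x := by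
        rw [padicNorm.mul]
        exact mul_le_of_le_one_right nx hX
      have b0 : (1 : ℚ) ≤ padicNorm s x ^ 2 := one_le_pow₀ hx.le
      refine max_le ?_ ?_
      · refine nadd_le ?_ (i4.trans b0)
        rw [padicNorm.mul, padicNorm.mul, sq]
        have b3 : padicNorm s (x * X - 3) ≤ padicNorm s x := nsub_le b2 (i3.trans hx.le)
        have b4 : padicNorm s 2 * padicNorm s (x + X) ≤ padicNorm s x := by
          calc padicNorm s 2 * padicNorm s (x + X) ≤ 1 * padicNorm s x :=
                mul_le_mul i2 b1 (padicNorm.nonneg _) zero_le_one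
            _ = _ := one_mul _
        exact mul_le_mul b4 b3 (padicNorm.nonneg _) nx
      · refine nsub_le ?_ ?_
        · rw [nsq]
          exact pow_le_pow_left₀ (padicNorm.nonneg _) (nadd_le b2 (i3.trans hx.le)) 2
        · rw [padicNorm.mul]
          have b5 := padicNorm.nonneg (p := s) (x + X)
          have b6 := padicNorm.nonneg (p := s) 4
          nlinarith
    · rw [max_eq_right hx.le, max_eq_right hX.le, ← mul_pow, ← padicNorm.mul]
      have b1 : padicNorm s (x + X) < padicNorm s (x * X) := by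
        rw [padicNorm.mul]
        refine nadd_lt ?_ ?_ <;> nlinarith
      have b1' : padicNorm s (x - X) < padicNorm s (x * X) := by
        rw [padicNorm.mul]
        refine nsub_lt ?_ ?_ <;> nlinarith
      have b2 : 1 < padicNorm s (x * X) := by
        rw [padicNorm.mul]
        nlinarith
      have b3 : padicNorm s (x * X + 3) = padicNorm s (x * X) := nadd_eq (i3.trans_lt b2)
      have b3' : padicNorm s (x * X - 3) = padicNorm s (x * X) := nsub_eq (i3.trans_lt b2)
      have b4 : padicNorm s ((x * X + 3) ^ 2 - 4 * (x + X)) = padicNorm s (x * X) ^ 2 := by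
        rw [nsub_eq, nsq, b3]
        rw [nsq, b3, padicNorm.mul]
        have b5 := padicNorm.nonneg (p := s) (x + X)
        have b6 := padicNorm.nonneg (p := s) 4
        nlinarith
      rw [b4]
      have b7 : padicNorm s (x - X) ^ 2 ≤ padicNorm s (x * X) ^ 2 :=
        pow_le_pow_left₀ (padicNorm.nonneg _) b1'.le 2
      have b8 : padicNorm s (2 * (x + X) * (x * X - 3) + 4) ≤ padicNorm s (x * X) ^ 2 := by
        refine nadd_le ?_ (i4.trans (by nlinarith))
        rw [padicNorm.mul, padicNorm.mul, b3', sq]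
        refine mul_le_mul_of_nonneg_right ?_ (padicNorm.nonneg _)
        have b5 := padicNorm.nonneg (p := s) (x + X)
        have b6 := padicNorm.nonneg (p := s) 2
        nlinarith
      rw [max_eq_right b8, max_eq_right b7]

end nrm

section val

variable {s : ℕ} [hs : Fact s.Prime]

lemma s_gt : (1 : ℚ) < s := by exact_mod_cast hs.out.one_lt

lemma val_nonneg {a : ℚ} (h : padicNorm s a ≤ 1) : 0 ≤ padicValRat s a := by
  by_cases ha : a = 0
  · rw [ha, padicValRat.zero]
  · rw [padicNorm.eq_zpow_of_nonzero ha] at h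
    by_contra hcon
    push Not at hcon
    have : (1 : ℚ) < (s : ℚ) ^ (-padicValRat s a) := one_lt_zpow₀ s_gt (by omega)
    linarith

lemma val_neg {a : ℚ} (h : 1 < padicNorm s a) : padicValRat s a < 0 := by
  have ha : a ≠ 0 := by
    rintro rfl
    rw [padicNorm.zero] at h
    linarith
  rw [padicNorm.eq_zpow_of_nonzero ha] at h
  by_contra hcon
  push Not at hcon
  have : (s : ℚ) ^ (-padicValRat s a) ≤ 1 := zpow_le_one_of_nonpos₀ s_gt.le (by omega)
  linarith

lemma val_aux (G : GrpFacts) (n : ℤ) (hn : n ≠ 0) :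
    (padicNorm s (zz n) ≤ 1 ∧ dd s n = 0 ∧ padicNorm s (yy n) ≤ 1) ∨
    (1 < padicNorm s (zz n) ∧ 0 < dd s n ∧ padicValRat s (zz n) = -2 * (dd s n : ℤ) ∧
      padicValRat s (yy n) = -3 * (dd s n : ℤ)) := by
  have hon := G.on n hn
  have hy := G.y_ne n hn
  have i3 := nint (s := s) 3
  push_cast at i3
  rcases le_or_gt (padicNorm s (zz n)) 1 with hx | hx
  · left
    refine ⟨hx, ?_, ?_⟩
    · have := val_nonneg hx
      unfold dd
      omega
    · have h1 : padicNorm s (yy n ^ 2) ≤ 1 := by
        rw [hon]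
        refine nadd_le (nsub_le ?_ (nmul_le i3 hx)) padicNorm.one.le
        rw [ncb]
        exact pow_le_one₀ (padicNorm.nonneg _) hx
      rw [nsq] at h1
      by_contra hcon
      push Not at hcon
      nlinarith
  · right
    have hv := val_neg hx
    have hx0 : zz n ≠ 0 := by
      intro h0
      rw [h0, padicNorm.zero] at hx
      linarith
    have h3 : padicNorm s (3 * zz n) < padicNorm s (zz n ^ 3) := by
      rw [padicNorm.mul, ncb]
      have := padicNorm.nonneg (p := s) 3
      have h4 : padicNorm s (zz n) < padicNorm s (zz n) ^ 3 := by nlinarith [sq_nonneg (padicNorm s (zz n))]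
      nlinarith
    have h4 : padicNorm s (zz n ^ 3 - 3 * zz n) = padicNorm s (zz n) ^ 3 := by
      rw [nsub_eq h3, ncb]
    have h5 : padicNorm s (yy n) ^ 2 = padicNorm s (zz n) ^ 3 := by
      rw [← nsq, hon, nadd_eq, h4]
      rw [h4, padicNorm.one]
      exact one_lt_pow₀ hx (by norm_num)
    rw [padicNorm.eq_zpow_of_nonzero hx0, padicNorm.eq_zpow_of_nonzero hy, ← zpow_natCast,
      ← zpow_natCast, ← zpow_mul, ← zpow_mul] at h5
    have h6 := zpow_right_injective₀ (by linarith [s_gt (s := s)]) s_gt.ne' h5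
    push_cast at h6
    refine ⟨hx, ?_, ?_, ?_⟩ <;> unfold dd <;> omega

lemma H_eq (G : GrpFacts) (n : ℤ) (hn : n ≠ 0) :
    max 1 (padicNorm s (zz n)) = (s : ℚ) ^ (2 * (dd s n : ℤ)) := by
  rcases val_aux (s := s) G n hn with ⟨h1, h2, _⟩ | ⟨h1, h2, h3, _⟩
  · rw [max_eq_left h1, h2]
    simp
  · have hx0 : zz n ≠ 0 := by
      intro h0
      rw [h0, padicNorm.zero] at h1
      linarith
    rw [max_eq_right h1.le, padicNorm.eq_zpow_of_nonzero hx0, h3]
    congr 1
    ring

/-- sum and product of the abscissas of sum and difference -/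
lemma sum_prod (G : GrpFacts) (n m : ℤ) (hn : n ≠ 0) (hm : m ≠ 0) (h1 : n + m ≠ 0)
    (h2 : n - m ≠ 0) : zz n ≠ zz m ∧
    zz (n + m) + zz (n - m) =
      (2 * (zz n + zz m) * (zz n * zz m - 3) + 4) / (zz n - zz m) ^ 2 ∧
    zz (n + m) * zz (n - m) =
      ((zz n * zz m + 3) ^ 2 - 4 * (zz n + zz m)) / (zz n - zz m) ^ 2 := by
  have hne : zz n ≠ zz m := by
    intro h
    rcases (G.inj n m hn hm).1 h with h | h
    · exact h2 (by omega)
    · exact h1 (by omega)
  have a1 := (G.add n m hn hm hne).1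
  have a2 := (G.add n (-m) hn (by omega) (by rw [(G.neg m).1]; exact hne)).1
  rw [(G.neg m).1, (G.neg m).2, ← sub_eq_add_neg] at a2
  have o1 := G.on n hn
  have o2 := G.on m hm
  have hd : zz n - zz m ≠ 0 := sub_ne_zero.2 hne
  refine ⟨hne, ?_, ?_⟩
  · rw [a1, a2]
    field_simp
    linear_combination (2 : ℚ) * o1 + 2 * o2
  · rw [a1, a2]
    field_simp
    linear_combination ((yy n ^ 2 - yy m ^ 2) + (zz n ^ 3 - 3 * zz n + 1 - (zz m ^ 3 - 3 * zz m + 1)) -
      2 * (zz n + zz m) * (zz n - zz m) ^ 2) * o1 +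
      (-(yy n ^ 2 - yy m ^ 2) - (zz n ^ 3 - 3 * zz n + 1 - (zz m ^ 3 - 3 * zz m + 1)) -
      2 * (zz n + zz m) * (zz n - zz m) ^ 2) * o2

/-- one step of the induction for the primes two and three -/
lemma step_two (hs2 : s = 2) {x a b : ℚ} (hx0 : x ≠ 0) (hsum : a + b = (4 - 6 * x) / x ^ 2)
    (hprod : a * b = (9 - 4 * x) / x ^ 2) (hx : padicNorm s x ≠ 1) : padicNorm s a ≠ 1 := by
  have hN0 : padicNorm s x ≠ 0 := padicNorm.nonzero hx0
  have hN : 0 < padicNorm s x := lt_of_le_of_ne (padicNorm.nonneg x) hN0.symm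
  have n2 : padicNorm s ((2 : ℤ) : ℚ) = 1 / 2 := by
    subst hs2
    have := padicNorm.padicNorm_p_of_prime (p := 2)
    push_cast at this ⊢
    rw [this]
    norm_num
  push_cast at n2
  have n4 : padicNorm s 4 = 1 / 4 := by
    rw [show (4 : ℚ) = 2 * 2 by norm_num, padicNorm.mul, n2]
    norm_num
  have n3 : padicNorm s ((3 : ℤ) : ℚ) = 1 := nint_one (by rw [hs2]; norm_num)
  push_cast at n3
  have n6 : padicNorm s 6 = 1 / 2 := by
    rw [show (6 : ℚ) = 2 * 3 by norm_num, padicNorm.mul, n2, n3]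
    norm_num
  have n9 : padicNorm s 9 = 1 := by
    rw [show (9 : ℚ) = 3 * 3 by norm_num, padicNorm.mul, n3]
    norm_num
  have c1 : padicNorm s (a + b) * padicNorm s x ^ 2 = padicNorm s (4 - 6 * x) := by
    rw [hsum, padicNorm.div, nsq]
    field_simp
  have c2 : padicNorm s (a * b) * padicNorm s x ^ 2 = padicNorm s (9 - 4 * x) := by
    rw [hprod, padicNorm.div, nsq]
    field_simp
  have hx2 : 0 < padicNorm s x ^ 2 := by positivity
  rcases lt_or_gt_of_ne hx with h | h
  · -- integral and even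
    have e1 : padicNorm s (9 - 4 * x) = 1 := by
      rw [nsub_eq, n9]
      rw [n9, padicNorm.mul, n4]
      linarith
    have e2 : padicNorm s (4 - 6 * x) < 1 := by
      refine nsub_lt (by rw [n4]; norm_num) ?_
      rw [padicNorm.mul, n6]
      linarith
    rw [e1] at c2
    have f1 : padicNorm s (a + b) < padicNorm s (a * b) := by
      by_contra hcon
      push Not at hcon
      have := mul_le_mul_of_nonneg_right hcon hx2.le
      rw [c1, c2] at this
      linarith
    have f2 : 1 < padicNorm s (a * b) := by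
      by_contra hcon
      push Not at hcon
      have h3 : padicNorm s (a * b) * padicNorm s x ^ 2 ≤ 1 * padicNorm s x ^ 2 :=
        mul_le_mul_of_nonneg_right hcon hx2.le
      rw [c2] at h3
      nlinarith
    exact (both_gt f1 f2).1.ne'
  · have e1 : padicNorm s (9 - 4 * x) ≤ padicNorm s x := by
      refine nsub_le (by rw [n9]; exact h.le) ?_
      rw [padicNorm.mul, n4]
      linarith
    have e2 : padicNorm s (4 - 6 * x) ≤ padicNorm s x := by
      refine nsub_le (by rw [n4]; linarith) ?_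
      rw [padicNorm.mul, n6]
      linarith
    have hlt : padicNorm s x < padicNorm s x ^ 2 := by nlinarith
    have f1 : padicNorm s (a + b) < 1 := by
      by_contra hcon
      push Not at hcon
      have := mul_le_mul_of_nonneg_right hcon hx2.le
      rw [c1] at this
      linarith
    have f2 : padicNorm s (a * b) < 1 := by
      by_contra hcon
      push Not at hcon
      have := mul_le_mul_of_nonneg_right hcon hx2.le
      rw [c2] at this
      linarith
    exact (both_lt f1 f2).1.ne

lemma step_three (hs3 : s = 3) {x a b : ℚ} (hx0 : x ≠ 0) (hsum : a + b = (4 - 6 * x) / x ^ 2)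
    (hprod : a * b = (9 - 4 * x) / x ^ 2) (hx : padicNorm s x ≠ 1) : padicNorm s a ≠ 1 := by
  have hN0 : padicNorm s x ≠ 0 := padicNorm.nonzero hx0
  have hN : 0 < padicNorm s x := lt_of_le_of_ne (padicNorm.nonneg x) hN0.symm
  have n3 : padicNorm s ((3 : ℤ) : ℚ) = 1 / 3 := by
    subst hs3
    have := padicNorm.padicNorm_p_of_prime (p := 3)
    push_cast at this ⊢
    rw [this]
    norm_num
  push_cast at n3
  have n2 : padicNorm s ((2 : ℤ) : ℚ) = 1 := nint_one (by rw [hs3]; norm_num)
  push_cast at n2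
  have n4 : padicNorm s 4 = 1 := by
    rw [show (4 : ℚ) = 2 * 2 by norm_num, padicNorm.mul, n2]
    norm_num
  have n6 : padicNorm s 6 = 1 / 3 := by
    rw [show (6 : ℚ) = 2 * 3 by norm_num, padicNorm.mul, n2, n3]
    norm_num
  have n9 : padicNorm s 9 = 1 / 9 := by
    rw [show (9 : ℚ) = 3 * 3 by norm_num, padicNorm.mul, n3]
    norm_num
  have c1 : padicNorm s (a + b) * padicNorm s x ^ 2 = padicNorm s (4 - 6 * x) := by
    rw [hsum, padicNorm.div, nsq]
    field_simp
  have c2 : padicNorm s (a * b) * padicNorm s x ^ 2 = padicNorm s (9 - 4 * x) := by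
    rw [hprod, padicNorm.div, nsq]
    field_simp
  have hx2 : 0 < padicNorm s x ^ 2 := by positivity
  rcases lt_or_gt_of_ne hx with h | h
  · have e2 : padicNorm s (4 - 6 * x) = 1 := by
      rw [nsub_eq, n4]
      rw [n4, padicNorm.mul, n6]
      linarith
    have e1 : padicNorm s (9 - 4 * x) < 1 := by
      refine nsub_lt (by rw [n9]; norm_num) ?_
      rw [padicNorm.mul, n4]
      linarith
    rw [e2] at c1
    have f2 : 1 < padicNorm s (a + b) := by
      by_contra hcon
      push Not at hcon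
      have h3 : padicNorm s (a + b) * padicNorm s x ^ 2 ≤ 1 * padicNorm s x ^ 2 :=
        mul_le_mul_of_nonneg_right hcon hx2.le
      rw [c1] at h3
      nlinarith
    have f1 : padicNorm s (a * b) < padicNorm s (a + b) := by
      by_contra hcon
      push Not at hcon
      have := mul_le_mul_of_nonneg_right hcon hx2.le
      rw [c1, c2] at this
      linarith
    rcases split f2 f1 with ⟨g, _⟩ | ⟨g, _⟩
    · exact g.ne
    · exact g.ne'
  · have e1 : padicNorm s (9 - 4 * x) ≤ padicNorm s x := by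
      refine nsub_le (by rw [n9]; linarith) ?_
      rw [padicNorm.mul, n4]
      linarith
    have e2 : padicNorm s (4 - 6 * x) ≤ padicNorm s x := by
      refine nsub_le (by rw [n4]; linarith) ?_
      rw [padicNorm.mul, n6]
      linarith
    have hlt : padicNorm s x < padicNorm s x ^ 2 := by nlinarith
    have f1 : padicNorm s (a + b) < 1 := by
      by_contra hcon
      push Not at hcon
      have := mul_le_mul_of_nonneg_right hcon hx2.le
      rw [c1] at this
      linarith
    have f2 : padicNorm s (a * b) < 1 := by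
      by_contra hcon
      push Not at hcon
      have := mul_le_mul_of_nonneg_right hcon hx2.le
      rw [c2] at this
      linarith
    exact (both_lt f1 f2).1.ne

/-- `P0` is nonsingular modulo two and three -/
lemma good (G : GrpFacts) (h23 : s = 2 ∨ s = 3) (n : ℤ) (hn : n ≠ 0) :
    padicNorm s (zz n) ≠ 1 := by
  have z1 := G.one.1
  have key : ∀ k : ℕ, padicNorm s (zz ((k : ℤ) + 1)) ≠ 1 ∧ padicNorm s (zz ((k : ℤ) + 2)) ≠ 1 := by
    intro k
    induction k with
    | zero =>
      have h2 := (G.dbl 1 one_ne_zero).1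
      rw [z1, G.one.2] at h2
      norm_num at h2
      refine ⟨?_, ?_⟩
      · simp only [Nat.cast_zero, zero_add, z1, padicNorm.zero]
        norm_num
      · simp only [Nat.cast_zero, zero_add, h2, padicNorm.div]
        rcases h23 with rfl | rfl
        · have n2 := padicNorm.padicNorm_p_of_prime (p := 2)
          have n3 : padicNorm 2 ((3 : ℤ) : ℚ) = 1 := nint_one (by norm_num)
          push_cast at n2 n3
          rw [show (9 : ℚ) = 3 * 3 by norm_num, show (4 : ℚ) = 2 * 2 by norm_num, padicNorm.mul,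
            padicNorm.mul, n2, n3]
          norm_num
        · have n3 := padicNorm.padicNorm_p_of_prime (p := 3)
          have n2 : padicNorm 3 ((2 : ℤ) : ℚ) = 1 := nint_one (by norm_num)
          push_cast at n2 n3
          rw [show (9 : ℚ) = 3 * 3 by norm_num, show (4 : ℚ) = 2 * 2 by norm_num, padicNorm.mul,
            padicNorm.mul, n2, n3]
          norm_num
    | succ k ih =>
      refine ⟨?_, ?_⟩
      · have e : ((k + 1 : ℕ) : ℤ) + 1 = (k : ℤ) + 2 := by push_cast; ring
        rw [e]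
        exact ih.2
      · have e : ((k + 1 : ℕ) : ℤ) + 2 = ((k : ℤ) + 2) + 1 := by push_cast; ring
        rw [e]
        obtain ⟨hne, hsum, hprod⟩ := sum_prod G ((k : ℤ) + 2) 1 (by omega) one_ne_zero (by omega)
          (by omega)
        rw [z1] at hne hsum hprod
        have hsum' : zz ((k : ℤ) + 2 + 1) + zz ((k : ℤ) + 2 - 1) =
            (4 - 6 * zz ((k : ℤ) + 2)) / zz ((k : ℤ) + 2) ^ 2 := by
          rw [hsum]
          congr 1 <;> ring
        have hprod' : zz ((k : ℤ) + 2 + 1) * zz ((k : ℤ) + 2 - 1) =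
            (9 - 4 * zz ((k : ℤ) + 2)) / zz ((k : ℤ) + 2) ^ 2 := by
          rw [hprod]
          congr 1 <;> ring
        rcases h23 with h2 | h3
        · exact step_two h2 hne hsum' hprod' ih.2
        · exact step_three h3 hne hsum' hprod' ih.2
  rcases lt_or_gt_of_ne hn with h | h
  · have h1 := (key ((-n - 1).toNat)).1
    have e : (((-n - 1).toNat : ℕ) : ℤ) + 1 = -n := by omega
    rw [e, (G.neg n).1] at h1
    exact h1
  · have h1 := (key ((n - 1).toNat)).1
    have e : (((n - 1).toNat : ℕ) : ℤ) + 1 = n := by omega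
    rw [e] at h1
    exact h1

end val

theorem s_val (G : GrpFacts) : S_val := by
  intro s hs n hn
  have := Fact.mk hs
  rcases val_aux (s := s) G n hn with ⟨h1, h2, h3⟩ | ⟨h1, h2, h3, h4⟩
  · exact ⟨fun _ => ⟨Or.inr (val_nonneg h1), val_nonneg h3⟩, fun h => by omega⟩
  · exact ⟨fun h => by omega, fun _ => ⟨h3, h4⟩⟩

theorem s_diff (G : GrpFacts) : S_diff := by
  intro s hs m n hm hn hmn hnm
  have := Fact.mk hs
  obtain ⟨hne, hsum, hprod⟩ := sum_prod G n m hn hm (by omega) hnm
  have hd : zz n - zz m ≠ 0 := sub_ne_zero.2 hne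
  have hN : padicNorm s (zz n - zz m) ≠ 0 := padicNorm.nonzero hd
  have hN2 : 0 < padicNorm s (zz n - zz m) ^ 2 := by positivity
  have hk := key (s := s) (x := zz n) (X := zz m) (G.on n hn) (fun h => good G h n hn)
  have hg := gauss (s := s) (zz (n + m)) (zz (n - m))
  rw [hsum, hprod, padicNorm.div, padicNorm.div, nsq] at hg
  have h1 : padicNorm s (zz n - zz m) ^ 2 * (max 1 (padicNorm s (zz (n + m))) *
      max 1 (padicNorm s (zz (n - m)))) =
      max 1 (padicNorm s (zz n)) ^ 2 * max 1 (padicNorm s (zz m)) ^ 2 := by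
    rw [hg, ← hk, mul_max_of_nonneg _ _ hN2.le, mul_max_of_nonneg _ _ hN2.le, mul_one]
    congr 2 <;> field_simp
  rw [H_eq G n hn, H_eq G m hm, H_eq G (n + m) (by omega), H_eq G (n - m) hnm,
    padicNorm.eq_zpow_of_nonzero hd] at h1
  have hs0 : (s : ℚ) ≠ 0 := by have := s_gt (s := s); linarith
  rw [← zpow_natCast, ← zpow_natCast, ← zpow_natCast, ← zpow_mul, ← zpow_mul, ← zpow_mul,
    ← zpow_add₀ hs0, ← zpow_add₀ hs0, ← zpow_add₀ hs0] at h1
  have h6 := zpow_right_injective₀ (by linarith [s_gt (s := s)]) s_gt.ne' h1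
  push_cast at h6
  rw [add_comm m n]
  linarith

theorem result (G : GrpFacts) : S_val ∧ S_diff := ⟨s_val G, s_diff G⟩

end Pool.Agent.TH159.J1406
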