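import Pool.Agent.TH159.J1406

/-! Job 1410 (helper716, MP_817449_lc), TW6: the Mordell-Weil group is generated by `P0`. -/

set_option autoImplicit false

namespace Pool.Agent.TH159.J1410

open Pool.Agent.TH716.TW
open Pool.Agent.TH159.J1406 (sum_prod)

/-- naive height -/
def H (x : ℚ) : ℕ := max x.num.natAbs x.den

lemma rat_eq (x : ℚ) : x = (x.num : ℚ) / (x.den : ℤ) := by
  rw [Int.cast_natCast]
  exact (Rat.num_div_den x).symm

lemma exists_E {x y : ℚ} (h : y ^ 2 = x ^ 3 - 3 * x + 1) :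
    ∃ E : ℤ, (E : ℚ) = y * ((x.den : ℤ) : ℚ) ^ 2 ∧
      E ^ 2 = (x.den : ℤ) * (x.num ^ 3 - 3 * x.num * (x.den : ℤ) ^ 2 + (x.den : ℤ) ^ 3) := by
  have hx := rat_eq x
  obtain ⟨a, ha⟩ : ∃ a : ℤ, a = x.num := ⟨_, rfl⟩
  obtain ⟨b, hb⟩ : ∃ b : ℤ, b = (x.den : ℤ) := ⟨_, rfl⟩
  have hb0 : b ≠ 0 := by rw [hb]; exact_mod_cast x.den_nz
  rw [← ha, ← hb] at hx ⊢
  have hbq : (b : ℚ) ≠ 0 := by exact_mod_cast hb0
  have h1 : (y * (b : ℚ) ^ 2) ^ 2 = ((b * (a ^ 3 - 3 * a * b ^ 2 + b ^ 3) : ℤ) : ℚ) := by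
    push_cast
    rw [mul_pow, h, hx]
    field_simp
  have h2 : (y * (b : ℚ) ^ 2).den = 1 := by
    have h3 := congrArg Rat.den h1
    rw [Rat.den_pow, Rat.den_intCast] at h3
    rcases Nat.pow_eq_one.1 h3 with h4 | h4
    · exact h4
    · exact absurd h4 (by norm_num)
  have h3 : (((y * (b : ℚ) ^ 2).num : ℤ) : ℚ) = y * (b : ℚ) ^ 2 :=
    Rat.coe_int_num_of_den_eq_one h2
  refine ⟨(y * (b : ℚ) ^ 2).num, h3, ?_⟩
  have h4 : (((y * (b : ℚ) ^ 2).num ^ 2 : ℤ) : ℚ) =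
      ((b * (a ^ 3 - 3 * a * b ^ 2 + b ^ 3) : ℤ) : ℚ) := by
    rw [← h1, ← h3]
    push_cast
    rw [Rat.num_intCast]
  exact_mod_cast h4

/-- numerator and denominator of the abscissa of the double are coprime -/
lemma coprime_FG {a b E : ℤ} (hab : IsCoprime a b)
    (hE : E ^ 2 = b * (a ^ 3 - 3 * a * b ^ 2 + b ^ 3)) :
    IsCoprime (a ^ 4 + 6 * a ^ 2 * b ^ 2 - 8 * a * b ^ 3 + 9 * b ^ 4)
      (4 * b * (a ^ 3 - 3 * a * b ^ 2 + b ^ 3)) := by
  rw [Int.isCoprime_iff_gcd_eq_one]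
  by_contra hcon
  obtain ⟨p, hp, h1, h2⟩ := Nat.Prime.not_coprime_iff_dvd.1 hcon
  rw [← Int.natCast_dvd] at h1 h2
  have hpp : Prime (p : ℤ) := Nat.prime_iff_prime_int.1 hp
  have hnot : ¬ ((p : ℤ) ∣ a ∧ (p : ℤ) ∣ b) := fun hd => by
    have := hab.isUnit_of_dvd' hd.1 hd.2
    exact hpp.not_isUnit this
  -- not a divisor of b
  have hpb : ¬ (p : ℤ) ∣ b := by
    intro hd
    apply hnot
    refine ⟨?_, hd⟩
    have h3 : (p : ℤ) ∣ a ^ 4 := by
      have e : a ^ 4 = (a ^ 4 + 6 * a ^ 2 * b ^ 2 - 8 * a * b ^ 3 + 9 * b ^ 4) -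
          b * (6 * a ^ 2 * b - 8 * a * b ^ 2 + 9 * b ^ 3) := by ring
      rw [e]
      exact dvd_sub h1 (hd.mul_right _)
    exact hpp.dvd_of_dvd_pow h3
  by_cases hp2 : p = 2
  · subst hp2
    push_cast at h1 hpb hnot
    have hb1 : b % 2 = 1 := by omega
    have ha1 : a % 2 = 1 := by
      by_contra hcon
      have ha0 : a % 2 = 0 := by omega
      obtain ⟨k, hk⟩ : ∃ k, a = 2 * k := ⟨a / 2, by omega⟩
      have h5 : (2 : ℤ) ∣ 9 * b ^ 4 := by
        have e : 9 * b ^ 4 = (a ^ 4 + 6 * a ^ 2 * b ^ 2 - 8 * a * b ^ 3 + 9 * b ^ 4) -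
            2 * (8 * k ^ 4 + 12 * k ^ 2 * b ^ 2 - 8 * k * b ^ 3) := by rw [hk]; ring
        rw [e]
        exact dvd_sub h1 (dvd_mul_right _ _)
      rcases Int.prime_two.dvd_or_dvd h5 with h6 | h6
      · norm_num at h6
      · exact hpb (Int.prime_two.dvd_of_dvd_pow h6)
    obtain ⟨k, hk⟩ : ∃ k, a = 2 * k + 1 := ⟨a / 2, by omega⟩
    obtain ⟨l, hl⟩ : ∃ l, b = 2 * l + 1 := ⟨b / 2, by omega⟩
    have h7 : E ^ 2 % 4 = 3 := by
      rw [hE, hk, hl]
      have e : (2 * l + 1) * ((2 * k + 1) ^ 3 - 3 * (2 * k + 1) * (2 * l + 1) ^ 2 +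
          (2 * l + 1) ^ 3) = 4 * (4 * k ^ 3 * l + 2 * k ^ 3 + 6 * k ^ 2 * l + 3 * k ^ 2 -
            12 * k * l ^ 3 - 18 * k * l ^ 2 - 6 * k * l - 6 * l ^ 3 - 9 * l ^ 2 - 4 * l - 1
            + 4 * l ^ 4 + 8 * l ^ 3 + 6 * l ^ 2 + 2 * l) + 3 := by ring
      rw [e]
      omega
    have h8 : E ^ 2 % 4 = 0 ∨ E ^ 2 % 4 = 1 := by
      rcases Int.even_or_odd' E with ⟨m, hm | hm⟩
      · left
        rw [hm]
        have e : (2 * m) ^ 2 = 4 * m ^ 2 := by ring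
        rw [e]; omega
      · right
        rw [hm]
        have e : (2 * m + 1) ^ 2 = 4 * (m ^ 2 + m) + 1 := by ring
        rw [e]; omega
    omega
  · -- divides g
    have hpg : (p : ℤ) ∣ a ^ 3 - 3 * a * b ^ 2 + b ^ 3 := by
      rcases hpp.dvd_or_dvd h2 with h3 | h3
      · rcases hpp.dvd_or_dvd h3 with h4 | h4
        · exfalso
          have h5 : (p : ℤ) ∣ 2 ^ 2 := by norm_num; exact h4
          have h6 := hpp.dvd_of_dvd_pow h5
          have h7 : p ∣ 2 := by exact_mod_cast h6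
          exact hp2 ((Nat.prime_dvd_prime_iff_eq hp Nat.prime_two).1 h7)
        · exact absurd h4 hpb
      · exact h3
    have h81 : (p : ℤ) ∣ 81 * b ^ 6 := by
      have e : 81 * b ^ 6 = (3 * a ^ 3 + 15 * a * b ^ 2 - 27 * b ^ 3) *
          (a ^ 3 - 3 * a * b ^ 2 + b ^ 3) - (3 * a ^ 2 - 12 * b ^ 2) *
          (a ^ 4 + 6 * a ^ 2 * b ^ 2 - 8 * a * b ^ 3 + 9 * b ^ 4) := by ring
      rw [e]
      exact dvd_sub (hpg.mul_left _) (h1.mul_left _)
    have hp3 : p = 3 := by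
      rcases hpp.dvd_or_dvd h81 with h3 | h3
      · have h4 : (p : ℤ) ∣ 3 ^ 4 := by norm_num; exact h3
        have h5 := hpp.dvd_of_dvd_pow h4
        have h6 : p ∣ 3 := by exact_mod_cast h5
        exact (Nat.prime_dvd_prime_iff_eq hp Nat.prime_three).1 h6
      · exact absurd (hpp.dvd_of_dvd_pow h3) hpb
    subst hp3
    push_cast at hpg hpb
    have h9 : (3 : ℤ) ∣ (a + b) ^ 3 := by
      have e : (a + b) ^ 3 = (a ^ 3 - 3 * a * b ^ 2 + b ^ 3) + 3 * (a ^ 2 * b + 2 * a * b ^ 2) := by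
        ring
      rw [e]
      exact dvd_add hpg (dvd_mul_right _ _)
    have h10 := Int.prime_three.dvd_of_dvd_pow h9
    obtain ⟨t, ht⟩ := h10
    have ha : a = -b + 3 * t := by linarith
    have hE' : E ^ 2 = 3 * (b * (b ^ 3 - 9 * b * t ^ 2 + 9 * t ^ 3)) := by
      rw [hE, ha]; ring
    have h11 : (3 : ℤ) ∣ E := Int.prime_three.dvd_of_dvd_pow ⟨_, hE'⟩
    obtain ⟨e, he⟩ := h11
    have h12 : 3 * e ^ 2 = b * (b ^ 3 - 9 * b * t ^ 2 + 9 * t ^ 3) := by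
      rw [he] at hE'
      linarith
    have h13 : (3 : ℤ) ∣ b ^ 4 := by
      refine ⟨e ^ 2 + 3 * b ^ 2 * t ^ 2 - 3 * b * t ^ 3, ?_⟩
      linarith
    exact hpb (Int.prime_three.dvd_of_dvd_pow h13)

/-- doubling multiplies the height by four, without any loss -/
lemma H_dbl {u v x : ℚ} (h : v ^ 2 = u ^ 3 - 3 * u + 1)
    (hx : x = (u ^ 4 + 6 * u ^ 2 - 8 * u + 9) / (4 * v ^ 2)) : H u ^ 4 ≤ H x := by
  obtain ⟨E, hE1, hE⟩ := exists_E h
  have hu := rat_eq u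
  have hcop0 : IsCoprime u.num (u.den : ℤ) := by
    rw [Int.isCoprime_iff_gcd_eq_one]
    exact u.reduced
  have hHu : H u = max u.num.natAbs u.den := rfl
  obtain ⟨a, ha⟩ : ∃ a : ℤ, a = u.num := ⟨_, rfl⟩
  obtain ⟨b, hb⟩ : ∃ b : ℤ, b = (u.den : ℤ) := ⟨_, rfl⟩
  have hbpos : 0 < b := by rw [hb]; exact_mod_cast u.den_pos
  rw [← ha, ← hb] at hu hE hcop0
  rw [← hb] at hE1
  have hbq : (0 : ℚ) < b := by exact_mod_cast hbpos
  set F : ℤ := a ^ 4 + 6 * a ^ 2 * b ^ 2 - 8 * a * b ^ 3 + 9 * b ^ 4 with hF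
  set g : ℤ := a ^ 3 - 3 * a * b ^ 2 + b ^ 3 with hg
  have hcop : IsCoprime F (4 * b * g) := coprime_FG hcop0 hE
  have hg0 : 0 ≤ g := by
    have : 0 ≤ b * g := by rw [← hE]; positivity
    exact nonneg_of_mul_nonneg_right this hbpos
  have hgpos : 0 < g := by
    refine lt_of_le_of_ne hg0 fun h0 => ?_
    -- then `4 b g = 0`, so `F` is a unit; but `F ≥ 9 b^4 - ... > 1`
    rw [← h0, mul_zero] at hcop
    have hFu : IsUnit F := isCoprime_zero_right.1 hcop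
    have hF2 : 2 ≤ F := by
      have h1 : 0 ≤ a ^ 2 * a ^ 2 := by positivity
      have h3 : F = a ^ 2 * a ^ 2 + 6 * (a * b - b ^ 2) ^ 2 + 4 * (a * b * b ^ 2) + 3 * (b ^ 2 * b ^ 2) := by
        rw [hF]; ring
      have h4 : F = a ^ 2 * a ^ 2 + 5 * (a * b) ^ 2 + ((a * b) - 4 * b ^ 2) ^ 2 - 7 * (b ^ 2 * b ^ 2) := by
        rw [hF]; ring
      have h5 : 3 * F = 3 * (a ^ 2 * a ^ 2) + 2 * (3 * (a * b) - 2 * b ^ 2) ^ 2 + 19 * (b ^ 2 * b ^ 2) := by
        rw [hF]; ring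
      have hb2 : 1 ≤ b ^ 2 := by nlinarith
      nlinarith [sq_nonneg (3 * (a * b) - 2 * b ^ 2)]
    rcases Int.isUnit_iff.1 hFu with h1 | h1 <;> omega
  have hgq : (0 : ℚ) < g := by exact_mod_cast hgpos
  have hxF : x = (F : ℚ) / ((4 * b * g : ℤ) : ℚ) := by
    have hv : v ^ 2 = (g : ℚ) / b ^ 3 := by
      rw [h, hu, hg]
      push_cast
      field_simp
    rw [hx, hv, hu, hF]
    push_cast
    field_simp
  have hGpos : 0 < 4 * b * g := by positivity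
  have hnum : x.num = F := by
    rw [hxF]
    exact Rat.num_div_eq_of_coprime hGpos (Int.isCoprime_iff_gcd_eq_one.1 hcop)
  have hFa : a ^ 4 ≤ F := by
    have e : 3 * F = 3 * a ^ 4 + b ^ 2 * (2 * (3 * a - 2 * b) ^ 2 + 19 * b ^ 2) := by
      rw [hF]; ring
    have : 0 ≤ b ^ 2 * (2 * (3 * a - 2 * b) ^ 2 + 19 * b ^ 2) := by positivity
    linarith
  have hFb : b ^ 4 ≤ F := by
    have e : 3 * F = 3 * a ^ 4 + b ^ 2 * (2 * (3 * a - 2 * b) ^ 2) + 19 * b ^ 4 := by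
      rw [hF]; ring
    have h1 : 0 ≤ b ^ 2 * (2 * (3 * a - 2 * b) ^ 2) := by positivity
    have h2 : 0 ≤ a ^ 4 := by positivity
    have h3 : 0 ≤ b ^ 4 := by positivity
    linarith
  have hHx : F ≤ (H x : ℤ) := by
    unfold H
    rw [hnum]
    push_cast
    exact (le_abs_self F).trans (le_max_left _ _)
  have hfin : ((H u ^ 4 : ℕ) : ℤ) ≤ H x := by
    refine le_trans ?_ hHx
    rw [hHu, ← ha]
    rcases le_total a.natAbs u.den with h1 | h1
    · rw [max_eq_right h1]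
      push_cast
      rw [← hb]
      exact hFb
    · rw [max_eq_left h1]
      push_cast
      have e : (|a| : ℤ) ^ 4 = a ^ 4 := by
        have : (4 : ℕ) = 2 * 2 := rfl
        rw [this, pow_mul, pow_mul, sq_abs]
      rw [e]
      exact hFa
  exact_mod_cast hfin

/-- height of a quotient of integers -/
lemma H_div_le {p q : ℤ} (hq : q ≠ 0) {x : ℚ} (hx : x = (p : ℚ) / q) {M : ℕ}
    (hp : p.natAbs ≤ M) (hqM : q.natAbs ≤ M) : H x ≤ M := by
  have h1 : x.num ∣ p := by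
    rw [hx]
    have := Rat.num_dvd p hq
    rwa [Rat.divInt_eq_div] at this
  have h2 : (x.den : ℤ) ∣ q := by
    rw [hx]
    have := Rat.den_dvd p q
    rwa [Rat.divInt_eq_div] at this
  unfold H
  refine max_le ?_ ?_
  · by_cases hp0 : p = 0
    · have hx0 : x = 0 := by rw [hx, hp0]; simp
      rw [hx0]
      simp
    · exact (Nat.le_of_dvd (Int.natAbs_pos.2 hp0) (Int.natAbs_dvd_natAbs.2 h1)).trans hp
  · have h3 : x.den ∣ q.natAbs := by
      have := Int.natAbs_dvd_natAbs.2 h2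
      simpa using this
    exact (Nat.le_of_dvd (Int.natAbs_pos.2 hq) h3).trans hqM

/-- height of the sum with `P0` -/
lemma H_add {x y : ℚ} (h : y ^ 2 = x ^ 3 - 3 * x + 1) (hx0 : x ≠ 0) :
    H (((y - 1) / x) ^ 2 - x) ≤ 10 * H x ^ 2 := by
  obtain ⟨E, hE1, hE⟩ := exists_E h
  have hx := rat_eq x
  have hHx : H x = max x.num.natAbs x.den := rfl
  obtain ⟨a, ha⟩ : ∃ a : ℤ, a = x.num := ⟨_, rfl⟩
  obtain ⟨b, hb⟩ : ∃ b : ℤ, b = (x.den : ℤ) := ⟨_, rfl⟩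
  have hbpos : 0 < b := by rw [hb]; exact_mod_cast x.den_pos
  rw [← ha, ← hb] at hx hE
  rw [← hb] at hE1
  have hbq : (0 : ℚ) < b := by exact_mod_cast hbpos
  have ha0 : a ≠ 0 := by
    rw [ha]
    exact Rat.num_ne_zero.2 hx0
  have haq : (a : ℚ) ≠ 0 := by exact_mod_cast ha0
  obtain ⟨M, hM⟩ : ∃ M : ℤ, M = (H x : ℤ) := ⟨_, rfl⟩
  have haM : |a| ≤ M := by
    rw [hM, hHx, ← ha]
    push_cast
    exact le_max_left _ _
  have hbM : b ≤ M := by
    rw [hM, hHx, hb]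
    push_cast
    exact le_max_right _ _
  have hM0 : 0 < M := by linarith
  have ha2 : a ≤ M ∧ -M ≤ a := ⟨(le_abs_self a).trans haM, by linarith [neg_abs_le a]⟩
  have hA0 : 0 ≤ |a| := abs_nonneg a
  have hA3 : |a| ^ 3 ≤ M ^ 3 := pow_le_pow_left₀ hA0 haM 3
  have hb3 : b ^ 3 ≤ M ^ 3 := pow_le_pow_left₀ hbpos.le hbM 3
  have hM3 : 0 < M ^ 3 := by positivity
  have hM4 : 0 < M ^ 4 := by positivity
  have h1 : b * a ^ 3 ≤ M ^ 4 := by
    calc b * a ^ 3 ≤ |b * a ^ 3| := le_abs_self _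
      _ = b * |a| ^ 3 := by rw [abs_mul, abs_pow, abs_of_pos hbpos]
      _ ≤ M * M ^ 3 := mul_le_mul hbM hA3 (by positivity) hM0.le
      _ = M ^ 4 := by ring
  have h2 : -(a * b ^ 3) ≤ M ^ 4 := by
    calc -(a * b ^ 3) ≤ |a * b ^ 3| := neg_le_abs _
      _ = |a| * b ^ 3 := by rw [abs_mul, abs_pow, abs_of_pos hbpos]
      _ ≤ M * M ^ 3 := mul_le_mul haM hb3 (by positivity) hM0.le
      _ = M ^ 4 := by ring
  have h3 : b ^ 4 ≤ M ^ 4 := pow_le_pow_left₀ hbpos.le hbM 4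
  have hE5 : E ^ 2 ≤ 5 * M ^ 4 := by
    rw [hE]
    nlinarith
  have h2E : |2 * E| ≤ 5 * M ^ 2 := by
    apply abs_le_of_sq_le_sq _ (by positivity)
    nlinarith
  have hab : |a * b| ≤ M ^ 2 := by
    rw [abs_mul, abs_of_pos hbpos, sq]
    exact mul_le_mul haM hbM hbpos.le hM0.le
  have hb2 : b ^ 2 ≤ M ^ 2 := pow_le_pow_left₀ hbpos.le hbM 2
  have hT : ((y - 1) / x) ^ 2 - x = ((-3 * (a * b) + 2 * b ^ 2 - 2 * E : ℤ) : ℚ) / ((a ^ 2 : ℤ) : ℚ) := by
    have hy : y = (E : ℚ) / (b : ℚ) ^ 2 := by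
      rw [hE1]
      field_simp
    have e1 : ((y - 1) / x) ^ 2 - x = (-3 * x + 2 - 2 * y) / x ^ 2 := by
      field_simp
      linear_combination h
    rw [e1, hy, hx]
    push_cast
    field_simp
  refine H_div_le (p := -3 * (a * b) + 2 * b ^ 2 - 2 * E) (q := a ^ 2) (by positivity) hT ?_ ?_
  · zify
    rw [← hM, abs_le]
    have g1 := abs_le.1 h2E
    have g2 := abs_le.1 hab
    have g3 := sq_nonneg b
    constructor <;> nlinarith
  · zify
    rw [← hM, abs_pow]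
    have := pow_le_pow_left₀ hA0 haM 2
    nlinarith [sq_nonneg M]

/-- no other small points -/
lemma small {x y : ℚ} (h : y ^ 2 = x ^ 3 - 3 * x + 1) (hH : H x ≤ 3) : x = 0 := by
  obtain ⟨E, hE1, hE⟩ := exists_E h
  have hcop : x.num.natAbs.Coprime x.den := x.reduced
  have h1 : x.num.natAbs ≤ 3 := (le_max_left _ _).trans hH
  have h2 : x.den ≤ 3 := (le_max_right _ _).trans hH
  have h3 : 0 < x.den := x.den_pos
  by_contra hx0
  have hn0 : x.num ≠ 0 := Rat.num_ne_zero.2 hx0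
  obtain ⟨a, ha⟩ : ∃ a : ℤ, a = x.num := ⟨_, rfl⟩
  obtain ⟨b, hb⟩ : ∃ b : ℕ, b = x.den := ⟨_, rfl⟩
  rw [← ha] at h1 hE hcop hn0
  rw [← hb] at h2 h3 hE hcop
  have ha3 : -3 ≤ a ∧ a ≤ 3 := by omega
  obtain ⟨ha3, ha3'⟩ := ha3
  have hE0 : 0 ≤ E ^ 2 := sq_nonneg E
  interval_cases b <;> interval_cases a <;> first
    | exact absurd rfl hn0
    | (norm_num at hE; exfalso; nlinarith)
    | (norm_num at hE
       have hE20 : E ≤ 20 := by nlinarith
       have hE20' : -20 ≤ E := by nlinarith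
       interval_cases E <;> omega)

/-- the symmetric relation between a point and its sum with `P0` -/
lemma rel {x y T : ℚ} (h : y ^ 2 = x ^ 3 - 3 * x + 1) (hx0 : x ≠ 0)
    (hT : ((y - 1) / x) ^ 2 - x = T) : T ^ 2 * x ^ 2 + (6 * T - 4) * x + (9 - 4 * T) = 0 := by
  have e1 : T * x ^ 2 = -3 * x + 2 - 2 * y := by
    rw [← hT]
    field_simp
    linear_combination h
  have e2 : (T * x ^ 2 + 3 * x - 2) ^ 2 = 4 * (x ^ 3 - 3 * x + 1) := by
    rw [e1, ← h]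
    ring
  have e3 : x ^ 2 * (T ^ 2 * x ^ 2 + (6 * T - 4) * x + (9 - 4 * T)) = 0 := by
    linear_combination e2
  exact (mul_eq_zero.1 e3).resolve_left (by positivity)

theorem main (G : GrpFacts) (hh : S_halve) : ∀ (N : ℕ) (x y : ℚ), H x ≤ N →
    y ^ 2 = x ^ 3 - 3 * x + 1 → ∃ n : ℤ, n ≠ 0 ∧ x = zz n ∧ y = yy n := by
  -- it is enough to find the abscissa
  have fin : ∀ (x y : ℚ), y ^ 2 = x ^ 3 - 3 * x + 1 → (∃ n : ℤ, n ≠ 0 ∧ x = zz n) →
      ∃ n : ℤ, n ≠ 0 ∧ x = zz n ∧ y = yy n := by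
    rintro x y h ⟨n, hn, rfl⟩
    rw [← G.on n hn] at h
    rcases sq_eq_sq_iff_eq_or_eq_neg.1 h with h1 | h1
    · exact ⟨n, hn, rfl, h1⟩
    · refine ⟨-n, by omega, (G.neg n).1.symm, ?_⟩
      rw [(G.neg n).2]
      exact h1
  intro N
  induction N using Nat.strong_induction_on with
  | _ N ih =>
    intro x y hN h
    apply fin x y h
    by_cases hx0 : x = 0
    · exact ⟨1, one_ne_zero, by rw [hx0, G.one.1]⟩
    have hH : 4 ≤ H x := by
      by_contra hcon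
      exact hx0 (small h (by omega))
    have dbl : ∀ (k : ℤ), k ≠ 0 → zz (2 * k) =
        (zz k ^ 4 + 6 * zz k ^ 2 - 8 * zz k + 9) / (4 * yy k ^ 2) := by
      intro k hk
      rw [(G.dbl k hk).1]
      have hy := G.y_ne k hk
      field_simp
      rw [G.on k hk]
      ring
    rcases hh x y h hx0 with ⟨u, v, huv, hx⟩ | ⟨u, v, huv, hT⟩
    · have h1 := H_dbl huv hx
      have h2 : H u < H x := by
        by_contra hcon
        push Not at hcon
        have h3 : H x ^ 4 ≤ H u ^ 4 := Nat.pow_le_pow_left hcon 4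
        have h4 : H x * 1 < H x * H x ^ 3 :=
          Nat.mul_lt_mul_of_pos_left (Nat.one_lt_pow (by norm_num) (by omega)) (by omega)
        have h5 : H x * H x ^ 3 = H x ^ 4 := by ring
        omega
      obtain ⟨k, hk, h3, h4⟩ := ih (H u) (by omega) u v le_rfl huv
      refine ⟨2 * k, by omega, ?_⟩
      rw [dbl k hk, ← h3, ← h4, hx]
    · have h1 := H_dbl huv hT
      have h1' := H_add h hx0
      have h2 : H u < H x := by
        by_contra hcon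
        push Not at hcon
        have h3 : H x ^ 4 ≤ H u ^ 4 := Nat.pow_le_pow_left hcon 4
        have h4 : H x ^ 4 ≤ 10 * H x ^ 2 := h3.trans (h1.trans h1')
        have h5 : H x ^ 4 = H x ^ 2 * H x ^ 2 := by ring
        have h6 : 16 ≤ H x ^ 2 := by nlinarith
        nlinarith
      obtain ⟨k, hk, h3, h4⟩ := ih (H u) (by omega) u v le_rfl huv
      have hTk : ((y - 1) / x) ^ 2 - x = zz (2 * k) := by
        rw [dbl k hk, ← h3, ← h4, hT]
      have hrel := rel h hx0 hTk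
      obtain ⟨hne, hsum, hprod⟩ := sum_prod G (2 * k) 1 (by omega) one_ne_zero (by omega) (by omega)
      rw [G.one.1] at hne hsum hprod
      have hsum' : zz (2 * k) ^ 2 * (zz (2 * k + 1) + zz (2 * k - 1)) = 4 - 6 * zz (2 * k) := by
        rw [hsum]
        field_simp
        ring
      have hprod' : zz (2 * k) ^ 2 * (zz (2 * k + 1) * zz (2 * k - 1)) = 9 - 4 * zz (2 * k) := by
        rw [hprod]
        field_simp
        ring
      have hq : zz (2 * k) ^ 2 * ((x - zz (2 * k + 1)) * (x - zz (2 * k - 1))) = 0 := by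
        linear_combination hrel - x * hsum' + hprod'
      rcases mul_eq_zero.1 ((mul_eq_zero.1 hq).resolve_left (pow_ne_zero 2 hne)) with h7 | h7
      · exact ⟨2 * k + 1, by omega, by linarith⟩
      · exact ⟨2 * k - 1, by omega, by linarith⟩

theorem result (G : GrpFacts) (h : S_halve) : S_gen := fun x y hxy =>
  main G h (H x) x y le_rfl hxy

end Pool.Agent.TH159.J1410
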