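import Pool.Agent.TH981.LO.Bas

set_option autoImplicit false

open Pool.Agent.TH981.LO
open scoped BigOperators symmDiff MeasureTheory

namespace Pool.Agent.TH159.J492

variable {d : ℕ}

lemma shO_shO (y z : Vt d) (η : Om d) : shO y (shO z η) = shO (y + z) η := by
  funext e
  simp only [shO, shE, Equiv.coe_fn_symm_mk]
  congr 1
  rw [sub_sub]

lemma shO_zero (η : Om d) : shO 0 η = η := by
  funext e
  simp [shO, shE]

lemma measurable_shO (z : Vt d) : Measurable (shO z : Om d → Om d) :=
  measurable_pi_iff.2 fun _ => measurable_pi_apply _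

/-- translation as a measurable equivalence -/
noncomputable def shM (z : Vt d) : Om d ≃ᵐ Om d where
  toFun := shO z
  invFun := shO (-z)
  left_inv η := by rw [shO_shO, neg_add_cancel, shO_zero]
  right_inv η := by rw [shO_shO, add_neg_cancel, shO_zero]
  measurable_toFun := measurable_shO z
  measurable_invFun := measurable_shO (-z)

lemma restr_shO (z : Vt d) (S : Finset (Ed d)) (η : Om d) :
    restr S (shO z η) = shF z (restr (shF (-z) S) η) := by
  ext e
  have h : (e.1 - z - -z, e.2) = e := by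
    rw [sub_neg_eq_add, sub_add_cancel]
  rw [mem_shF, restr, restr, Finset.mem_filter, Finset.mem_filter, mem_shF, h]
  rfl

lemma restr_shO_eq_iff (z : Vt d) (S ξ : Finset (Ed d)) (η : Om d) :
    restr S (shO z η) = ξ ↔ restr (shF (-z) S) η = shF (-z) ξ := by
  rw [restr_shO]
  constructor
  · rintro rfl
    rw [shF_shF, neg_add_cancel, shF_zero]
  · intro h
    rw [h, shF_shF, add_neg_cancel, shF_zero]

lemma outPar_shO (z : Vt d) (S : Finset (Ed d)) (η : Om d) (v : Vt d) :
    outPar S (shO z η) v = outPar (shF (-z) S) η (v - z) := by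
  unfold outPar
  congr 1
  have h : ((TE {v}).filter (fun e => e ∉ S ∧ shO z η e = true)) =
      shF z ((TE {v - z}).filter (fun e => e ∉ shF (-z) S ∧ η e = true)) := by
    ext e
    rw [mem_shF, Finset.mem_filter, Finset.mem_filter, mem_shF]
    have h1 : (e.1 - z - -z, e.2) = e := by
      rw [sub_neg_eq_add, sub_add_cancel]
    rw [h1, mem_TE, mem_TE]
    simp only [Finset.mem_singleton]
    have h2 : (e.1 - z + ev e.2 = v - z) ↔ (e.1 + ev e.2 = v) := by
      constructor
      · intro h
        have := congrArg (· + z) h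
        simp only [sub_add_cancel] at this
        rw [← this]; abel
      · rintro rfl
        abel
    have h3 : (e.1 - z = v - z) ↔ e.1 = v := sub_left_inj
    rw [h2, h3]
    rfl
  rw [h, shF_card]

lemma loopW_shift (x : ℝ) (z : Vt d) (VG : Finset (Vt d)) (b : Vt d → ZMod 2)
    (ξ : Finset (Ed d)) :
    loopW x (VG.image (fun v => v - z)) b (shF (-z) ξ) =
      loopW x VG (fun v => b (v - z)) ξ := by
  unfold loopW
  rw [shF_card]
  congr 1
  rw [eq_iff_iff]
  simp only [Finset.forall_mem_image, bd_shF, sub_neg_eq_add, sub_add_cancel]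

lemma ell_shift (x : ℝ) (z : Vt d) (S : Finset (Ed d)) (VG : Finset (Vt d)) (b : Vt d → ZMod 2)
    (ξ : Finset (Ed d)) :
    ell x (shF (-z) S) (VG.image (fun v => v - z)) b (shF (-z) ξ) =
      ell x S VG (fun v => b (v - z)) ξ := by
  unfold ell
  rw [loopW_shift, powerset_shF_340, Finset.sum_map]
  congr 1
  refine Finset.sum_congr rfl fun ξ' _ => ?_
  exact loopW_shift x z VG b ξ'

lemma measurable_pre (z : Vt d) (S : Finset (Ed d)) (F : Set (Om d))
    (hF : MeasurableSet[outS S] F) : MeasurableSet[outS (shF (-z) S)] (shO z ⁻¹' F) := by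
  obtain ⟨T, hT, rfl⟩ := hF
  have hmem : ∀ e : {e : Ed d // e ∉ S}, (shE z).symm e.1 ∉ shF (-z) S := by
    intro e h
    rw [mem_shF] at h
    apply e.2
    have h1 : (((shE z).symm e.1).1 - -z, ((shE z).symm e.1).2) = e.1 := by
      show (e.1.1 - z - -z, e.1.2) = e.1
      rw [sub_neg_eq_add, sub_add_cancel]
    rwa [h1] at h
  let φ : ({e : Ed d // e ∉ shF (-z) S} → Bool) → ({e : Ed d // e ∉ S} → Bool) :=
    fun g e => g ⟨(shE z).symm e.1, hmem e⟩
  have hφ : Measurable φ := measurable_pi_iff.2 fun _ => measurable_pi_apply _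
  exact ⟨φ ⁻¹' T, hφ hT, rfl⟩

theorem mapg (d : ℕ) (x : ℝ) (_hx0 : 0 < x) : S_MAPG d x := by
  intro μ z hμ hG S VG hVG ξ hξ F hF
  have key := hG (shF (-z) S) (VG.image (fun v => v - z)) (by
    intro e he
    rw [mem_shF] at he
    obtain ⟨h1, h2⟩ := hVG _ he
    simp only [sub_neg_eq_add] at h1 h2
    refine ⟨Finset.mem_image.2 ⟨_, h1, by rw [add_sub_cancel_right]⟩,
      Finset.mem_image.2 ⟨_, h2, by abel⟩⟩) (shF (-z) ξ)
    (Finset.mem_powerset.2 (shF_mono (Finset.mem_powerset.1 hξ))) (shO z ⁻¹' F)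
    (measurable_pre z S F hF)
  have hL : (μ.map (shO z)) ({η | restr S η = ξ} ∩ F) =
      μ ({η | restr (shF (-z) S) η = shF (-z) ξ} ∩ shO z ⁻¹' F) := by
    have := MeasurableEquiv.map_apply (μ := μ) (shM z) ({η | restr S η = ξ} ∩ F)
    have h2 : (μ.map (shM z)) = μ.map (shO z) := rfl
    rw [h2] at this
    rw [this]
    congr 1
    ext η
    simp only [Set.preimage_inter, Set.mem_inter_iff, Set.mem_preimage, Set.mem_ofPred_eq]
    have h3 : (shM z) η = shO z η := rfl
    rw [h3, restr_shO_eq_iff]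
  rw [hL, key]
  have h2 : (μ.map (shO z)) = μ.map (shM z) := rfl
  rw [h2, (shM z).restrict_map, MeasureTheory.lintegral_map_equiv]
  have h4 : (shM z) ⁻¹' F = shO z ⁻¹' F := rfl
  rw [h4]
  refine MeasureTheory.lintegral_congr fun η => ?_
  rw [ell_shift]
  congr 2
  funext v
  exact (outPar_shO z S η v).symm

end Pool.Agent.TH159.J492
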