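import Pool.Agent.TH159.J492

set_option autoImplicit false

open Pool.Agent.TH981.LO
open scoped BigOperators symmDiff MeasureTheory

namespace Pool.Agent.TH159.J496

open Pool.Agent.TH159.J492

theorem ti (d : ℕ) (x : ℝ) (h1 : S_HAHN) (h2 : S_MAPG d x) (h3 : S_SUBG d x)
    (h4 : S_ACG d x) : S_TI d x := by
  intro μ z hμ hG
  have hinv : ∀ i : Fin d, μ.map (shO (ev i)) = μ := by
    intro i
    refine h1 (shO (ev i)) {ν | MeasureTheory.IsFiniteMeasure ν ∧ IsGibbs d x ν}
      (measurable_shO _) (fun ν hν => hν.1) ?_ ?_ ?_ μ ⟨hμ, hG⟩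
    · rintro ν ⟨hν, hν2⟩ ρ ⟨hρ, hρ2⟩
      exact ⟨inferInstance, h3 ν ρ hν hρ hν2 hρ2⟩
    · rintro ν ⟨hν, hν2⟩
      exact ⟨inferInstance, h2 ν (ev i) hν hν2⟩
    · rintro ν ⟨hν, hν2⟩
      exact h4 ν i hν hν2
  let H : AddSubgroup (Vt d) :=
    { carrier := {z | μ.map (shO z) = μ}
      zero_mem' := by
        show μ.map (shO 0) = μ
        have : (shO 0 : Om d → Om d) = id := funext shO_zero
        rw [this, MeasureTheory.Measure.map_id]
      add_mem' := by
        intro y z hy hz
        show μ.map (shO (y + z)) = μ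
        have h : (shO (y + z) : Om d → Om d) = shO y ∘ shO z := funext fun η => (shO_shO y z η).symm
        rw [h, ← MeasureTheory.Measure.map_map (measurable_shO y) (measurable_shO z), hz, hy]
      neg_mem' := by
        intro z hz
        show μ.map (shO (-z)) = μ
        have hz' : μ.map (shO z) = μ := hz
        have h : (shO (-z) ∘ shO z : Om d → Om d) = id := funext fun η => by
          rw [Function.comp_apply, shO_shO, neg_add_cancel, shO_zero, id]
        have := MeasureTheory.Measure.map_map (μ := μ) (measurable_shO (-z)) (measurable_shO z)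
        rw [hz', h, MeasureTheory.Measure.map_id] at this
        exact this }
  have hz : z ∈ H := by
    have h5 : z = ∑ i, z i • (ev i : Vt d) := by
      funext j
      rw [Finset.sum_apply]
      simp only [ev, Pi.smul_apply, Pi.single_apply, smul_eq_mul, mul_ite, mul_one, mul_zero]
      rw [Finset.sum_ite_eq]
      simp
    rw [h5]
    exact H.sum_mem fun i _ => H.zsmul_mem (hinv i) (z i)
  exact hz

end Pool.Agent.TH159.J496
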