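import Pool.Agent.TH159.J492

set_option autoImplicit false

open Pool.Agent.TH981.LO
open scoped BigOperators symmDiff MeasureTheory

namespace Pool.Agent.TH159.J497

open Pool.Agent.TH159.J492

variable {d : ℕ}

/-- the finite restriction -/
noncomputable def toFin (S : Finset (Ed d)) (g : S → Bool) : Finset (Ed d) :=
  (Finset.univ.filter (fun e : S => g e = true)).map (Function.Embedding.subtype _)

lemma restr_eq (S : Finset (Ed d)) (η : Om d) : restr S η = toFin S (fun e => η e) := by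
  ext e
  rw [restr, toFin, Finset.mem_filter, Finset.mem_map]
  constructor
  · rintro ⟨h1, h2⟩
    exact ⟨⟨e, h1⟩, Finset.mem_filter.2 ⟨Finset.mem_univ _, h2⟩, rfl⟩
  · rintro ⟨a, ha, rfl⟩
    exact ⟨a.2, (Finset.mem_filter.1 ha).2⟩

lemma measurable_restr (S : Finset (Ed d)) (F : Finset (Ed d) → ℝ) :
    Measurable (fun η : Om d => F (restr S η)) := by
  have h : (fun η : Om d => F (restr S η)) =
      (fun g : S → Bool => F (toFin S g)) ∘ (fun (η : Om d) (e : S) => η e) := by
    funext η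
    simp only [Function.comp_apply, restr_eq]
  rw [h]
  exact (Measurable.of_discrete).comp (measurable_pi_iff.2 fun _ => measurable_pi_apply _)

lemma integrable_restr (μ : MeasureTheory.Measure (Om d)) [MeasureTheory.IsFiniteMeasure μ]
    (S : Finset (Ed d)) (F : Finset (Ed d) → ℝ) :
    MeasureTheory.Integrable (fun η : Om d => F (restr S η)) μ := by
  refine MeasureTheory.Integrable.of_bound (measurable_restr S F).aestronglyMeasurable
    (∑ ξ ∈ S.powerset, |F ξ|) (Filter.Eventually.of_forall fun η => ?_)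
  rw [Real.norm_eq_abs]
  refine Finset.single_le_sum (f := fun ξ => |F ξ|) (fun _ _ => abs_nonneg _) ?_
  exact Finset.mem_powerset.2 (Finset.filter_subset _ _)

lemma ex_lin (x : ℝ) (D : Finset (Ed d)) (A : Vt d → ZMod 2) (hZ : ZZ d x D A ≠ 0)
    (B : Finset (Vt d)) (a c : ℝ) (f : Vt d → Finset (Ed d) → ℝ) :
    EE d x D A (fun η => a * ∑ v ∈ B, f v η - c) = a * ∑ v ∈ B, EE d x D A (f v) - c := by
  have h1 : LL d x D A (fun η => a * ∑ v ∈ B, f v η - c) =
      a * ∑ v ∈ B, LL d x D A (f v) - c * ZZ d x D A := by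
    simp only [MG.Z, MG.L]
    rw [Finset.sum_comm, Finset.mul_sum, Finset.mul_sum, ← Finset.sum_sub_distrib]
    refine Finset.sum_congr rfl fun η _ => ?_
    rw [← Finset.mul_sum]
    ring
  change LL d x D A (fun η => a * ∑ v ∈ B, f v η - c) / ZZ d x D A =
    a * ∑ v ∈ B, LL d x D A (f v) / ZZ d x D A - c
  rw [h1, sub_div, mul_div_assoc, Finset.sum_div, mul_div_assoc, div_self hZ, mul_one]

lemma local_shift {m R : ℕ} (f : Finset (Ed d) → ℝ) (hf : LocS (EB d m) f) (hR : R / 2 + m ≤ R)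
    (v : Vt d) (hv : v ∈ box d (R / 2)) (η : Om d) :
    f (shF v (restr (EB d R) η)) = f (restr (EB d m) (shO v η)) := by
  rw [hf (shF v (restr (EB d R) η))]
  congr 1
  ext e
  rw [Finset.mem_inter, mem_shF, restr, restr, Finset.mem_filter, Finset.mem_filter, mem_EB, mem_EB]
  rw [mem_box] at hv
  have h0 : (e.1 - v + ev e.2) = (e.1 + ev e.2) - v := by abel
  constructor
  · rintro ⟨⟨_, h2⟩, h3⟩
    exact ⟨h3, h2⟩
  · rintro ⟨h3, h2⟩
    refine ⟨⟨⟨?_, ?_⟩, h2⟩, h3⟩
    · have := nm_sub_le e.1 v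
      show nm (e.1 - v) ≤ R
      omega
    · show nm (e.1 - v + ev e.2) ≤ R
      rw [h0]
      have := nm_sub_le (e.1 + ev e.2) v
      omega

/-- the integral of a local function is close to the finite volume expectation -/
lemma close (x : ℝ) (h1 : S_FV2 d x) (h2 : S_TRANS d x) (h3 : S_TI d x)
    (μ : MeasureTheory.Measure (Om d)) (hμ : MeasureTheory.IsProbabilityMeasure μ)
    (hG : IsGibbs d x μ) (m : ℕ) (f : Finset (Ed d) → ℝ) (hf : LocS (EB d m) f)
    (hb : ∀ η, |f η| ≤ 1) (ε : ℝ) (hε : 0 < ε) :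
    ∃ R₀ : ℕ, ∀ R' : ℕ, R₀ ≤ R' →
      |∫ η, f (restr (EB d m) η) ∂μ - EE d x (EB d R') 0 f| ≤ ε := by
  obtain ⟨R₀, hR₀⟩ := h1 m ε hε
  refine ⟨R₀, fun R' hR' => ?_⟩
  set R := max R₀ (2 * m + 2) with hR
  have hRR : R₀ ≤ R := le_max_left _ _
  have hRm : R / 2 + m ≤ R := by
    have : 2 * m + 2 ≤ R := le_max_right _ _
    omega
  set c := EE d x (EB d R') 0 f with hc
  set B := box d (R / 2) with hB
  set a : ℝ := ((B.card : ℝ))⁻¹ with ha
  have hBc : (B.card : ℝ) ≠ 0 := by
    rw [hB, card_box]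
    positivity
  -- the integral of the average
  have hint : ∀ v ∈ B, ∫ η, f (shF v (restr (EB d R) η)) ∂μ = ∫ η, f (restr (EB d m) η) ∂μ := by
    intro v hv
    have e1 : (fun η : Om d => f (shF v (restr (EB d R) η))) =
        fun η => (fun η' => f (restr (EB d m) η')) (shO v η) := by
      funext η
      exact local_shift f hf hRm v hv η
    rw [e1]
    have e2 := MeasureTheory.integral_map (μ := μ) (φ := shO v) (measurable_shO v).aemeasurable
      (f := fun η' : Om d => f (restr (EB d m) η'))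
      (measurable_restr (EB d m) f).aestronglyMeasurable
    rw [h3 μ v inferInstance hG] at e2
    exact e2.symm
  have hsum : ∫ η, (a * ∑ v ∈ B, f (shF v (restr (EB d R) η)) - c) ∂μ =
      ∫ η, f (restr (EB d m) η) ∂μ - c := by
    rw [MeasureTheory.integral_sub, MeasureTheory.integral_const_mul,
      MeasureTheory.integral_finsetSum]
    · rw [Finset.sum_congr rfl hint, Finset.sum_const, nsmul_eq_mul, ← mul_assoc, ha,
        inv_mul_cancel₀ hBc, one_mul]
      simp
    · intro v _
      exact integrable_restr μ (EB d R) (fun ξ => f (shF v ξ))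
    · exact (MeasureTheory.integrable_finsetSum _ fun v _ =>
        integrable_restr μ (EB d R) (fun ξ => f (shF v ξ))).const_mul a
    · exact MeasureTheory.integrable_const c
  have hup := h2 μ inferInstance hG R (fun ξ => a * ∑ v ∈ B, f (shF v ξ) - c) ε (by
    intro U hU hZ
    have := hR₀ R R' U f hRR hR' hU hZ hb hf
    rw [ex_lin x (EB d R) (ind U) hZ B a c (fun v η => f (shF v η))]
    exact (le_abs_self _).trans this)
  have hdn := h2 μ inferInstance hG R (fun ξ => (-a) * ∑ v ∈ B, f (shF v ξ) - (-c)) ε (by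
    intro U hU hZ
    have := hR₀ R R' U f hRR hR' hU hZ hb hf
    rw [ex_lin x (EB d R) (ind U) hZ B (-a) (-c) (fun v η => f (shF v η))]
    have h5 := (neg_le_abs _).trans this
    linarith)
  have hdn2 : ∫ η, ((-a) * ∑ v ∈ B, f (shF v (restr (EB d R) η)) - (-c)) ∂μ =
      -∫ η, (a * ∑ v ∈ B, f (shF v (restr (EB d R) η)) - c) ∂μ := by
    rw [← MeasureTheory.integral_neg]
    congr 1
    funext η
    ring
  rw [hdn2, hsum] at hdn
  rw [hsum] at hup
  have hu : μ.real Set.univ = 1 := by simp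
  rw [hu, mul_one] at hup hdn
  rw [abs_le]
  constructor <;> linarith

lemma integral_eq (x : ℝ) (h1 : S_FV2 d x) (h2 : S_TRANS d x) (h3 : S_TI d x)
    (μ ν : MeasureTheory.Measure (Om d)) (hμ : MeasureTheory.IsProbabilityMeasure μ)
    (hν : MeasureTheory.IsProbabilityMeasure ν)
    (hG : IsGibbs d x μ) (hG' : IsGibbs d x ν) (m : ℕ) (f : Finset (Ed d) → ℝ)
    (hf : LocS (EB d m) f) (hb : ∀ η, |f η| ≤ 1) :
    ∫ η, f (restr (EB d m) η) ∂μ = ∫ η, f (restr (EB d m) η) ∂ν := by
  refine eq_of_abs_sub_le_all fun ε hε => ?_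
  obtain ⟨R₁, hR₁⟩ := close x h1 h2 h3 μ hμ hG m f hf hb (ε / 2) (by linarith)
  obtain ⟨R₂, hR₂⟩ := close x h1 h2 h3 ν hν hG' m f hf hb (ε / 2) (by linarith)
  have a1 := hR₁ (max R₁ R₂) (le_max_left _ _)
  have a2 := hR₂ (max R₁ R₂) (le_max_right _ _)
  rw [abs_le] at *
  constructor <;> linarith [a1.1, a1.2, a2.1, a2.2]

theorem uniq (d : ℕ) (x : ℝ) (_hx0 : 0 < x) (h1 : S_FV2 d x) (h2 : S_TRANS d x)
    (h3 : S_TI d x) : S_UNIQ d x := by
  classical
  intro μ ν hμ hν hG hG'
  refine MeasureTheory.ext_of_generate_finite (MeasureTheory.measurableCylinders fun _ : Ed d => Bool)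
    MeasureTheory.generateFrom_measurableCylinders.symm
    MeasureTheory.isPiSystem_measurableCylinders ?_ (by simp)
  intro s hs
  obtain ⟨I, T, hT, rfl⟩ := (MeasureTheory.mem_measurableCylinders _).1 hs
  set m := I.sup (fun e => max (nm e.1) (nm (e.1 + ev e.2))) with hm
  have hI : I ⊆ EB d m := by
    intro e he
    rw [mem_EB]
    have h5 : max (nm e.1) (nm (e.1 + ev e.2)) ≤ m :=
      Finset.le_sup (f := fun e : Ed d => max (nm e.1) (nm (e.1 + ev e.2))) he
    exact ⟨(le_max_left _ _).trans h5, (le_max_right _ _).trans h5⟩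
  let f : Finset (Ed d) → ℝ := fun ξ => if (fun e : I => decide ((e : Ed d) ∈ ξ)) ∈ T then 1 else 0
  have hf : LocS (EB d m) f := by
    intro ξ
    have : (fun e : I => decide ((e : Ed d) ∈ ξ)) = fun e : I => decide ((e : Ed d) ∈ ξ ∩ EB d m) := by
      funext e
      rw [decide_eq_decide, Finset.mem_inter]
      exact ⟨fun h => ⟨h, hI e.2⟩, fun h => h.1⟩
    show (if (fun e : I => decide ((e : Ed d) ∈ ξ)) ∈ T then (1 : ℝ) else 0) = _
    rw [this]
  have hb : ∀ η, |f η| ≤ 1 := by
    intro η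
    show |if _ then (1 : ℝ) else 0| ≤ 1
    split_ifs <;> simp
  have h6 := integral_eq x h1 h2 h3 μ ν hμ hν hG hG' m f hf hb
  have h7 : (fun η : Om d => f (restr (EB d m) η)) =
      Set.indicator (MeasureTheory.cylinder I T) (fun _ => (1 : ℝ)) := by
    funext η
    have h8 : (fun e : I => decide ((e : Ed d) ∈ restr (EB d m) η)) = fun e : I => η e := by
      funext e
      have h10 : ((e : Ed d) ∈ restr (EB d m) η) ↔ η e = true := by
        rw [restr, Finset.mem_filter]
        exact ⟨fun h => h.2, fun h => ⟨hI e.2, h⟩⟩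
      simp only [h10, Bool.decide_eq_true]
    show (if (fun e : I => decide ((e : Ed d) ∈ restr (EB d m) η)) ∈ T then (1 : ℝ) else 0) = _
    rw [h8, Set.indicator_apply]
    rfl
  have hms : MeasurableSet (MeasureTheory.cylinder (α := fun _ : Ed d => Bool) I T) :=
    MeasurableSet.cylinder (α := fun _ : Ed d => Bool) I hT
  rw [h7, MeasureTheory.integral_indicator_const _ hms,
    MeasureTheory.integral_indicator_const _ hms, smul_eq_mul, smul_eq_mul, mul_one, mul_one] at h6
  exact (MeasureTheory.measureReal_eq_measureReal_iff).1 h6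

end Pool.Agent.TH159.J497
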