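import Pool.Agent.TH598.GV.Defs2
import Pool.Agent.TH615.J4025

set_option autoImplicit false

/-!
Job 5809 (GV-SC): uniform lower bound of the form near the real direction.
-/

namespace Pool.Agent.TH159.J5809

open Finset MeasureTheory Pool.Agent.TH598.GV Pool.Agent.TH615.J4025
open scoped ComplexConjugate ComplexOrder

section shear

variable {I : Type} [Fintype I]

lemma Q_add1 (H : I → I → I → I → ℂ) (z x w z' w' : I → ℂ) (c : ℂ) :
    Q H (fun i => z i + c * x i) w z' w' = Q H z w z' w' + c * Q H x w z' w' := by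
  unfold Q
  simp only [Finset.mul_sum, ← Finset.sum_add_distrib]
  refine Finset.sum_congr rfl fun i _ => Finset.sum_congr rfl fun j _ =>
    Finset.sum_congr rfl fun k _ => Finset.sum_congr rfl fun l _ => ?_
  ring

lemma Q_add3 (H : I → I → I → I → ℂ) (z w z' w' x : I → ℂ) (c : ℂ) :
    Q H z w (fun i => z' i + c * x i) w' = Q H z w z' w' + conj c * Q H z w x w' := by
  unfold Q
  simp only [Finset.mul_sum, ← Finset.sum_add_distrib]
  refine Finset.sum_congr rfl fun i _ => Finset.sum_congr rfl fun j _ =>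
    Finset.sum_congr rfl fun k _ => Finset.sum_congr rfl fun l _ => ?_
  simp only [map_add, map_mul]
  ring

lemma qf_shear1 {H : I → I → I → I → ℂ} (hH : HS H) (z w : I → ℂ) (c : ℂ) :
    qf H (fun i => z i + c * w i) w = qf H z w := by
  change Q H (fun i => z i + c * w i) w (fun i => z i + c * w i) w = Q H z w z w
  rw [Q_add1, Q_add3, Q_alt12 hH, Q_alt34 hH]
  ring

end shear

lemma em_ne_e0 {k : ℕ} (j : K k) : (e0 : Ix k) ≠ em j := by
  intro h
  have := congrArg Prod.fst h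
  exact (Fin.succ_ne_zero j.1) this.symm

lemma em_ne_e1 {k : ℕ} (j : K k) : (e1 : Ix k) ≠ em j := by
  intro h
  have := congrArg Prod.fst h
  exact (Fin.succ_ne_zero j.1) this.symm

lemma e0_ne_e1 {k : ℕ} : (e0 : Ix k) ≠ e1 := by
  simp [e0, e1]

lemma wv_e1 {k : ℕ} (u : K k → ℂ) : wv u e1 = 1 := by
  unfold wv
  simp [em_ne_e1]

lemma wv_e0 {k : ℕ} (u : K k → ℂ) : wv u e0 = 0 := by
  unfold wv
  simp [em_ne_e0, e0_ne_e1]

lemma cont_qf {k : ℕ} (H : Ix k → Ix k → Ix k → Ix k → ℂ) :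
    Continuous fun p : (Ix k → ℂ) × (K k → ℂ) => (qf H p.1 (wv p.2)).re := by
  unfold qf wv
  refine Complex.continuous_re.comp ?_
  refine continuous_finsetSum _ fun i _ => continuous_finsetSum _ fun j _ =>
    continuous_finsetSum _ fun i' _ => continuous_finsetSum _ fun j' _ => ?_
  have h1 : ∀ i : Ix k, Continuous fun p : (Ix k → ℂ) × (K k → ℂ) => p.1 i := fun i =>
    (continuous_apply i).comp continuous_fst
  have h2 : ∀ i : Ix k, Continuous fun p : (Ix k → ℂ) × (K k → ℂ) =>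
      ((if i = e1 then 1 else 0) + ∑ j, p.2 j * (if i = em j then 1 else 0) : ℂ) := fun i =>
    continuous_const.add (continuous_finsetSum _ fun j _ =>
      ((continuous_apply j).comp continuous_snd).mul continuous_const)
  exact continuous_const.mul ((((h1 i).mul (h2 j)).mul (Complex.continuous_conj.comp (h1 i'))).mul
    (Complex.continuous_conj.comp (h2 j')))

/-- homogeneity and shear -/
lemma lower {k : ℕ} (H : Ix k → Ix k → Ix k → Ix k → ℂ) (hH : HS H) (m : ℝ) (hm : 0 ≤ m)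
    (z : Ix k → ℂ) (u : K k → ℂ) (hz : z e0 = 1)
    (h : ∀ y : Ix k → ℂ, y e1 = 0 → ‖y‖ = 1 → m < (qf H y (wv u)).re) :
    m ≤ (qf H z (wv u)).re := by
  obtain ⟨z', hz'⟩ : ∃ z' : Ix k → ℂ, z' = fun i => z i + (-z e1) * wv u i := ⟨_, rfl⟩
  have hq : qf H z' (wv u) = qf H z (wv u) := by
    rw [hz']
    exact qf_shear1 hH z (wv u) (-z e1)
  have hz'1 : z' e1 = 0 := by
    rw [hz']
    simp only [wv_e1]
    ring
  have hz'0 : z' e0 = 1 := by
    rw [hz']
    simp only [wv_e0, hz]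
    ring
  clear hz'
  have hs1 : 1 ≤ ‖z'‖ := by
    have h1 := norm_le_pi_norm z' e0
    rwa [hz'0, norm_one] at h1
  obtain ⟨s, hs⟩ : ∃ s : ℝ, s = ‖z'‖ := ⟨_, rfl⟩
  rw [← hs] at hs1
  have hs0 : (0 : ℝ) < s := by linarith
  obtain ⟨y, hy⟩ : ∃ y : Ix k → ℂ, y = (s⁻¹ : ℝ) • z' := ⟨_, rfl⟩
  have hy1 : y e1 = 0 := by
    rw [hy, Pi.smul_apply, hz'1, smul_zero]
  have hyn : ‖y‖ = 1 := by
    rw [hy, norm_smul, norm_inv, Real.norm_of_nonneg hs0.le, ← hs]
    exact inv_mul_cancel₀ hs0.ne'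
  have hyS := h y hy1 hyn
  have ey : (fun i => ((s : ℝ) : ℂ) * y i) = z' := by
    funext i
    rw [hy, Pi.smul_apply, Complex.real_smul, ← mul_assoc, ← Complex.ofReal_mul,
      mul_inv_cancel₀ hs0.ne', Complex.ofReal_one, one_mul]
  have ew : (fun i => ((1 : ℝ) : ℂ) * wv u i) = wv u := by
    funext i
    rw [Complex.ofReal_one, one_mul]
  have hz'y := qf_smul H y (wv u) s 1
  rw [ey, ew] at hz'y
  rw [← hq, hz'y, Complex.re_ofReal_mul]
  have h3 : (1 : ℝ) ≤ s ^ 2 * 1 ^ 2 := by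
    rw [one_pow, mul_one]
    exact one_le_pow₀ hs1
  exact hyS.le.trans (le_mul_of_one_le_left (by linarith) h3)

/-- a uniform lower bound near the real direction `e₁` -/
theorem locbd {k : ℕ} (H : Ix k → Ix k → Ix k → Ix k → ℂ) (hH : HS H)
    (h : ∀ z : Ix k → ℂ, z e1 = 0 → z ≠ 0 → 0 < (qf H z (wv fun _ => 0)).re) :
    ∃ c r : ℝ, 0 < c ∧ 0 < r ∧ ∀ (b : Ix k → ℂ) (u : K k → ℂ), b e0 = 0 →
      ∑ j, ‖u j‖ ^ 2 < r ^ 2 →
      c ≤ (qf H (fun i => (if i = e0 then 1 else 0) - b i) (wv u)).re := by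
  set Z : Set (Ix k → ℂ) := {z | z e1 = 0} ∩ Metric.sphere 0 1 with hZ
  have hZc : IsCompact Z := (isCompact_sphere _ _).inter_left
    (isClosed_eq (continuous_apply e1) continuous_const)
  have hcont := cont_qf H
  obtain ⟨m, hm0, hm⟩ := hZc.exists_forall_le' (f := fun z => (qf H z (wv fun _ => 0)).re) (a := 0)
    ((hcont.comp (continuous_id.prodMk continuous_const)).continuousOn) (by
      rintro z ⟨hz1, hz2⟩
      refine h z hz1 ?_
      rintro rfl
      simp at hz2)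
  have hS : IsOpen {p : (Ix k → ℂ) × (K k → ℂ) | m / 2 < (qf H p.1 (wv p.2)).re} :=
    isOpen_lt continuous_const hcont
  obtain ⟨U, V, hU, hV, hZU, h0V, hUV⟩ := generalized_tube_lemma hZc
    (isCompact_singleton (x := (0 : K k → ℂ))) hS (by
      rintro ⟨z, u⟩ ⟨hz, hu⟩
      rw [Set.mem_singleton_iff] at hu
      simp only at hz hu
      subst hu
      have h1 := hm z hz
      change m / 2 < (qf H z (wv fun _ => 0)).re
      linarith)
  obtain ⟨r, hr, hrV⟩ := Metric.isOpen_iff.mp hV 0 (h0V rfl)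
  refine ⟨m / 2, r, by positivity, hr, fun b u hb hu => ?_⟩
  have huV : u ∈ V := by
    refine hrV ?_
    rw [mem_ball_zero_iff, pi_norm_lt_iff hr]
    intro j
    have h1 : ‖u j‖ ^ 2 ≤ ∑ j, ‖u j‖ ^ 2 :=
      Finset.single_le_sum (f := fun j => ‖u j‖ ^ 2) (fun i _ => by positivity) (Finset.mem_univ j)
    exact lt_of_pow_lt_pow_left₀ 2 hr.le (lt_of_le_of_lt h1 hu)
  refine lower H hH (m / 2) (by linarith) _ u (by simp [hb]) fun y hy1 hy2 => ?_
  have hyZ : y ∈ Z := ⟨hy1, mem_sphere_zero_iff_norm.mpr hy2⟩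
  have hyS : (y, u) ∈ U ×ˢ V := ⟨hZU hyZ, huV⟩
  have hfin := hUV hyS
  rw [Set.mem_ofPred_eq] at hfin
  exact hfin

end Pool.Agent.TH159.J5809
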