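import Pool.Agent.TH421.OS.Odd

/-! Job 987 (helper421, MP_d12cfa_co): symmetric alternating sign matrices and the transfer
recursion. -/

set_option autoImplicit false

namespace Pool.Agent.TH159.J987

open Pool.Agent.TH421.OS

/-- the integer `0` or `1` of a state -/
def bi (b : Bool) : ℤ := if b then 1 else 0

@[simp] lemma bi_true : bi true = 1 := rfl
@[simp] lemma bi_false : bi false = 0 := rfl

lemma bi_mem (b : Bool) : bi b = 0 ∨ bi b = 1 := by cases b <;> simp

lemma exists_bi {x : ℤ} (h : x = 0 ∨ x = 1) : ∃ b, bi b = x := by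
  rcases h with rfl | rfl
  · exact ⟨false, rfl⟩
  · exact ⟨true, rfl⟩

lemma bi_inj {b b' : Bool} (h : bi b = bi b') : b = b' := by
  cases b <;> cases b' <;> simp_all

/-- partial sums starting from `r` stay in `{0, 1}` and end in `1` -/
def Ok {n : ℕ} (r : ℤ) (a : Fin n → ℤ) : Prop :=
  (∀ m, r + ∑ k ∈ Finset.Iic m, a k = 0 ∨ r + ∑ k ∈ Finset.Iic m, a k = 1) ∧
    r + ∑ k, a k = 1

lemma sum_Iic_succ {n : ℕ} (a : Fin (n + 1) → ℤ) (m : Fin n) :
    ∑ k ∈ Finset.Iic m.succ, a k = a 0 + ∑ k ∈ Finset.Iic m, a k.succ := by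
  have h1 : ∀ (N : ℕ) (b : Fin N → ℤ) (m : Fin N), ∑ k ∈ Finset.Iic m, b k =
      ∑ k, if k ≤ m then b k else 0 := by
    intro N b m
    rw [← Finset.sum_filter]
    congr 1
    ext k
    simp
  rw [h1, h1, Fin.sum_univ_succ]
  simp [Fin.succ_le_succ_iff]

lemma sum_Iic_zero {n : ℕ} (a : Fin (n + 1) → ℤ) : ∑ k ∈ Finset.Iic (0 : Fin (n + 1)), a k = a 0 := by
  have : Finset.Iic (0 : Fin (n + 1)) = {0} := by
    ext k
    simp
  rw [this, Finset.sum_singleton]

lemma ok_zero {r : ℤ} (a : Fin 0 → ℤ) : Ok r a ↔ r = 1 := by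
  unfold Ok
  simp

lemma ok_succ {n : ℕ} {r : ℤ} (a : Fin (n + 1) → ℤ) :
    Ok r a ↔ (r + a 0 = 0 ∨ r + a 0 = 1) ∧ Ok (r + a 0) (fun k => a k.succ) := by
  unfold Ok
  rw [Fin.sum_univ_succ]
  constructor
  · rintro ⟨h1, h2⟩
    refine ⟨?_, fun m => ?_, ?_⟩
    · have := h1 0
      rwa [sum_Iic_zero] at this
    · have := h1 m.succ
      rw [sum_Iic_succ, ← add_assoc] at this
      exact this
    · rw [← h2]; ring
  · rintro ⟨h0, h1, h2⟩
    refine ⟨fun m => ?_, by rw [← h2]; ring⟩
    refine Fin.cases ?_ (fun m => ?_) m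
    · rwa [sum_Iic_zero]
    · rw [sum_Iic_succ, ← add_assoc]
      exact h1 m

open Classical in
/-- the row operator as a sum over the new states -/
lemma row_eq {R : Type*} [CommRing R] (n : ℕ) : ∀ (r : Bool) (c : Fin n → Bool)
    (F : List Bool → R), row 0 (List.replicate n 0) r (List.ofFn c) F =
      ∑ c' : Fin n → Bool, if Ok (bi r) (fun k => bi (c' k) - bi (c k)) then
        F (List.ofFn c') else 0 := by
  induction n with
  | zero =>
    intro r c F
    simp only [List.replicate_zero, List.ofFn_zero, ok_zero]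
    cases r
    · simp [row]
    · simp [row]
  | succ n ih =>
    intro r c F
    rw [← (Fin.consEquiv (fun _ : Fin (n + 1) => Bool)).sum_comp, Fintype.sum_prod_type,
      List.replicate_succ, List.ofFn_succ]
    simp only [Fintype.sum_bool, Fin.consEquiv_apply, ok_succ, Fin.cons_zero, Fin.cons_succ]
    have h0 : ∀ (x : Bool) (c' : Fin n → Bool),
        List.ofFn ((Fin.consEquiv fun _ : Fin (n + 1) => Bool) (x, c')) = x :: List.ofFn c' := by
      intro x c'
      rw [List.ofFn_succ]
      simp [Fin.consEquiv]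
    simp only [h0]
    cases r <;> cases hc : c 0 <;> simp [row, rho, ih]
    · rw [add_comm]
      congr!
    · congr!
    · congr!
    · congr!

/-- the matrices -/
structure Mt {N : ℕ} (c : Fin N → Bool) (A : Fin N → Fin N → ℤ) : Prop where
  sym : ∀ i j, A i j = A j i
  ok : ∀ i, Ok (bi (c i)) (A i)

lemma ok_entry {n : ℕ} : ∀ {r : ℤ} {a : Fin n → ℤ}, (r = 0 ∨ r = 1) → Ok r a → ∀ i,
    a i ∈ ({-1, 0, 1} : Finset ℤ) := by
  induction n with
  | zero => intro r a _ _ i; exact i.elim0
  | succ n ih =>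
    intro r a hr h i
    rw [ok_succ] at h
    refine Fin.cases ?_ (fun i => ih h.1 h.2 i) i
    simp only [Finset.mem_insert, Finset.mem_singleton]
    omega

open Classical in
/-- the finite set of the matrices -/
noncomputable def S {N : ℕ} (c : Fin N → Bool) : Finset (Fin N → Fin N → ℤ) :=
  (Fintype.piFinset fun _ => Fintype.piFinset fun _ => ({-1, 0, 1} : Finset ℤ)).filter (Mt c)

lemma mem_S {N : ℕ} {c : Fin N → Bool} {A : Fin N → Fin N → ℤ} : A ∈ S c ↔ Mt c A := by
  classical
  unfold S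
  rw [Finset.mem_filter, and_iff_right_iff_imp]
  intro h
  rw [Fintype.mem_piFinset]
  intro i
  rw [Fintype.mem_piFinset]
  intro j
  exact ok_entry (bi_mem _) (h.ok i) j

/-- number of nonzero diagonal entries -/
def dg {N : ℕ} (A : Fin N → Fin N → ℤ) : ℕ := ∑ i, if A i i = 0 then 0 else 1

/-- the generating function -/
noncomputable def G {R : Type*} [CommRing R] (ζ : R) {N : ℕ} (c : Fin N → Bool) : R :=
  ∑ A ∈ S c, ζ ^ dg A

/-- the state of the first line after the diagonal -/
noncomputable def st0 {N : ℕ} (c : Fin (N + 1) → Bool) (A : Fin (N + 1) → Fin (N + 1) → ℤ) :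
    Bool := decide (bi (c 0) + A 0 0 = 1)

/-- the states of the other lines after crossing the first line -/
noncomputable def st1 {N : ℕ} (c : Fin (N + 1) → Bool) (A : Fin (N + 1) → Fin (N + 1) → ℤ)
    (j : Fin N) : Bool := decide (bi (c j.succ) + A 0 j.succ = 1)

lemma bi_decide {x : ℤ} (h : x = 0 ∨ x = 1) : bi (decide (x = 1)) = x := by
  rcases h with rfl | rfl <;> simp

/-- the matrix from its first row and the lower right block -/
def mk {N : ℕ} (c : Fin (N + 1) → Bool) (x : Bool) (c' : Fin N → Bool)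
    (B : Fin N → Fin N → ℤ) : Fin (N + 1) → Fin (N + 1) → ℤ :=
  Fin.cons (Fin.cons (bi x - bi (c 0)) fun j => bi (c' j) - bi (c j.succ))
    fun i => Fin.cons (bi (c' i) - bi (c i.succ)) (B i)

section mk

variable {N : ℕ} (c : Fin (N + 1) → Bool) (x : Bool) (c' : Fin N → Bool)
    (B : Fin N → Fin N → ℤ)

@[simp] lemma mk_00 : mk c x c' B 0 0 = bi x - bi (c 0) := rfl
@[simp] lemma mk_0s (j : Fin N) : mk c x c' B 0 j.succ = bi (c' j) - bi (c j.succ) := rfl
@[simp] lemma mk_s0 (i : Fin N) : mk c x c' B i.succ 0 = bi (c' i) - bi (c i.succ) := rfl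
@[simp] lemma mk_ss (i j : Fin N) : mk c x c' B i.succ j.succ = B i j := rfl

lemma mt_mk : Mt c (mk c x c' B) ↔ Ok (bi x) (fun k => bi (c' k) - bi (c k.succ)) ∧ Mt c' B := by
  constructor
  · rintro ⟨h1, h2⟩
    refine ⟨?_, ⟨fun i j => h1 i.succ j.succ, fun i => ?_⟩⟩
    · have h3 := ((ok_succ _).1 (h2 0)).2
      simpa using h3
    · have h3 := ((ok_succ _).1 (h2 i.succ)).2
      simpa using h3
  · rintro ⟨h1, h2, h3⟩
    refine ⟨fun i j => ?_, fun i => ?_⟩
    · refine Fin.cases ?_ (fun i => ?_) i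
      · refine Fin.cases rfl (fun j => rfl) j
      · refine Fin.cases rfl (fun j => h2 i j) j
    · refine Fin.cases ?_ (fun i => ?_) i
      · rw [ok_succ]
        simp only [mk_00, mk_0s, add_sub_cancel]
        exact ⟨bi_mem x, h1⟩
      · rw [ok_succ]
        simp only [mk_s0, mk_ss, add_sub_cancel]
        exact ⟨bi_mem _, h3 i⟩

lemma dg_mk : dg (mk c x c' B) = (if x = c 0 then 0 else 1) + dg B := by
  unfold dg
  rw [Fin.sum_univ_succ]
  have h : (mk c x c' B 0 0 = 0) ↔ x = c 0 := by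
    rw [mk_00]
    cases x <;> cases c 0 <;> simp
  have h2 : (if mk c x c' B 0 0 = 0 then 0 else 1 : ℕ) = if x = c 0 then 0 else 1 := by
    by_cases hx : x = c 0
    · rw [if_pos (h.2 hx), if_pos hx]
    · rw [if_neg (fun h' => hx (h.1 h')), if_neg hx]
  rw [h2]
  rfl

end mk

lemma mk_of_mt {N : ℕ} {c : Fin (N + 1) → Bool} {A : Fin (N + 1) → Fin (N + 1) → ℤ}
    (h : Mt c A) : mk c (st0 c A) (st1 c A) (fun i j => A i.succ j.succ) = A := by
  have h00 : bi (st0 c A) = bi (c 0) + A 0 0 := bi_decide ((ok_succ _).1 (h.ok 0)).1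
  have h0s : ∀ j, bi (st1 c A j) = bi (c j.succ) + A 0 j.succ := by
    intro j
    refine bi_decide ?_
    have := ((ok_succ _).1 (h.ok j.succ)).1
    rwa [h.sym] at this
  funext i j
  refine Fin.cases ?_ (fun i => ?_) i
  · refine Fin.cases ?_ (fun j => ?_) j
    · rw [mk_00, h00]; ring
    · rw [mk_0s, h0s]; ring
  · refine Fin.cases ?_ (fun j => ?_) j
    · rw [mk_s0, h0s, h.sym 0 i.succ]; ring
    · rw [mk_ss]

open Classical in
lemma G_succ {R : Type*} [CommRing R] (ζ : R) {N : ℕ} (c : Fin (N + 1) → Bool) :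
    G ζ c = ∑ x : Bool, ζ ^ (if x = c 0 then 0 else 1) * ∑ c' : Fin N → Bool,
      if Ok (bi x) (fun k => bi (c' k) - bi (c k.succ)) then G ζ c' else 0 := by
  -- fibers of the map to the pair of states
  have h1 : G ζ c = ∑ p : Bool × (Fin N → Bool),
      ∑ A ∈ (S c).filter (fun A => (st0 c A, st1 c A) = p), ζ ^ dg A := by
    unfold G
    exact (Finset.sum_fiberwise (S c) (fun A => (st0 c A, st1 c A)) fun A => ζ ^ dg A).symm
  rw [h1, Fintype.sum_prod_type]
  refine Finset.sum_congr rfl fun x _ => ?_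
  rw [Finset.mul_sum]
  refine Finset.sum_congr rfl fun c' _ => ?_
  have hst0 : ∀ B, st0 c (mk c x c' B) = x := by
    intro B
    unfold st0
    rw [mk_00, add_sub_cancel]
    cases x <;> simp
  have hst1 : ∀ B, st1 c (mk c x c' B) = c' := by
    intro B
    funext j
    unfold st1
    rw [mk_0s, add_sub_cancel]
    cases c' j <;> simp
  by_cases hok : Ok (bi x) (fun k => bi (c' k) - bi (c k.succ))
  · rw [if_pos hok]
    unfold G
    rw [Finset.mul_sum]
    refine Finset.sum_nbij' (fun A => fun i j => A i.succ j.succ) (fun B => mk c x c' B)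
      ?_ ?_ ?_ ?_ ?_
    · intro A hA
      rw [Finset.mem_filter, mem_S] at hA
      obtain ⟨hA, hp⟩ := hA
      obtain ⟨rfl, rfl⟩ := Prod.mk.inj hp
      have := mk_of_mt hA
      rw [← this, mt_mk] at hA
      exact mem_S.2 hA.2
    · intro B hB
      rw [Finset.mem_filter, mem_S, mt_mk, hst0, hst1]
      exact ⟨⟨hok, mem_S.1 hB⟩, rfl⟩
    · intro A hA
      rw [Finset.mem_filter, mem_S] at hA
      obtain ⟨hA, hp⟩ := hA
      obtain ⟨rfl, rfl⟩ := Prod.mk.inj hp
      exact mk_of_mt hA
    · intro B hB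
      rfl
    · intro A hA
      rw [Finset.mem_filter, mem_S] at hA
      obtain ⟨hA, hp⟩ := hA
      obtain ⟨rfl, rfl⟩ := Prod.mk.inj hp
      conv_lhs => rw [← mk_of_mt hA, dg_mk, pow_add]
  · rw [if_neg hok, mul_zero]
    refine Finset.sum_eq_zero ?_
    intro A hA
    exfalso
    rw [Finset.mem_filter, mem_S] at hA
    obtain ⟨hA, hp⟩ := hA
    obtain ⟨rfl, rfl⟩ := Prod.mk.inj hp
    have := mk_of_mt hA
    rw [← this, mt_mk] at hA
    exact hok hA.1

lemma G_zero {R : Type*} [CommRing R] (ζ : R) (c : Fin 0 → Bool) : G ζ c = 1 := by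
  unfold G
  have h : S c = {fun i => i.elim0} := by
    ext A
    rw [mem_S, Finset.mem_singleton]
    constructor
    · intro _
      exact Subsingleton.elim _ _
    · rintro rfl
      exact ⟨fun i => i.elim0, fun i => i.elim0⟩
  rw [h, Finset.sum_singleton]
  simp [dg]

lemma Z_eq {R : Type*} [CommRing R] (ζ : R) (N : ℕ) : ∀ c : Fin N → Bool,
    Z ζ (List.replicate N 0) (List.ofFn c) = G ζ c := by
  induction N with
  | zero =>
    intro c
    rw [G_zero]
    simp [Z]
  | succ N ih =>
    intro c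
    classical
    rw [G_succ, Fintype.sum_bool, List.replicate_succ, List.ofFn_succ]
    simp only [← ih, ← row_eq N _ (fun i => c i.succ) (Z ζ (List.replicate N 0))]
    cases hc : c 0
    · simp [Z]
      ring
    · simp [Z, rho]

/-- the parity argument -/
lemma parity {N : ℕ} {A : Fin N → Fin N → ℤ} (hs : ∀ i j, A i j = A j i)
    (hd : ∀ i, A i i = 0) : ((∑ i, ∑ j, A i j : ℤ) : ZMod 2) = 0 := by
  have h1 : ((∑ i, ∑ j, A i j : ℤ) : ZMod 2) =
      ∑ p ∈ (Finset.univ : Finset (Fin N × Fin N)), ((A p.1 p.2 : ℤ) : ZMod 2) := by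
    rw [← Finset.sum_product', Finset.univ_product_univ]
    push_cast
    rfl
  rw [h1]
  refine Finset.sum_involution (fun p _ => p.swap) ?_ ?_ ?_ ?_
  · intro p _
    simp only [Prod.fst_swap, Prod.snd_swap]
    rw [hs p.2 p.1]
    exact CharTwo.add_self_eq_zero _
  · intro p _ hp h
    apply hp
    have : p.2 = p.1 := congrArg Prod.fst h
    rw [this, hd]
    simp
  · intro p _
    exact Finset.mem_univ _
  · intro p _
    exact Prod.swap_swap p

theorem card_eq (n : ℕ) :
    ((Nat.card {A : Matrix (Fin (2 * n + 1)) (Fin (2 * n + 1)) ℤ //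
          (∀ i j, A i j = -1 ∨ A i j = 0 ∨ A i j = 1) ∧
          (∀ i k, (∑ j ∈ Finset.Iic k, A i j) = 0 ∨ (∑ j ∈ Finset.Iic k, A i j) = 1) ∧
          (∀ i, (∑ j, A i j) = 1) ∧
          (∀ j k, (∑ i ∈ Finset.Iic k, A i j) = 0 ∨ (∑ i ∈ Finset.Iic k, A i j) = 1) ∧
          (∀ j, (∑ i, A i j) = 1) ∧
          (∀ i j, A i j = A j i) ∧
          (∃ d : Fin (2 * n + 1), ∀ i, i ≠ d → A i i = 0)} : ℕ) : ℚ)
      = Z1 (List.replicate (2 * n + 1) (0 : ℚ)) := by
  classical
  have hZ : Z1 (List.replicate (2 * n + 1) (0 : ℚ)) =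
      (((S (fun _ : Fin (2 * n + 1) => false)).filter (fun A => dg A = 1)).card : ℚ) := by
    have e : List.replicate (2 * n + 1) false = List.ofFn (fun _ : Fin (2 * n + 1) => false) :=
      (List.ofFn_const _ _).symm
    rw [Z1, Z0, List.map_replicate, List.length_replicate, e, Polynomial.C_0, Z_eq]
    unfold G
    rw [Polynomial.finsetSum_coeff, Finset.card_filter]
    push_cast
    refine Finset.sum_congr rfl fun A _ => ?_
    rw [Polynomial.coeff_X_pow]
    simp only [eq_comm]
  rw [hZ, Nat.cast_inj]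
  refine Nat.subtype_card (α := Fin (2 * n + 1) → Fin (2 * n + 1) → ℤ) _ ?_
  intro A
  rw [Finset.mem_filter, mem_S]
  constructor
  · rintro ⟨⟨h1, h2⟩, h3⟩
    have hr : ∀ i k, (∑ j ∈ Finset.Iic k, A i j) = 0 ∨ (∑ j ∈ Finset.Iic k, A i j) = 1 := by
      intro i k
      simpa using (h2 i).1 k
    have ht : ∀ i, (∑ j, A i j) = 1 := by
      intro i
      simpa using (h2 i).2
    refine ⟨fun i j => ?_, hr, ht, fun j k => ?_, fun j => ?_, h1, ?_⟩
    · have := ok_entry (bi_mem _) (h2 i) j
      simpa using this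
    · simp_rw [fun i => h1 i j]
      exact hr j k
    · simp_rw [fun i => h1 i j]
      exact ht j
    · by_contra hcon
      push Not at hcon
      obtain ⟨d, hd⟩ : ∃ d, A d d ≠ 0 := by
        obtain ⟨i, _, hi⟩ := hcon 0
        exact ⟨i, hi⟩
      obtain ⟨e, he, he'⟩ := hcon d
      have h4 : ({d, e} : Finset (Fin (2 * n + 1))).card ≤ dg A := by
        unfold dg
        rw [Finset.card_eq_sum_ones]
        calc ∑ i ∈ ({d, e} : Finset (Fin (2 * n + 1))), 1
            = ∑ i ∈ ({d, e} : Finset (Fin (2 * n + 1))), (if A i i = 0 then 0 else 1) := by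
              refine Finset.sum_congr rfl fun i hi => ?_
              rw [Finset.mem_insert, Finset.mem_singleton] at hi
              rcases hi with rfl | rfl
              · rw [if_neg hd]
              · rw [if_neg he']
          _ ≤ _ := Finset.sum_le_univ_sum_of_nonneg fun _ => Nat.zero_le _
      rw [Finset.card_pair he.symm] at h4
      omega
  · rintro ⟨_, h2, h3, _, _, h6, d, hd⟩
    have hle : dg A ≤ 1 := by
      unfold dg
      rw [Finset.sum_eq_single d]
      · split_ifs <;> simp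
      · intro i _ hi
        rw [if_pos (hd i hi)]
      · intro h
        exact absurd (Finset.mem_univ d) h
    have hne : dg A ≠ 0 := by
      intro h0
      unfold dg at h0
      rw [Finset.sum_eq_zero_iff] at h0
      have hd0 : ∀ i, A i i = 0 := by
        intro i
        have := h0 i (Finset.mem_univ i)
        by_contra hi
        rw [if_neg hi] at this
        omega
      have hp := parity h6 hd0
      simp_rw [h3] at hp
      simp only [Finset.sum_const, Finset.card_univ, Fintype.card_fin, mul_one,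
        nsmul_eq_mul] at hp
      push_cast at hp
      have h2 : (2 : ZMod 2) = 0 := rfl
      rw [h2] at hp
      simp at hp
    refine ⟨⟨h6, fun i => ⟨fun k => ?_, ?_⟩⟩, by omega⟩
    · simpa using h2 i k
    · simpa using h3 i

end Pool.Agent.TH159.J987
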