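import Pool.Agent.TH159.TM_Reg

set_option autoImplicit false

open CategoryTheory Abelian RingTheory.Sequence Pointwise

namespace Pool.Agent.TH159.TM

lemma isRegular_map_iff (R S M : Type) [CommRing R] [CommRing S]
    [Algebra R S] [AddCommGroup M] [Module R M] [Module S M]
    [IsScalarTower R S M] (rs : List R) :
    IsRegular M (rs.map (algebraMap R S)) ↔ IsRegular M rs :=
  (AddEquiv.refl M).isRegular_congr <| List.forall₂_map_left_iff.mpr <|
    List.forall₂_same.mpr fun r _ => algebraMap_smul S r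

open Polynomial in
lemma regular_cons (R : Type) [CommRing R] (f : R[X]) (hf : f.Monic) (hu : ¬ IsUnit f)
    (rs : List R) (h : IsRegular R rs) : IsRegular R[X] (f :: rs.map C) := by
  rw [isRegular_cons_iff]
  constructor
  · intro a b hab
    exact hf.isRegular.1 (by simpa using hab)
  have hfree : Module.Free R (R[X] ⧸ Ideal.span {f}) := hf.free_adjoinRoot
  have hn : Nontrivial (R[X] ⧸ Ideal.span {f}) :=
    Ideal.Quotient.nontrivial_iff.2 (by rwa [Ne, Ideal.span_singleton_eq_top])
  have h1 : IsRegular (R[X] ⧸ Ideal.span {f}) (rs.map (algebraMap R (R[X] ⧸ Ideal.span {f}))) :=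
    IsRegular.of_faithfullyFlat h
  have h2 : IsRegular (R[X] ⧸ Ideal.span {f}) rs := (isRegular_map_iff _ _ _ _).1 h1
  have h3 : IsRegular (R[X] ⧸ Ideal.span {f}) (rs.map (algebraMap R R[X])) :=
    (isRegular_map_iff _ _ _ _).2 h2
  have e : QuotSMulTop f R[X] ≃ₗ[R[X]] (R[X] ⧸ Ideal.span {f}) :=
    Submodule.quotEquivOfEq _ _ (by
      rw [← Submodule.ideal_span_singleton_smul, smul_eq_mul, Ideal.mul_top])
  exact (e.isRegular_congr _).2 h3

lemma mv (K : Type) [Field K] (n : ℕ) : ∀ P : Ideal (MvPolynomial (Fin n) K), P.IsMaximal →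
    P.height = n ∧ ∃ rs : List (MvPolynomial (Fin n) K), rs.length = n ∧ (∀ r ∈ rs, r ∈ P) ∧
      IsRegular (MvPolynomial (Fin n) K) rs := by
  induction n with
  | zero =>
    intro P hP
    have hF : IsField (MvPolynomial (Fin 0) K) :=
      (MvPolynomial.isEmptyRingEquiv K (Fin 0)).toMulEquiv.isField (Field.toIsField K)
    have hP0 : P = ⊥ := by
      let _ := hF.toField
      exact Ideal.eq_bot_of_prime P
    refine ⟨by rw [hP0, Ideal.height_bot]; rfl, [], rfl, by simp, by simp [isRegular_iff]⟩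
  | succ n ih =>
    intro P hP
    let R := MvPolynomial (Fin n) K
    let e : MvPolynomial (Fin (n + 1)) K ≃+* Polynomial R :=
      (MvPolynomial.finSuccEquiv K n).toRingEquiv
    let P' := P.map e
    have hP' : P'.IsMaximal := Ideal.map_isMaximal_of_equiv e
    let p := P'.comap (Polynomial.C : R →+* Polynomial R)
    have hp : p.IsMaximal := Polynomial.isMaximal_comap_C_of_isJacobsonRing P'
    obtain ⟨h1, rs, hl, hm, hr⟩ := ih p hp
    have hlies : P'.LiesOver p := ⟨rfl⟩
    have h2 : P'.height = p.height + 1 := Polynomial.height_eq_height_add_one p P'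
    have h3 : P'.height = P.height := e.height_map P
    have hne : P' ≠ p.map Polynomial.C := by
      intro h
      have := Polynomial.height_map_C p
      rw [← h, h2, h1] at this
      exact absurd this (by norm_cast; omega)
    obtain ⟨f, hf, hP'f⟩ := Polynomial.exists_monic_span_sup_map_eq R P' hp hne
    have hfP' : f ∈ P' := by
      rw [hP'f]; exact Ideal.mem_sup_right (Ideal.mem_span_singleton_self f)
    have hu : ¬ IsUnit f := fun h => hP'.ne_top (Ideal.eq_top_of_isUnit_mem _ hfP' h)
    have h4 := regular_cons R f hf hu rs hr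
    refine ⟨by rw [← h3, h2, h1]; push_cast; rfl, (f :: rs.map Polynomial.C).map e.symm,
      by simp [hl], ?_, ?_⟩
    · intro r hr
      obtain ⟨s, hs, rfl⟩ := List.mem_map.1 hr
      have hs' : s ∈ P' := by
        rcases List.mem_cons.1 hs with rfl | hs
        · exact hfP'
        · obtain ⟨t, ht, rfl⟩ := List.mem_map.1 hs
          exact hm t ht
      obtain ⟨x, hx, rfl⟩ := (Ideal.mem_map_of_equiv e s).1 hs'
      simpa using hx
    · refine (AddEquiv.isRegular_congr (e := e.symm.toAddEquiv) ?_).1 h4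
      rw [List.forall₂_map_right_iff]
      exact List.forall₂_same.2 fun r _ x => by simp

section RR

open Pool.Agent.TH215.TM

lemma monicRR : (Polynomial.X ^ 4 + Polynomial.C g3 : Polynomial S3).Monic :=
  Polynomial.monic_X_pow_add_C g3 (by norm_num)

instance : Module.Free S3 RR := monicRR.free_adjoinRoot

instance : Module.Finite S3 RR := monicRR.finite_adjoinRoot

instance : Nontrivial RR := by
  refine Ideal.Quotient.nontrivial_iff.2 ?_
  rw [Ne, Ideal.span_singleton_eq_top]
  intro h
  have := monicRR.eq_one_of_isUnit h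
  have h2 := congrArg Polynomial.natDegree this
  rw [Polynomial.natDegree_X_pow_add_C, Polynomial.natDegree_one] at h2
  omega

lemma under_maximal (m : Ideal RR) (hm : m.IsMaximal) :
    (m.comap (algebraMap S3 RR)).IsMaximal :=
  Ideal.isMaximal_comap_of_isIntegral_of_isMaximal m

lemma krullDimLE_quot (n : Ideal S3) (hnm : n.IsMaximal) :
    Ring.KrullDimLE 0 (RR ⧸ n.map (algebraMap S3 RR)) := by
  set q := n.map (algebraMap S3 RR) with hq
  refine Ring.KrullDimLE.mk₀ fun Q hQ => ?_
  have hP : (Q.comap (Ideal.Quotient.mk q)).IsPrime := inferInstance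
  have h1 : n ≤ (Q.comap (Ideal.Quotient.mk q)).comap (algebraMap S3 RR) := by
    intro s hs
    rw [Ideal.mem_comap, Ideal.mem_comap,
      Ideal.Quotient.eq_zero_iff_mem.2 (Ideal.mem_map_of_mem _ hs)]
    exact Q.zero_mem
  have h2 : n = (Q.comap (Ideal.Quotient.mk q)).comap (algebraMap S3 RR) :=
    hnm.eq_of_le (Ideal.IsPrime.ne_top inferInstance) h1
  have h3 : (Q.comap (Ideal.Quotient.mk q)).IsMaximal :=
    Ideal.isMaximal_of_isIntegral_of_isMaximal_comap (R := S3) _ (h2 ▸ hnm)
  have h4 := Ideal.map_comap_of_surjective _ Ideal.Quotient.mk_surjective Q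
  rw [← h4]
  exact Ideal.IsMaximal.map_of_surjective_of_ker_le Ideal.Quotient.mk_surjective
    (by rw [Ideal.mk_ker]; intro x hx; rw [Ideal.mem_comap, Ideal.Quotient.eq_zero_iff_mem.2 hx]; exact Q.zero_mem)

theorem height_RR (m : Ideal RR) (hm : m.IsMaximal) : m.height = 3 := by
  set n := m.comap (algebraMap S3 RR) with hn
  have hnm : n.IsMaximal := under_maximal m hm
  have hl : m.LiesOver n := ⟨rfl⟩
  have hg : Algebra.HasGoingDown S3 RR := Algebra.HasGoingDown.of_flat
  have hN : IsNoetherianRing RR := inferInstance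
  rw [Ideal.height_eq_height_add_of_liesOver_of_hasGoingDown n m, (mv ℂ 3 n hnm).1]
  set q := n.map (algebraMap S3 RR) with hq
  have hk := krullDimLE_quot n hnm
  have hmm : (m.map (Ideal.Quotient.mk q)).IsMaximal := by
    refine .map_of_surjective_of_ker_le Ideal.Quotient.mk_surjective ?_
    rw [Ideal.mk_ker]
    exact Ideal.map_comap_le
  have h0 : (m.map (Ideal.Quotient.mk q)).height = 0 :=
    Ideal.height_eq_zero_iff.2 (Ideal.mem_minimalPrimes_iff_isPrime.2 hmm.isPrime)
  rw [h0]
  norm_num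

theorem exists_regular_RR (m : Ideal RR) (hm : m.IsMaximal) :
    ∃ rs : List RR, rs.length = 3 ∧ (∀ r ∈ rs, r ∈ m) ∧ IsRegular RR rs := by
  obtain ⟨_, rs, hl, hm, hr⟩ := mv ℂ 3 _ (under_maximal m hm)
  refine ⟨rs.map (algebraMap S3 RR), by simp [hl], ?_, IsRegular.of_faithfullyFlat hr⟩
  intro r hr
  obtain ⟨s, hs, rfl⟩ := List.mem_map.1 hr
  exact hm s hs

theorem isCM_RR : IsCM RR RR := by
  refine ⟨inferInstance, fun m hm i hi => ?_⟩
  rw [height_RR m hm] at hi
  obtain ⟨rs, hl, hmem, hr⟩ := exists_regular_RR m hm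
  refine ModuleCat.subsingleton_ext_of_exists_isRegular m (ModuleCat.of RR (RR ⧸ m)) ?_
    (ModuleCat.of RR RR) ?_ rs hmem hr i ?_
  · rw [Module.support_eq_zeroLocus]
    rw [Ideal.annihilator_quotient]
  · rw [smul_eq_mul, Ideal.mul_top]
    exact hm.ne_top.lt_top
  · rw [hl]
    exact_mod_cast hi

lemma ext_zero_of_finiteLength {A : Type} [CommRing A] (k : ℕ) (X : ModuleCat.{0} A)
    (h : ∀ m : Ideal A, m.IsMaximal → ∀ i : ℕ, i < k →
      Subsingleton (Ext (ModuleCat.of A (A ⧸ m)) X i))
    (L : Type) [AddCommGroup L] [Module A L] (hL : IsFiniteLength A L) :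
    ∀ i : ℕ, i < k → Subsingleton (Ext (ModuleCat.of A L) X i) := by
  induction hL with
  | of_subsingleton =>
    intro i hi
    rename_i M _ _ _
    have h1 : Limits.IsZero (ModuleCat.of A M) := ModuleCat.isZero_of_subsingleton _
    have h2 := h1.hasProjectiveDimensionLT_zero
    exact HasProjectiveDimensionLT.subsingleton (ModuleCat.of A M) 0 i (by omega) X
  | of_simple_quotient hN ih =>
    intro i hi
    rename_i M _ _ N hs
    obtain ⟨m, hm, ⟨e⟩⟩ := isSimpleModule_iff_quot_maximal.1 hs
    have hex : Function.Exact N.subtype (e.toLinearMap ∘ₗ N.mkQ) := by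
      intro x
      simp
    have hS := Pool.Agent.W506.Hilb.sc_shortExact N.subtype (e.toLinearMap ∘ₗ N.mkQ)
      N.subtype_injective (e.surjective.comp N.mkQ_surjective) hex
    have z1 : Limits.IsZero (AddCommGrpCat.of (Ext (ModuleCat.of A N) X i)) :=
      AddCommGrpCat.isZero_of_iff_subsingleton.mpr (ih i hi)
    have z3 : Limits.IsZero (AddCommGrpCat.of (Ext (ModuleCat.of A (A ⧸ m)) X i)) :=
      AddCommGrpCat.isZero_of_iff_subsingleton.mpr (h m hm i hi)
    exact AddCommGrpCat.subsingleton_of_isZero <| ShortComplex.Exact.isZero_of_both_zeros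
      (Ext.contravariant_sequence_exact₂' hS X i)
      (z3.eq_zero_of_src _) (z1.eq_zero_of_tgt _)

theorem cm_regular (X : Type) [AddCommGroup X] [Module RR X] (hX : IsCM RR X)
    (n : Ideal S3) (hn : n.IsMaximal) :
    (n.map (algebraMap S3 RR)) • (⊤ : Submodule RR X) = ⊤ ∨
    ∃ rs : List RR, rs.length = 3 ∧ (∀ r ∈ rs, r ∈ n.map (algebraMap S3 RR)) ∧
      RingTheory.Sequence.IsRegular X rs := by
  by_cases hne : (n.map (algebraMap S3 RR)) • (⊤ : Submodule RR X) = ⊤
  · exact Or.inl hne
  right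
  have hfin := hX.1
  set q := n.map (algebraMap S3 RR) with hq
  have hk := krullDimLE_quot n hn
  have hart : IsArtinianRing (RR ⧸ q) :=
    isArtinianRing_iff_isNoetherianRing_krullDimLE_zero.2 ⟨inferInstance, hk⟩
  have hart2 : IsArtinian RR (RR ⧸ q) := by
    have : IsArtinian (RR ⧸ q) (RR ⧸ q) := hart
    exact isArtinian_of_surjective_algebraMap (Ideal.Quotient.mk_surjective (I := q))
  have hfl : IsFiniteLength RR (RR ⧸ q) :=
    isFiniteLength_iff_isNoetherian_isArtinian.2 ⟨inferInstance, hart2⟩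
  refine ModuleCat.exists_isRegular_of_exists_subsingleton_ext q 3 (ModuleCat.of RR X)
    (lt_top_iff_ne_top.2 hne) (ModuleCat.of RR (RR ⧸ q)) ?_ ?_
  · rw [Module.support_eq_zeroLocus]
    rw [Ideal.annihilator_quotient]
  · refine ext_zero_of_finiteLength 3 (ModuleCat.of RR X) (fun m hm i hi => ?_) (RR ⧸ q) hfl
    exact hX.2 m hm i (by rw [height_RR m hm]; exact_mod_cast hi)

end RR

end Pool.Agent.TH159.TM
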