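import Pool.Agent.TH215.TM.Defs
import Pool.Agent.W506.H2

set_option autoImplicit false

open CategoryTheory Abelian RingTheory.Sequence Pointwise

namespace Pool.Agent.TH159.TM

section seq

variable {S R : Type} [CommRing S] [CommRing R] [Algebra S R] [IsNoetherianRing S]
  [IsNoetherianRing R]

omit [IsNoetherianRing S] [IsNoetherianRing R] in
/-- the two quotients by `s` -/
lemma exists_equiv (X : Type) [AddCommGroup X] [Module R X] [Module S X]
    [IsScalarTower S R X] (s : S) :
    Nonempty (QuotSMulTop s X ≃ₗ[S] (X ⧸ (algebraMap S R s • (⊤ : Submodule R X)))) := by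
  have h : (s • (⊤ : Submodule S X)) =
      (algebraMap S R s • (⊤ : Submodule R X)).restrictScalars S := by
    ext x
    simp only [Submodule.mem_smul_pointwise_iff_exists, Submodule.restrictScalars_mem,
      Submodule.mem_top, true_and, algebraMap_smul]
  exact ⟨(Submodule.quotEquivOfEq _ _ h).trans
    (Submodule.Quotient.restrictScalarsEquiv S (algebraMap S R s • (⊤ : Submodule R X)))⟩

/-- From regular sequences in `n R` to regular sequences in `n`. -/
lemma exists_regular (n : Ideal S) (k : ℕ) : ∀ (X : Type) [AddCommGroup X] [Module R X]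
    [Module S X] [IsScalarTower S R X] [Module.Finite S X],
    (n.map (algebraMap S R)) • (⊤ : Submodule R X) ≠ ⊤ →
    (∃ rs : List R, rs.length = k ∧ (∀ r ∈ rs, r ∈ n.map (algebraMap S R)) ∧ IsRegular X rs) →
    ∃ ss : List S, ss.length = k ∧ (∀ s ∈ ss, s ∈ n) ∧ IsRegular X ss := by
  induction k with
  | zero =>
    intro X _ _ _ _ _ hX _
    have : Nontrivial X := (Submodule.nontrivial_iff R).mp (nontrivial_of_lt _ _ hX.lt_top)
    exact ⟨[], rfl, by simp, by simp [isRegular_iff]⟩
  | succ k ih =>
    intro X _ _ _ _ _ hX hrs
    have hfin : Module.Finite R X := Module.Finite.of_restrictScalars_finite S R X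
    -- an element of `n` which is regular
    have h1 : Subsingleton ((S ⧸ n) →ₗ[S] X) := by
      obtain ⟨rs, hl, hm, hr⟩ := hrs
      match rs, hl, hm, hr with
      | [], hl, _, _ => simp at hl
      | r :: rs', hl, hm, hr =>
        rw [isRegular_cons_iff] at hr
        have hrn : r ∈ n.map (algebraMap S R) := hm r List.mem_cons_self
        refine ⟨fun f g => ?_⟩
        have key : ∀ f : (S ⧸ n) →ₗ[S] X, f 1 = 0 := by
          intro f
          have h2 : ∀ s ∈ n, s • f 1 = 0 := by
            intro s hs
            rw [← map_smul]
            have : s • (1 : S ⧸ n) = 0 := by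
              rw [Algebra.smul_def, mul_one]
              exact Ideal.Quotient.eq_zero_iff_mem.2 hs
            rw [this, map_zero]
          have h3 : ∀ r ∈ n.map (algebraMap S R), r • f 1 = 0 := by
            intro r hr
            refine Submodule.span_induction (p := fun r _ => r • f 1 = 0) ?_ ?_ ?_ ?_ hr
            · rintro _ ⟨s, hs, rfl⟩
              rw [algebraMap_smul]
              exact h2 s hs
            · simp
            · intro a b _ _ ha hb
              rw [add_smul, ha, hb, add_zero]
            · intro a b _ hb
              rw [smul_eq_mul, mul_smul, hb, smul_zero]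
          have h4 := h3 r hrn
          exact hr.1 (by simpa using h4)
        refine LinearMap.ext fun x => ?_
        obtain ⟨y, rfl⟩ := Ideal.Quotient.mk_surjective x
        have h5 : (Ideal.Quotient.mk n y) = y • (1 : S ⧸ n) := by
          rw [Algebra.smul_def, mul_one]; rfl
        rw [h5, map_smul, map_smul, key f, key g]
    obtain ⟨s, hs, hreg⟩ := IsSMulRegular.subsingleton_linearMap_iff.1 h1
    rw [Ideal.annihilator_quotient] at hs
    set t : R := algebraMap S R s with ht
    set I : Ideal R := n.map (algebraMap S R) with hI
    have htI : t ∈ I := Ideal.mem_map_of_mem _ hs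
    have htreg : IsSMulRegular X t := by
      intro a b hab
      refine hreg ?_
      simpa [ht, algebraMap_smul] using hab
    have hX' : I • (⊤ : Submodule R (QuotSMulTop t X)) ≠ ⊤ := by
      by_contra eq
      absurd congrArg (Submodule.comap (Submodule.mkQ _)) eq
      simpa [Submodule.comap_smul_top_of_surjective I _ (Submodule.mkQ_surjective _),
        Submodule.smul_mono_left ((Ideal.span_singleton_le_iff_mem I).mpr htI),
        ← Submodule.ideal_span_singleton_smul] using hX
    have hrs' : ∃ rs : List R, rs.length = k ∧ (∀ r ∈ rs, r ∈ I) ∧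
        IsRegular (QuotSMulTop t X) rs := by
      have e1 := ((ModuleCat.exists_isRegular_tfae I (k + 1) (ModuleCat.of R X)
        hX.lt_top).out 1 3).2 hrs
      refine ((ModuleCat.exists_isRegular_tfae I k (ModuleCat.of R (QuotSMulTop t X))
        hX'.lt_top).out 1 3).1 ?_
      intro i hi
      have zero1 := AddCommGrpCat.isZero_of_iff_subsingleton.mpr (e1 i (by omega))
      have zero2 := AddCommGrpCat.isZero_of_iff_subsingleton.mpr (e1 (i + 1) (by omega))
      have htreg' : IsSMulRegular (ModuleCat.of R X) t := htreg
      exact AddCommGrpCat.subsingleton_of_isZero <| ShortComplex.Exact.isZero_of_both_zeros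
        ((Ext.covariant_sequence_exact₃' _ htreg'.smulShortComplex_shortExact) i (i + 1) rfl)
        (zero1.eq_zero_of_src _) (zero2.eq_zero_of_tgt _)
    obtain ⟨ss, hl, hm, hr⟩ := ih (QuotSMulTop t X) hX' hrs'
    obtain ⟨e⟩ := exists_equiv (S := S) (R := R) X s
    refine ⟨s :: ss, by simp [hl], ?_, ?_⟩
    · intro a ha
      rcases List.mem_cons.1 ha with rfl | ha
      · exact hs
      · exact hm a ha
    · rw [isRegular_cons_iff]
      exact ⟨hreg, (e.isRegular_congr ss).2 hr⟩

end seq

section loc

variable {S : Type} [CommRing S]

lemma pdLE_loc (d : ℕ) (n : Submonoid S)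
    (hgl : ∀ (M : Type) [AddCommGroup M] [Module S M],
      HasProjectiveDimensionLE (ModuleCat.of S M) d)
    (M : Type) [AddCommGroup M] [Module (Localization n) M] :
    HasProjectiveDimensionLE (ModuleCat.of (Localization n) M) d := by
  let _ : Module S M := Module.compHom M (algebraMap S (Localization n))
  have _ : IsScalarTower S (Localization n) M := IsScalarTower.of_algebraMap_smul fun r x => rfl
  have h0 := hgl M
  have h1 := ModuleCat.localizedModule_hasProjectiveDimensionLE d n (ModuleCat.of S M)
  have h2 : IsLocalizedModule n (LinearMap.id : M →ₗ[S] M) :=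
    isLocalizedModule_id n M (Localization n)
  have h3 := ModuleCat.localizedModule_isLocalizedModule (ModuleCat.of S M) n
  let e1 : (ModuleCat.of S M).localizedModule n ≃ₗ[S] M :=
    IsLocalizedModule.linearEquiv n ((ModuleCat.of S M).localizedModuleMkLinearMap n)
      (LinearMap.id : M →ₗ[S] M)
  let e := LinearEquiv.extendScalarsOfIsLocalization n (Localization n) e1
  exact ModuleCat.hasProjectiveDimensionLE_of_linearEquiv (N := ModuleCat.of (Localization n) M) e d

lemma projective_of_seq [IsNoetherianRing S] (d : ℕ)
    (hgl : ∀ (M : Type) [AddCommGroup M] [Module S M],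
      HasProjectiveDimensionLE (ModuleCat.of S M) d)
    (X : Type) [AddCommGroup X] [Module S X] [Module.Finite S X]
    (h : ∀ n : Ideal S, n.IsMaximal → n • (⊤ : Submodule S X) = ⊤ ∨
      ∃ ss : List S, ss.length = d ∧ (∀ s ∈ ss, s ∈ n) ∧ IsRegular X ss) :
    Module.Projective S X := by
  suffices h : HasProjectiveDimensionLE (ModuleCat.of S X) 0 by
    rw [HasProjectiveDimensionLE, zero_add, ← projective_iff_hasProjectiveDimensionLT_one,
      ← IsProjective.iff_projective] at h
    exact h
  rw [ModuleCat.hasProjectiveDimensionLE_iff_forall_maximalSpectrum]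
  intro m
  set n := m.asIdeal with hn
  have hnm : n.IsMaximal := m.2
  have h3 := ModuleCat.localizedModule_isLocalizedModule (ModuleCat.of S X) n.primeCompl
  rcases subsingleton_or_nontrivial ((ModuleCat.of S X).localizedModule n.primeCompl) with hs | hs
  · have : Limits.IsZero ((ModuleCat.of S X).localizedModule n.primeCompl) :=
      ModuleCat.isZero_of_subsingleton _
    have := this.hasProjectiveDimensionLT_zero
    exact hasProjectiveDimensionLT_of_ge _ 0 1 (by omega)
  rcases h n hnm with h4 | ⟨ss, hl, hm, hr⟩
  · exfalso
    obtain ⟨r, hr, hr2⟩ := Submodule.exists_sub_one_mem_and_smul_eq_zero_of_fg_of_le_smul n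
      (⊤ : Submodule S X) Module.Finite.fg_top h4.ge
    have : Subsingleton ((ModuleCat.of S X).localizedModule n.primeCompl) := by
      rw [IsLocalizedModule.subsingleton_iff n.primeCompl
        ((ModuleCat.of S X).localizedModuleMkLinearMap n.primeCompl)]
      intro x
      refine ⟨r, ?_, hr2 x trivial⟩
      intro hrn
      apply hnm.ne_top
      rw [Ideal.eq_top_iff_one]
      have := n.sub_mem hrn hr
      simpa using this
    exact not_subsingleton _ this
  · let A := Localization.AtPrime n
    let XL := (ModuleCat.of S X).localizedModule n.primeCompl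
    have hfin : Module.Finite A XL :=
      Module.Finite.of_isLocalizedModule n.primeCompl
        ((ModuleCat.of S X).localizedModuleMkLinearMap n.primeCompl)
    have h5 : IsWeaklyRegular XL (ss.map (algebraMap S A)) :=
      hr.1.of_isLocalizedModule A n.primeCompl
        ((ModuleCat.of S X).localizedModuleMkLinearMap n.primeCompl)
    have h6 := ModuleCat.projectiveDimension_quotient_eq_add_length_of_isWeaklyRegular XL
      (ss.map (algebraMap S A)) h5 (by
        intro r hr
        rcases List.mem_map.mp hr with ⟨r, hr', rfl⟩
        exact (IsLocalization.AtPrime.to_map_mem_maximal_iff A n r).2 (hm r hr'))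
    have h7 := pdLE_loc d n.primeCompl hgl
      (XL ⧸ Ideal.ofList (ss.map (algebraMap S A)) • (⊤ : Submodule A XL))
    have h8 := (projectiveDimension_le_iff _ _).2 h7
    rw [h6, List.length_map, hl] at h8
    show HasProjectiveDimensionLE XL 0
    rw [← projectiveDimension_le_iff]
    generalize projectiveDimension XL = q at h8
    induction q with
    | bot => exact bot_le
    | coe q =>
      have h9 : ((q + (d : ℕ∞) : ℕ∞) : WithBot ℕ∞) ≤ ((d : ℕ∞) : WithBot ℕ∞) := by exact_mod_cast h8
      rw [WithBot.coe_le_coe] at h9
      have h10 : q ≤ 0 := by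
        have : q + (d : ℕ∞) ≤ 0 + (d : ℕ∞) := by rw [zero_add]; exact h9
        exact (ENat.add_le_add_iff_right (ENat.natCast_ne_top d)).1 this
      exact_mod_cast h10

end loc

open Pool.Agent.TH215.TM in
theorem projective_of_regular (X : Type) [AddCommGroup X] [Module RR X] [Module S3 X]
    [IsScalarTower S3 RR X] [Module.Finite S3 X]
    (h : ∀ n : Ideal S3, n.IsMaximal →
      (n.map (algebraMap S3 RR)) • (⊤ : Submodule RR X) = ⊤ ∨
      ∃ rs : List RR, rs.length = 3 ∧ (∀ r ∈ rs, r ∈ n.map (algebraMap S3 RR)) ∧
        RingTheory.Sequence.IsRegular X rs) : Module.Projective S3 X := by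
  have hRR : IsNoetherianRing RR := inferInstance
  refine projective_of_seq 3 (fun M _ _ => ?_) X (fun n hn => ?_)
  · exact Pool.Agent.W506.Hilb.hilbert_syzygy ℂ 3 M
  · rcases h n hn with h1 | h1
    · left
      have := congrArg (Submodule.restrictScalars S3) h1
      rw [Ideal.smul_restrictScalars] at this
      simpa using this
    · by_cases h2 : (n.map (algebraMap S3 RR)) • (⊤ : Submodule RR X) = ⊤
      · left
        have := congrArg (Submodule.restrictScalars S3) h2
        rw [Ideal.smul_restrictScalars] at this
        simpa using this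
      · right
        exact exists_regular n 3 X h2 h1

end Pool.Agent.TH159.TM
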